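import Mathlib

/-!
The second moment of `∑_i g(2 s i + e i - r)` over `1 ≤ s ≤ S`, `0 ≤ r ≤ 2 s`: the off-diagonal terms
are sums of `g` over arithmetic progressions.
-/

set_option autoImplicit false

namespace Pool.Agent.TH892.OW

open Finset

/-- the sum over an arithmetic progression up to `N` -/
noncomputable def AP (g : ℤ → ℝ) (q : ℕ) (c N : ℤ) : ℝ :=
  ∑ v ∈ (Icc 1 N).filter (fun v => (q : ℤ) ∣ v - c), g v

lemma AP_step (g : ℤ → ℝ) (hg : ∀ v ≤ 0, g v = 0) (q : ℕ) (hq : 1 ≤ q) (a b : ℤ) :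
    AP g q a (a + q * b) = AP g q a (a + q * (b - 1)) + g (a + q * b) := by
  have hq' : (1 : ℤ) ≤ q := by exact_mod_cast hq
  unfold AP
  by_cases h : a + q * b ≤ 0
  · have h1 : Icc (1 : ℤ) (a + q * b) = ∅ := Icc_eq_empty (by omega)
    have h2 : Icc (1 : ℤ) (a + q * (b - 1)) = ∅ := Icc_eq_empty (by
      have : a + (q : ℤ) * (b - 1) = a + q * b - q := by ring
      omega)
    rw [h1, h2, hg _ h]
    simp
  · have e : (Icc (1 : ℤ) (a + q * b)).filter (fun v => (q : ℤ) ∣ v - a) =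
        insert (a + q * b) ((Icc (1 : ℤ) (a + q * (b - 1))).filter (fun v => (q : ℤ) ∣ v - a)) := by
      ext v
      simp only [mem_insert, mem_filter, mem_Icc]
      constructor
      · rintro ⟨⟨h1, h2⟩, k, hk⟩
        by_cases hkb : k = b
        · left; rw [← hkb]; linarith
        · right
          refine ⟨⟨h1, ?_⟩, k, hk⟩
          have h3 : k ≤ b := by
            by_contra hc
            push Not at hc
            have : (q : ℤ) * (b + 1) ≤ q * k := mul_le_mul_of_nonneg_left (by omega) (by omega)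
            nlinarith
          have h4 : (q : ℤ) * k ≤ q * (b - 1) := mul_le_mul_of_nonneg_left (by omega) (by omega)
          linarith
      · rintro (h1 | ⟨⟨h1, h2⟩, h3⟩)
        · subst h1
          exact ⟨⟨by omega, le_rfl⟩, b, by ring⟩
        · refine ⟨⟨h1, ?_⟩, h3⟩
          have : a + (q : ℤ) * (b - 1) = a + q * b - q := by ring
          omega
    rw [e, sum_insert, add_comm]
    rw [mem_filter, mem_Icc]
    intro hc
    have : a + (q : ℤ) * (b - 1) = a + q * b - q := by ring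
    omega

lemma AP_interval (g : ℤ → ℝ) (hg : ∀ v ≤ 0, g v = 0) (q : ℕ) (hq : 1 ≤ q) (a x y : ℤ) (hxy : x ≤ y + 1) :
    ∑ s ∈ Icc x y, g (a + q * s) = AP g q a (a + q * y) - AP g q a (a + q * (x - 1)) := by
  obtain ⟨n, hn⟩ : ∃ n : ℕ, y = x - 1 + n := ⟨(y - x + 1).toNat, by omega⟩
  subst hn
  clear hxy
  induction n with
  | zero =>
    rw [Icc_eq_empty (by push_cast; omega)]
    simp
  | succ n ih =>
    have e1 : x - 1 + ((n + 1 : ℕ) : ℤ) = (x - 1 + (n : ℤ)) + 1 := by push_cast; ring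
    rw [e1]
    have e2 : Icc x (x - 1 + (n : ℤ) + 1) = insert (x - 1 + (n : ℤ) + 1) (Icc x (x - 1 + (n : ℤ))) := by
      ext t
      simp only [mem_insert, mem_Icc]
      omega
    rw [e2, sum_insert (by rw [mem_Icc]; omega), ih, AP_step g hg q hq a (x - 1 + (n : ℤ) + 1)]
    rw [add_sub_cancel_right]
    ring

lemma conv_sum (g : ℤ → ℝ) (hg : ∀ v ≤ 0, g v = 0) (q : ℕ) (hq : 1 ≤ q) (Δ : ℝ) (Y : ℤ)
    (hAP : ∀ c N : ℤ, N ≤ Y → |AP g q c N| ≤ Δ) (A : Finset ℤ)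
    (hA : ∀ x ∈ A, ∀ y ∈ A, ∀ t, x ≤ t → t ≤ y → t ∈ A) (a : ℤ) (hY : ∀ s ∈ A, a + q * s ≤ Y) :
    |∑ s ∈ A, g (a + q * s)| ≤ 2 * Δ := by
  have hΔ : 0 ≤ Δ := (abs_nonneg _).trans (hAP 0 Y le_rfl)
  rcases A.eq_empty_or_nonempty with h | h
  · rw [h, sum_empty, abs_zero]; linarith
  · have e : A = Icc (A.min' h) (A.max' h) := by
      ext t
      rw [mem_Icc]
      exact ⟨fun ht => ⟨min'_le _ _ ht, le_max' _ _ ht⟩,
        fun ht => hA _ (min'_mem _ _) _ (max'_mem _ _) t ht.1 ht.2⟩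
    have hmm : A.min' h ≤ A.max' h := min'_le _ _ (max'_mem _ _)
    rw [e, AP_interval g hg q hq a _ _ (by omega)]
    have hq' : (0 : ℤ) ≤ q := Nat.cast_nonneg _
    have h1 := hAP a (a + q * A.max' h) (hY _ (max'_mem _ _))
    have h2 := hAP a (a + q * (A.min' h - 1)) (by
      have h3 := hY _ (min'_mem A h)
      have h4 : (q : ℤ) * (A.min' h - 1) ≤ q * A.min' h := mul_le_mul_of_nonneg_left (by omega) hq'
      linarith)
    have h5 := abs_sub (AP g q a (a + q * A.max' h)) (AP g q a (a + q * (A.min' h - 1)))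
    linarith

/-- the pair sum -/
noncomputable def QQ (g g' : ℤ → ℝ) (e : ℕ → ℤ) (A S : ℤ) (i j : ℕ) : ℝ :=
  ∑ s ∈ Icc A S, ∑ r ∈ Icc (0 : ℤ) (2 * s), g (2 * s * i + e i - r) * g' (2 * s * j + e j - r)

noncomputable def GG (g : ℤ → ℝ) (e : ℕ → ℤ) (L : ℕ) (s r : ℤ) : ℝ := ∑ i ∈ Icc 1 L, g (2 * s * i + e i - r)

lemma QQ_comm (g g' : ℤ → ℝ) (e : ℕ → ℤ) (A S : ℤ) (i j : ℕ) : QQ g g' e A S i j = QQ g' g e A S j i := by
  unfold QQ
  refine sum_congr rfl fun s _ => sum_congr rfl fun r _ => mul_comm _ _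

lemma second_eq (g : ℤ → ℝ) (e : ℕ → ℤ) (L : ℕ) (A S : ℤ) :
    ∑ s ∈ Icc A S, ∑ r ∈ Icc (0 : ℤ) (2 * s), GG g e L s r ^ 2 =
      ∑ i ∈ Icc 1 L, ∑ j ∈ Icc 1 L, QQ g g e A S i j := by
  unfold GG QQ
  have h1 : ∀ s r : ℤ, (∑ i ∈ Icc 1 L, g (2 * s * i + e i - r)) ^ 2 =
      ∑ i ∈ Icc 1 L, ∑ j ∈ Icc 1 L, g (2 * s * i + e i - r) * g (2 * s * j + e j - r) := by
    intro s r
    rw [sq, sum_mul_sum]
  simp_rw [h1]
  have h2 : ∀ s : ℤ, ∑ r ∈ Icc (0 : ℤ) (2 * s), ∑ i ∈ Icc 1 L, ∑ j ∈ Icc 1 L,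
      g (2 * s * i + e i - r) * g (2 * s * j + e j - r) =
      ∑ i ∈ Icc 1 L, ∑ j ∈ Icc 1 L, ∑ r ∈ Icc (0 : ℤ) (2 * s), g (2 * s * i + e i - r) * g (2 * s * j + e j - r) := by
    intro s
    rw [sum_comm]
    refine sum_congr rfl fun i _ => ?_
    rw [sum_comm]
  simp_rw [h2]
  rw [sum_comm]
  refine sum_congr rfl fun i _ => ?_
  rw [sum_comm]

lemma second_le (g : ℤ → ℝ) (e : ℕ → ℤ) (L : ℕ) (A S : ℤ) (D O : ℝ) (hO : 0 ≤ O)
    (hD : ∀ i ∈ Icc 1 L, QQ g g e A S i i ≤ D)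
    (hoff : ∀ i ∈ Icc 1 L, ∀ j ∈ Icc 1 L, i < j → |QQ g g e A S i j| ≤ O) :
    ∑ s ∈ Icc A S, ∑ r ∈ Icc (0 : ℤ) (2 * s), GG g e L s r ^ 2 ≤ L * D + (L : ℝ) ^ 2 * O := by
  rw [second_eq]
  have h1 : ∀ i ∈ Icc 1 L, ∑ j ∈ Icc 1 L, QQ g g e A S i j ≤ D + L * O := by
    intro i hi
    rw [← add_sum_erase _ _ hi]
    apply add_le_add (hD i hi)
    calc ∑ j ∈ (Icc 1 L).erase i, QQ g g e A S i j ≤ ∑ _j ∈ (Icc 1 L).erase i, O := by
          refine sum_le_sum fun j hj => ?_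
          rw [mem_erase] at hj
          rcases lt_or_gt_of_ne hj.1 with h | h
          · rw [QQ_comm]
            exact (le_abs_self _).trans (hoff j hj.2 i hi h)
          · exact (le_abs_self _).trans (hoff i hi j hj.2 h)
      _ ≤ L * O := by
          rw [sum_const, nsmul_eq_mul]
          apply mul_le_mul_of_nonneg_right _ hO
          have := (card_le_card (erase_subset i (Icc 1 L)))
          rw [Nat.card_Icc] at this
          exact_mod_cast (by omega : ((Icc 1 L).erase i).card ≤ L)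
  calc ∑ i ∈ Icc 1 L, ∑ j ∈ Icc 1 L, QQ g g e A S i j ≤ ∑ _i ∈ Icc 1 L, (D + L * O) := sum_le_sum h1
    _ = L * D + (L : ℝ) ^ 2 * O := by
        rw [sum_const, Nat.card_Icc, nsmul_eq_mul]
        push_cast [Nat.add_sub_cancel]
        ring

/-- the set of `s` with `u` in the `i`-th interval -/
noncomputable def AU (e : ℕ → ℤ) (A S : ℤ) (i : ℕ) (u : ℤ) : Finset ℤ :=
  (Icc A S).filter (fun s => 2 * s * i + e i - 2 * s ≤ u ∧ u ≤ 2 * s * i + e i)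

lemma AU_conv (e : ℕ → ℤ) (A S : ℤ) (i : ℕ) (hi : 1 ≤ i) (u : ℤ) :
    ∀ x ∈ AU e A S i u, ∀ y ∈ AU e A S i u, ∀ t, x ≤ t → t ≤ y → t ∈ AU e A S i u := by
  intro x hx y hy t' hxt hty
  unfold AU at *
  rw [mem_filter, mem_Icc] at hx hy ⊢
  have hi1 : (1 : ℤ) ≤ i := by exact_mod_cast hi
  refine ⟨⟨by omega, by omega⟩, ?_, ?_⟩
  · have h5 : 2 * t' * ((i : ℤ) - 1) ≤ 2 * y * ((i : ℤ) - 1) :=
      mul_le_mul_of_nonneg_right (by omega) (by omega)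
    nlinarith [hy.2.1]
  · have h5 : 2 * x * (i : ℤ) ≤ 2 * t' * (i : ℤ) :=
      mul_le_mul_of_nonneg_right (by omega) (by omega)
    linarith [hx.2.2]

/-- a function of the `i`-th value summed over `r` -/
lemma r_sum (F : ℤ → ℝ) (hF : ∀ v ≤ 0, F v = 0) (Y : ℕ) (a s : ℤ) (hY : a ≤ Y) :
    ∑ r ∈ Icc (0 : ℤ) (2 * s), F (a - r) = ∑ u ∈ Icc (1 : ℤ) Y, if a - 2 * s ≤ u ∧ u ≤ a then F u else 0 := by
  rw [← sum_filter]
  symm
  apply sum_of_injOn (fun u => a - u)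
  · intro u _ u' _ huu
    simp only at huu
    linarith
  · intro u hu
    rw [mem_coe, mem_filter, mem_Icc] at hu
    rw [mem_coe, mem_Icc]
    constructor <;> linarith [hu.2.1, hu.2.2]
  · intro r hr hr2
    rw [mem_Icc] at hr
    apply hF
    by_contra hc
    push Not at hc
    apply hr2
    refine ⟨a - r, ?_, by ring⟩
    rw [mem_coe, mem_filter, mem_Icc]
    exact ⟨⟨by omega, by linarith⟩, by linarith, by linarith⟩
  · intro u hu
    congr 1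
    ring

lemma QQ_conv (g g' : ℤ → ℝ) (hg : ∀ v ≤ 0, g v = 0) (Y : ℕ) (e : ℕ → ℤ) (A S : ℤ) (L : ℕ)
    (hY : ∀ s ∈ Icc A S, ∀ i ∈ Icc 1 L, 2 * s * i + e i ≤ Y) (i j : ℕ) (hi : i ∈ Icc 1 L)
    (t : ℤ) (ht : e j - e i = (j - i) * t) :
    QQ g g' e A S i j = ∑ u ∈ Icc (1 : ℤ) Y, g u *
      ∑ s ∈ AU e A S i u, g' ((u + (j - i) * t) + 2 * ((j : ℤ) - i) * s) := by
  unfold QQ AU
  have h2 : ∀ s ∈ Icc A S, ∑ r ∈ Icc (0 : ℤ) (2 * s), g (2 * s * i + e i - r) * g' (2 * s * j + e j - r) =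
      ∑ u ∈ Icc (1 : ℤ) Y, if 2 * s * i + e i - 2 * s ≤ u ∧ u ≤ 2 * s * i + e i then
        g u * g' ((u + (j - i) * t) + 2 * ((j : ℤ) - i) * s) else 0 := by
    intro s hs
    rw [← r_sum (fun u => g u * g' ((u + (j - i) * t) + 2 * ((j : ℤ) - i) * s))
      (fun v hv => by simp only [hg v hv, zero_mul]) Y _ s (hY s hs i hi)]
    refine sum_congr rfl fun r _ => ?_
    have e2 : 2 * s * ↑i + e i - r + (↑j - ↑i) * t + 2 * ((j : ℤ) - i) * s = 2 * s * ↑j + e j - r := by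
      linear_combination -ht
    simp only [e2]
  rw [sum_congr rfl h2, sum_comm]
  refine sum_congr rfl fun u _ => ?_
  rw [mul_sum, sum_filter]

/-- the sum of a nonnegative function -/
noncomputable def FF (g : ℤ → ℝ) (e : ℕ → ℤ) (A S : ℤ) (i : ℕ) : ℝ :=
  ∑ s ∈ Icc A S, ∑ r ∈ Icc (0 : ℤ) (2 * s), g (2 * s * i + e i - r)

lemma FF_conv (g : ℤ → ℝ) (hg : ∀ v ≤ 0, g v = 0) (Y : ℕ) (e : ℕ → ℤ) (A S : ℤ) (L : ℕ)
    (hY : ∀ s ∈ Icc A S, ∀ i ∈ Icc 1 L, 2 * s * i + e i ≤ Y) (i : ℕ) (hi : i ∈ Icc 1 L) :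
    FF g e A S i = ∑ u ∈ Icc (1 : ℤ) Y, g u * #(AU e A S i u) := by
  have h := QQ_conv g (fun _ => 1) hg Y e A S L hY i i hi 0 (by ring)
  have h2 : FF g e A S i = QQ g (fun _ => 1) e A S i i := by
    unfold FF QQ
    simp
  rw [h2, h]
  refine sum_congr rfl fun u _ => ?_
  rw [sum_const, nsmul_eq_mul, mul_one]

/-- the off-diagonal terms, if all sums over progressions are small -/
theorem off (g : ℤ → ℝ) (hg : ∀ v ≤ 0, g v = 0) (G0 Δ : ℝ) (Y : ℕ) (hG : ∀ v, |g v| ≤ G0)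
    (hAP : ∀ q : ℕ, 1 ≤ q → ∀ c N : ℤ, N ≤ Y → |AP g q c N| ≤ Δ) (e : ℕ → ℤ) (A S : ℤ) (L : ℕ)
    (hY : ∀ s ∈ Icc A S, ∀ i ∈ Icc 1 L, 2 * s * i + e i ≤ Y) (i j : ℕ) (hi : i ∈ Icc 1 L)
    (hj : j ∈ Icc 1 L) (hij : i < j) (t : ℤ) (ht : e j - e i = (j - i) * t) :
    |QQ g g e A S i j| ≤ Y * (G0 * (2 * Δ)) := by
  have hG0 : 0 ≤ G0 := (abs_nonneg _).trans (hG 0)
  have hΔ : 0 ≤ Δ := (abs_nonneg _).trans (hAP 1 le_rfl 0 Y le_rfl)
  set q : ℕ := 2 * (j - i) with hq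
  have hq1 : 1 ≤ q := by omega
  have hqz : (q : ℤ) = 2 * ((j : ℤ) - i) := by rw [hq]; push_cast [hij.le]; ring
  rw [QQ_conv g g hg Y e A S L hY i j hi t ht]
  refine (abs_sum_le_sum_abs _ _).trans ?_
  have h3 : ∀ u ∈ Icc (1 : ℤ) Y, |g u * ∑ s ∈ AU e A S i u, g ((u + (j - i) * t) + 2 * ((j : ℤ) - i) * s)| ≤ G0 * (2 * Δ) := by
    intro u _
    rw [abs_mul]
    apply mul_le_mul (hG u) _ (abs_nonneg _) hG0
    rw [← hqz]
    apply conv_sum g hg q hq1 Δ Y (fun c N hN => hAP q hq1 c N hN) _ (AU_conv e A S i (mem_Icc.1 hi).1 u)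
    intro s hs
    unfold AU at hs
    rw [mem_filter] at hs
    have h6 := hY s hs.1 j hj
    rw [hqz]
    have h7 : u + (↑j - ↑i) * t + 2 * ((j : ℤ) - i) * s ≤ 2 * s * j + e j := by
      have := hs.2.2
      nlinarith [ht]
    linarith
  refine (sum_le_sum h3).trans ?_
  rw [sum_const, Int.card_Icc, nsmul_eq_mul]
  have : (((Y : ℤ) + 1 - 1).toNat : ℝ) = Y := by
    rw [add_sub_cancel_right, Int.toNat_natCast]
  rw [this]

end Pool.Agent.TH892.OW
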