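import Pool.Agent.TH892.OW.B9

/-!
No primes very near to the square root, for almost all `K`.
-/

set_option autoImplicit false

namespace Pool.Agent.TH892.OW

open Finset Filter Topology
open Pool.Agent.TH892.SW (HP HP_nonneg vn wt wt_nonneg)
open Pool.Agent.H442R2.EHI (evt_log_pow evt_log_ge)

/-- indicator of the primes -/
noncomputable def pri (v : ℤ) : ℝ := if v.toNat.Prime then 1 else 0

lemma pri_nonneg (v : ℤ) : 0 ≤ pri v := by unfold pri; split_ifs <;> norm_num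

/-- Markov's inequality -/
lemma mark (g : ℤ → ℝ) (hg : ∀ v, 0 ≤ g v) (e : ℕ → ℤ) (L : ℕ) (A S : ℤ) (T : Finset ℕ) (φ ρ : ℕ → ℤ)
    (hφ : ∀ K ∈ T, φ K ∈ Icc A S ∧ ρ K ∈ Icc 0 (2 * φ K))
    (hinj : ∀ K ∈ T, ∀ K' ∈ T, φ K = φ K' → ρ K = ρ K' → K = K')
    (h : ∀ K ∈ T, 1 ≤ GG g e L (φ K) (ρ K)) :
    (#T : ℝ) ≤ ∑ s ∈ Icc A S, ∑ r ∈ Icc (0 : ℤ) (2 * s), GG g e L s r := by
  classical
  rw [sum_sigma']
  calc (#T : ℝ) = ∑ _K ∈ T, (1 : ℝ) := by rw [sum_const, nsmul_eq_mul, mul_one]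
    _ ≤ ∑ K ∈ T, GG g e L (φ K) (ρ K) := sum_le_sum fun K hK => h K hK
    _ = ∑ x ∈ T.image (fun K => (⟨φ K, ρ K⟩ : (_ : ℤ) × ℤ)), GG g e L x.1 x.2 := by
        rw [sum_image]
        intro K hK K' hK' he
        simp only [Sigma.mk.injEq, heq_eq_eq] at he
        exact hinj K hK K' hK' he.1 he.2
    _ ≤ _ := by
        apply sum_le_sum_of_subset_of_nonneg
        · intro x hx
          rw [mem_image] at hx
          obtain ⟨K, hK, rfl⟩ := hx
          rw [mem_sigma]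
          exact hφ K hK
        · intro x _ _
          unfold GG
          exact sum_nonneg fun i _ => hg _

lemma GG_first (g : ℤ → ℝ) (e : ℕ → ℤ) (L : ℕ) (A S : ℤ) :
    ∑ s ∈ Icc A S, ∑ r ∈ Icc (0 : ℤ) (2 * s), GG g e L s r = ∑ i ∈ Icc 1 L, FF g e A S i := by
  unfold GG FF
  have h2 : ∀ s : ℤ, ∑ r ∈ Icc (0 : ℤ) (2 * s), ∑ i ∈ Icc 1 L, g (2 * s * i + e i - r) =
      ∑ i ∈ Icc 1 L, ∑ r ∈ Icc (0 : ℤ) (2 * s), g (2 * s * i + e i - r) := fun s => sum_comm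
  simp_rw [h2]
  exact sum_comm

lemma first_pri (e : ℕ → ℤ) (A : ℤ) (S : ℕ) (hA : 1 ≤ A) (hS : 2 ≤ S) (L : ℕ) :
    ∑ s ∈ Icc A (S : ℤ), ∑ r ∈ Icc (0 : ℤ) (2 * s), GG pri e L s r ≤ L * (S * (60 * (S / Real.log S))) := by
  rw [GG_first]
  have hSr : (2 : ℝ) ≤ S := by exact_mod_cast hS
  have hl : 0 < Real.log S := Real.log_pos (by linarith)
  have h1 : ∀ i ∈ Icc 1 L, FF pri e A S i ≤ S * (60 * (S / Real.log S)) := by
    intro i _
    apply FF_bound pri e A S hA i _ (by positivity)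
    intro s hs
    rw [mem_Icc] at hs
    have h0 := reflect_sum pri (2 * s * i + e i) s
    rw [h0]
    unfold pri
    rw [sum_boole]
    apply primes_int S hS (2 * s * i + e i - 2 * S)
    intro v hv
    rw [mem_Icc] at hv
    constructor <;> linarith [hv.1, hv.2]
  refine (sum_le_sum h1).trans ?_
  rw [sum_const, nsmul_eq_mul, Nat.card_Icc, Nat.add_sub_cancel]

lemma RS_pri (K L n : ℕ) (hn : n ∈ Ioc (Nat.sqrt K) (Nat.sqrt K + L)) (hp : (vn K n).Prime) : 1 ≤ RS pri K L := by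
  unfold RS
  have h1 : pri (|(n : ℤ) ^ 2 - K|) = 1 := by
    rw [abs_vn]; unfold pri; rw [Int.toNat_natCast, if_pos hp]
  rw [← h1]
  exact single_le_sum (f := fun n : ℕ => pri (|(n : ℤ) ^ 2 - K|)) (fun i _ => pri_nonneg _) hn

lemma LS_pri (K L n : ℕ) (hn : n ∈ Ioc (Nat.sqrt K - L) (Nat.sqrt K)) (hp : (vn K n).Prime) : 1 ≤ LS pri K L := by
  unfold LS
  have h1 : pri (|(n : ℤ) ^ 2 - K|) = 1 := by
    rw [abs_vn]; unfold pri; rw [Int.toNat_natCast, if_pos hp]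
  rw [← h1]
  exact single_le_sum (f := fun n : ℕ => pri (|(n : ℤ) ^ 2 - K|)) (fun i _ => pri_nonneg _) hn

theorem no_primes (η : ℝ) (hη : 0 < η) : ∃ c : ℝ, 0 < c ∧ ∃ X0 : ℕ, ∀ X : ℕ, X0 ≤ X → ∃ Bad : Finset ℕ, (#Bad : ℝ) ≤ η * X ∧
    ∀ K ∈ Icc 1 X, K ∉ Bad → ∀ n : ℕ, |(n : ℝ) - √(K : ℝ)| ≤ c * Real.log X → ¬ (vn K n).Prime := by
  classical
  refine ⟨η / 1200, by positivity, ?_⟩
  have hev : ∀ᶠ X : ℕ in atTop, (10000 : ℝ) ≤ Real.log X ∧ 2400 / η ≤ Real.log X ∧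
      Real.log X ^ 3 ≤ (X : ℝ) ^ (1 / 2 : ℝ) ∧ 64 * (1 + η) ^ 2 / η ≤ Real.log X := by
    filter_upwards [evt_log_ge 10000, evt_log_ge (2400 / η), evt_log_pow 3 (1 / 2) (by norm_num),
      evt_log_ge (64 * (1 + η) ^ 2 / η)] with X a1 a2 a3 a4
    exact ⟨a1, a2, a3, a4⟩
  obtain ⟨X0, hX0⟩ := eventually_atTop.1 hev
  refine ⟨X0, fun X hX => ?_⟩
  obtain ⟨hl, hlη, hlX, hl4⟩ := hX0 X hX
  obtain ⟨f1, f2, f3, f4, f5, f6, f7⟩ := S_facts X hl
  rw [← Real.sqrt_eq_rpow] at hlX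
  clear hX0 hev hX
  generalize Real.log X = l at *
  have hl0 : 0 < l := by linarith
  have hl1 : 1 ≤ l := by linarith
  have hXr : (1 : ℝ) ≤ X := by exact_mod_cast f1
  have hX0 : (0 : ℝ) < X := by linarith
  obtain ⟨L, hL⟩ : ∃ L, L = ⌊η / 1200 * l⌋₊ + 1 := ⟨_, rfl⟩
  have hLle : (L : ℝ) ≤ 2 * (η / 1200 * l) := by
    rw [hL]; push_cast
    have h1 := Nat.floor_le (show 0 ≤ η / 1200 * l by positivity)
    have h2 : 1 ≤ η / 1200 * l := by
      rw [div_le_iff₀ hη] at hlη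
      linarith
    linarith
  have hLge : η / 1200 * l < L := by
    rw [hL]; push_cast
    exact Nat.lt_floor_add_one _
  obtain ⟨S, hS⟩ : ∃ S, S = Nat.sqrt X := ⟨_, rfl⟩
  obtain ⟨TR, hTR⟩ : ∃ TR, TR = (Icc 1 X).filter (fun K => L ≤ Nat.sqrt K ∧ 1 ≤ RS pri K L) := ⟨_, rfl⟩
  obtain ⟨TL, hTL⟩ : ∃ TL, TL = (Icc 1 X).filter (fun K => L ≤ Nat.sqrt K ∧ 1 ≤ LS pri K L) := ⟨_, rfl⟩
  have hL1 : (1 : ℤ) ≤ L := by rw [hL]; push_cast; omega
  have hlogS : 0 < Real.log (Nat.sqrt X : ℝ) := by linarith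
  have hbound : (L : ℝ) * ((Nat.sqrt X : ℝ) * (60 * ((Nat.sqrt X : ℝ) / Real.log (Nat.sqrt X : ℝ)))) ≤ η / 4 * X := by
    calc (L : ℝ) * ((Nat.sqrt X : ℝ) * (60 * ((Nat.sqrt X : ℝ) / Real.log (Nat.sqrt X : ℝ))))
        = 60 * L * ((Nat.sqrt X : ℝ) ^ 2) / Real.log (Nat.sqrt X : ℝ) := by ring
      _ ≤ 60 * (2 * (η / 1200 * l)) * X / (2 / 5 * l) := by gcongr
      _ = η / 4 * X := by field_simp; norm_num
  have cR : (#TR : ℝ) ≤ η / 4 * X := by
    refine le_trans ?_ hbound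
    refine le_trans ?_ (first_pri ep L (Nat.sqrt X) hL1 (by omega) L)
    apply mark pri pri_nonneg ep L L (Nat.sqrt X : ℕ) TR (fun K => (Nat.sqrt K : ℤ)) (fun K => (K : ℤ) - (Nat.sqrt K : ℤ) ^ 2)
    · intro K hK
      rw [hTR, mem_filter, mem_Icc] at hK
      rw [mem_Icc, mem_Icc]
      have h1 := Nat.sqrt_le' K
      have h2 := Nat.lt_succ_sqrt' K
      have h3 : Nat.sqrt K ≤ Nat.sqrt X := Nat.sqrt_le_sqrt hK.1.2
      refine ⟨⟨by exact_mod_cast hK.2.1, by exact_mod_cast h3⟩, ?_, ?_⟩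
      · have : ((Nat.sqrt K : ℕ) : ℤ) ^ 2 ≤ K := by exact_mod_cast h1
        linarith
      · have : (K : ℤ) < ((Nat.sqrt K : ℤ) + 1) ^ 2 := by exact_mod_cast h2
        nlinarith
    · intro K _ K' _ h1 h2
      rw [h1] at h2
      have : (K : ℤ) = K' := by linarith
      exact_mod_cast this
    · intro K hK
      rw [hTR, mem_filter] at hK
      rw [GG_ep]
      exact hK.2.2
  have cL : (#TL : ℝ) ≤ η / 4 * X := by
    refine le_trans ?_ hbound
    refine le_trans ?_ (first_pri em L (Nat.sqrt X) hL1 (by omega) L)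
    apply mark pri pri_nonneg em L L (Nat.sqrt X : ℕ) TL (fun K => (Nat.sqrt K : ℤ))
      (fun K => 2 * (Nat.sqrt K : ℤ) - ((K : ℤ) - (Nat.sqrt K : ℤ) ^ 2))
    · intro K hK
      rw [hTL, mem_filter, mem_Icc] at hK
      rw [mem_Icc, mem_Icc]
      have h1 := Nat.sqrt_le' K
      have h2 := Nat.lt_succ_sqrt' K
      have h3 : Nat.sqrt K ≤ Nat.sqrt X := Nat.sqrt_le_sqrt hK.1.2
      refine ⟨⟨by exact_mod_cast hK.2.1, by exact_mod_cast h3⟩, ?_, ?_⟩
      · have : (K : ℤ) < ((Nat.sqrt K : ℤ) + 1) ^ 2 := by exact_mod_cast h2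
        nlinarith
      · have : ((Nat.sqrt K : ℕ) : ℤ) ^ 2 ≤ K := by exact_mod_cast h1
        linarith
    · intro K _ K' _ h1 h2
      rw [h1] at h2
      have : (K : ℤ) = K' := by linarith
      exact_mod_cast this
    · intro K hK
      rw [hTL, mem_filter] at hK
      rw [GG_em pri K L hK.2.1]
      exact hK.2.2
  have cS : (#((Icc 1 X).filter (fun K => Nat.sqrt K < L)) : ℝ) ≤ η / 4 * X := by
    have h3 : (Icc 1 X).filter (fun K => Nat.sqrt K < L) ⊆ range (L ^ 2) := by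
      intro K hK
      rw [mem_filter] at hK
      rw [mem_range]
      exact Nat.sqrt_lt'.1 hK.2
    have h4 := card_le_card h3
    rw [card_range] at h4
    have hLl : (L : ℝ) ≤ (1 + η) * l := by
      have : η * l ≤ (1 + η) * l := mul_le_mul_of_nonneg_right (by linarith) hl0.le
      have : 2 * (η / 1200 * l) ≤ η * l := by
        have : 0 < η * l := by positivity
        linarith
      linarith
    have hXl : l ^ 3 ≤ X := hlX.trans (by rw [Real.sqrt_le_left hX0.le]; nlinarith)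
    calc (#((Icc 1 X).filter (fun K => Nat.sqrt K < L)) : ℝ) ≤ (L : ℝ) ^ 2 := by exact_mod_cast h4
      _ ≤ ((1 + η) * l) ^ 2 := pow_le_pow_left₀ (Nat.cast_nonneg _) hLl 2
      _ = (1 + η) ^ 2 * l ^ 2 := by ring
      _ ≤ (η * l / 64) * l ^ 2 := by
          apply mul_le_mul_of_nonneg_right _ (by positivity)
          rw [div_le_iff₀ hη] at hl4
          linarith
      _ = η / 64 * l ^ 3 := by ring
      _ ≤ η / 4 * X := by
          apply mul_le_mul (by linarith) hXl (by positivity) (by positivity)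
  refine ⟨TR ∪ TL ∪ (Icc 1 X).filter (fun K => Nat.sqrt K < L), ?_, ?_⟩
  · have h3 := card_union_le (TR ∪ TL) ((Icc 1 X).filter (fun K => Nat.sqrt K < L))
    have h4 := card_union_le TR TL
    have h5 : (#(TR ∪ TL ∪ (Icc 1 X).filter (fun K => Nat.sqrt K < L)) : ℝ) ≤
        #TR + #TL + #((Icc 1 X).filter (fun K => Nat.sqrt K < L)) := by exact_mod_cast (h3.trans (Nat.add_le_add_right h4 _))
    have h6 : 0 < η * X := by positivity
    linarith
  · intro K hK hKB n hn hp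
    rw [mem_union, mem_union, not_or, not_or] at hKB
    obtain ⟨⟨k1, k2⟩, k3⟩ := hKB
    have hLK : L ≤ Nat.sqrt K := by
      by_contra hc
      push Not at hc
      exact k3 (mem_filter.2 ⟨hK, hc⟩)
    have hsK : (Nat.sqrt K : ℝ) ≤ √(K : ℝ) := by
      apply Real.le_sqrt_of_sq_le
      exact_mod_cast Nat.sqrt_le' K
    have hsK2 : √(K : ℝ) < Nat.sqrt K + 1 := by
      rw [Real.sqrt_lt' (by positivity)]
      exact_mod_cast Nat.lt_succ_sqrt' K
    have hn' := abs_le.1 hn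
    rcases Nat.lt_or_ge (Nat.sqrt K) n with h1 | h1
    · apply k1
      rw [hTR, mem_filter]
      refine ⟨hK, hLK, RS_pri K L n ?_ hp⟩
      rw [mem_Ioc]
      refine ⟨h1, ?_⟩
      have h2 : (n : ℝ) < Nat.sqrt K + L + 1 := by linarith [hn'.2]
      have h3 : n < Nat.sqrt K + L + 1 := by exact_mod_cast h2
      omega
    · apply k2
      rw [hTL, mem_filter]
      refine ⟨hK, hLK, LS_pri K L n ?_ hp⟩
      rw [mem_Ioc]
      refine ⟨?_, h1⟩
      have h2 : (Nat.sqrt K : ℝ) < n + L := by linarith [hn'.1]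
      have h3 : Nat.sqrt K < n + L := by exact_mod_cast h2
      omega

end Pool.Agent.TH892.OW
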