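import Pool.Agent.TH892.SW.S5
import Pool.Agent.TH892.SW.S3

/-!
The sieve model on intervals of an arithmetic progression.
-/

set_option autoImplicit false

namespace Pool.Agent.TH892.OW

open Finset
open Pool.Agent.W41 (JJ JJ_lt JJ_le JJ_small)
open Pool.Agent.H373R2.T7 (pz Vz lamz mem_pz Vz_ge Vz_inv_le Vz_le_one)
open Pool.Agent.TH892.SW (fl_set)

lemma Vz_pos (z : ℕ) : 0 < Vz z := Pool.Agent.H373R2.T7.Vz_pos z

open Classical in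
/-- the density of the progression among the numbers free of small primes -/
noncomputable def Gz (y : ℕ) (c q : ℤ) : ℝ :=
  if ∃ p ∈ pz y, (p : ℤ) ∣ c ∧ (p : ℤ) ∣ q then 0 else
    ∏ p ∈ (pz y).filter (fun p : ℕ => (p : ℤ) ∣ q), (1 - 1 / (p : ℝ))⁻¹

lemma fac_pos {p : ℕ} (hp : p.Prime) : (0 : ℝ) < 1 - 1 / (p : ℝ) := by
  have : (2 : ℝ) ≤ p := by exact_mod_cast hp.two_le
  rw [sub_pos, div_lt_one (by linarith)]; linarith

lemma fac_inv {p : ℕ} (hp : p.Prime) : 1 ≤ (1 - 1 / (p : ℝ))⁻¹ := by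
  rw [one_le_inv₀ (fac_pos hp)]
  have : (0 : ℝ) ≤ 1 / (p : ℝ) := by positivity
  linarith

lemma prod_fac_le (y : ℕ) (T : Finset ℕ) (hT : T ⊆ pz y) :
    ∏ p ∈ T, (1 - 1 / (p : ℝ))⁻¹ ≤ (Vz y)⁻¹ := by
  unfold Vz
  rw [← prod_inv_distrib]
  apply prod_le_prod_of_subset_of_one_le hT
  · intro p hp
    exact (zero_le_one.trans (fac_inv (mem_pz.1 (hT hp)).2))
  · intro p hp _
    exact fac_inv (mem_pz.1 hp).2

lemma Gz_nonneg (y : ℕ) (c q : ℤ) : 0 ≤ Gz y c q := by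
  unfold Gz
  split_ifs
  · exact le_rfl
  · apply prod_nonneg
    intro p hp
    exact zero_le_one.trans (fac_inv (mem_pz.1 (mem_filter.1 hp).1).2)

lemma Gz_le (y : ℕ) (c q : ℤ) : Gz y c q ≤ (Vz y)⁻¹ := by
  unfold Gz
  split_ifs
  · exact (inv_pos.2 (Vz_pos y)).le
  · exact prod_fac_le y _ (filter_subset _ _)

lemma Gz_one (y : ℕ) (c : ℤ) : Gz y c 1 = 1 := by
  unfold Gz
  have h : ∀ p ∈ pz y, ¬ (p : ℤ) ∣ 1 := by
    intro p hp h1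
    have h2 : p ∣ 1 := by exact_mod_cast h1
    exact (mem_pz.1 hp).2.one_lt.ne' (Nat.dvd_one.1 h2)
  rw [if_neg]
  · rw [filter_eq_empty_iff.2 (fun p hp => h p hp), prod_empty]
  · rintro ⟨p, hp, _, h2⟩
    exact h p hp h2

lemma Gz_shift (y : ℕ) (c q a : ℤ) : Gz y (c + q * a) q = Gz y c q := by
  unfold Gz
  have : (∃ p ∈ pz y, (p : ℤ) ∣ (c + q * a) ∧ (p : ℤ) ∣ q) ↔ (∃ p ∈ pz y, (p : ℤ) ∣ c ∧ (p : ℤ) ∣ q) := by
    apply exists_congr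
    intro p
    apply and_congr_right
    intro _
    constructor
    · rintro ⟨h1, h2⟩
      exact ⟨(dvd_add_left (h2.mul_right a)).1 h1, h2⟩
    · rintro ⟨h1, h2⟩
      exact ⟨dvd_add h1 (h2.mul_right a), h2⟩
  simp only [this]

lemma root_lin (p : ℕ) (hp : p.Prime) (c q : ℤ) (hcq : ¬ ((p : ℤ) ∣ c ∧ (p : ℤ) ∣ q)) :
    ((range p).filter (fun a : ℕ => (p : ℤ) ∣ c + q * a)).card = if (p : ℤ) ∣ q then 0 else 1 := by
  haveI : Fact p.Prime := ⟨hp⟩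
  split_ifs with h
  · rw [card_eq_zero, filter_eq_empty_iff]
    intro a _ h1
    exact hcq ⟨(dvd_add_left (h.mul_right _)).1 h1, h⟩
  · rw [card_eq_one]
    have hq : (q : ZMod p) ≠ 0 := by
      rw [Ne, ZMod.intCast_zmod_eq_zero_iff_dvd]; exact h
    refine ⟨(-(c : ZMod p) * (q : ZMod p)⁻¹).val, ?_⟩
    ext a
    rw [mem_filter, mem_range, mem_singleton, ← ZMod.intCast_zmod_eq_zero_iff_dvd]
    push_cast
    constructor
    · rintro ⟨h1, h2⟩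
      have h3 : (a : ZMod p) = -(c : ZMod p) * (q : ZMod p)⁻¹ := by
        rw [eq_mul_inv_iff_mul_eq₀ hq]
        linear_combination h2
      rw [← h3, ZMod.val_cast_of_lt h1]
    · intro h1
      rw [h1]
      refine ⟨ZMod.val_lt _, ?_⟩
      rw [ZMod.natCast_zmod_val]
      field_simp
      ring

open Classical in
theorem ap_fl : ∃ C1 y0 : ℕ, 1 ≤ C1 ∧ 2 ≤ y0 ∧ ∀ b : ℕ, C1 ≤ b → ∀ y : ℕ, y0 ≤ y → ∀ X : ℕ, ∀ (c q : ℤ),
    |((((Icc 1 X).filter (fun t : ℕ => ∀ p ∈ pz y, ¬ (p : ℤ) ∣ c + q * t)).card : ℕ) : ℝ) -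
      X * (Vz y * Gz y c q)| ≤ (1 / 2 : ℝ) ^ b * (X * (Vz y * Gz y c q)) + (y : ℝ) ^ (C1 * b) := by
  obtain ⟨C0, K0, hC0, hK0, hfl⟩ := fl_set 1
  refine ⟨4 * C0 + 7, K0 + 3, by omega, by omega, fun b hb y hy X c q => ?_⟩
  have hy1 : (1 : ℝ) ≤ y := by exact_mod_cast (by omega : 1 ≤ y)
  by_cases hcq : ∃ p ∈ pz y, (p : ℤ) ∣ c ∧ (p : ℤ) ∣ q
  · have h0 : (Icc 1 X).filter (fun t : ℕ => ∀ p ∈ pz y, ¬ (p : ℤ) ∣ c + q * t) = ∅ := by
      rw [filter_eq_empty_iff]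
      intro t _ ht
      obtain ⟨p, hp, h1, h2⟩ := hcq
      exact ht p hp (dvd_add h1 (h2.mul_right _))
    have h1 : Gz y c q = 0 := by unfold Gz; rw [if_pos hcq]
    rw [h0, h1, card_empty]
    simp
  have hroot : ∀ p ∈ pz y, ((range p).filter (fun a : ℕ => (p : ℤ) ∣ c + q * a)).card = if (p : ℤ) ∣ q then 0 else 1 := by
    intro p hp
    apply root_lin p (mem_pz.1 hp).2
    intro h
    exact hcq ⟨p, hp, h⟩
  have h1 := hfl b (by omega) y (by omega) X (pz y) (fun p a => (p : ℤ) ∣ c + q * a) (by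
    intro p hp
    have h2 := hroot p hp
    have hp' := mem_pz.1 hp
    refine ⟨hp'.2, hp'.1, ?_⟩
    have h3 : ((range p).filter (fun a : ℕ => (p : ℤ) ∣ c + q * a)).card ≤ 1 := by
      rw [h2]; split_ifs <;> norm_num
    convert h3)
  have hVe : ∏ p ∈ pz y, (1 - ((((range p).filter (fun a : ℕ => (p : ℤ) ∣ c + q * a)).card : ℕ) : ℝ) / p) =
      Vz y * Gz y c q := by
    unfold Gz Vz
    rw [if_neg hcq, prod_filter, ← prod_mul_distrib]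
    apply prod_congr rfl
    intro p hp
    rw [hroot p hp]
    have hf := fac_pos (mem_pz.1 hp).2
    split_ifs
    · rw [mul_inv_cancel₀ hf.ne']; simp
    · simp
  have hmod : ∀ n p : ℕ, ((p : ℤ) ∣ c + q * ((n % p : ℕ) : ℤ)) ↔ ((p : ℤ) ∣ c + q * (n : ℤ)) := by
    intro n p
    have h3 : c + q * ((n % p : ℕ) : ℤ) ≡ c + q * (n : ℤ) [ZMOD p] := by
      apply Int.ModEq.add_left
      apply Int.ModEq.mul_left
      rw [Int.natCast_mod]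
      exact Int.mod_modEq _ _
    rw [Int.dvd_iff_emod_eq_zero, Int.dvd_iff_emod_eq_zero, h3]
  have hset : ((Icc 1 X).filter (fun t : ℕ => ∀ p ∈ pz y, ¬ (p : ℤ) ∣ c + q * t)) =
      ((Icc 1 X).filter (fun n : ℕ => ∀ p ∈ pz y, ¬ (p : ℤ) ∣ c + q * ((n % p : ℕ) : ℤ))) := by
    apply filter_congr
    intro n _
    constructor
    · intro h p hp hd
      exact h p hp ((hmod n p).1 hd)
    · intro h p hp hd
      exact h p hp ((hmod n p).2 hd)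
  rw [hset]
  have h2 : |((((Icc 1 X).filter (fun n : ℕ => ∀ p ∈ pz y, ¬ (p : ℤ) ∣ c + q * ((n % p : ℕ) : ℤ))).card : ℕ) : ℝ) - X * (Vz y * Gz y c q)| ≤
      (1 / 2 : ℝ) ^ b * (X * (Vz y * Gz y c q)) + ((JJ y : ℝ) + 2) * ((y : ℝ) ^ (2 * (C0 * b)) * (K0 * (y : ℝ) ^ (2 * (C0 * b)))) := by
    rw [← hVe]
    convert h1 using 6 <;> congr!
  refine h2.trans ?_
  have hJ : ((JJ y : ℝ) + 2) ≤ y * y := by
    have h3 : ((JJ y : ℝ) + 2) ≤ 2 * y := by exact_mod_cast JJ_small y (by omega)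
    have hy2 : (2 : ℝ) ≤ y := by exact_mod_cast (by omega : 2 ≤ y)
    nlinarith
  have hK0 : (K0 : ℝ) ≤ y := by exact_mod_cast (by omega : K0 ≤ y)
  have h3 : ((JJ y : ℝ) + 2) * ((y : ℝ) ^ (2 * (C0 * b)) * (K0 * (y : ℝ) ^ (2 * (C0 * b)))) ≤
      (y : ℝ) ^ ((4 * C0 + 7) * b) := by
    calc ((JJ y : ℝ) + 2) * ((y : ℝ) ^ (2 * (C0 * b)) * (K0 * (y : ℝ) ^ (2 * (C0 * b))))
        ≤ (y * y) * ((y : ℝ) ^ (2 * (C0 * b)) * (y * (y : ℝ) ^ (2 * (C0 * b)))) := by gcongr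
      _ = (y : ℝ) ^ (4 * (C0 * b) + 3) := by
          rw [show 4 * (C0 * b) + 3 = 2 * (C0 * b) + 2 * (C0 * b) + 1 + 1 + 1 by ring]
          simp only [pow_succ, pow_add]
          ring
      _ ≤ _ := by
          apply pow_le_pow_right₀ hy1
          have : 1 ≤ b := by omega
          nlinarith
  linarith

/-- the sieve model on the integers -/
noncomputable def lz (y : ℕ) (v : ℤ) : ℝ := if 1 ≤ v then lamz y v.toNat else 0

lemma lz_neg (y : ℕ) (v : ℤ) (hv : v ≤ 0) : lz y v = 0 := by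
  unfold lz; rw [if_neg (by omega)]

lemma lz_nonneg (y : ℕ) (v : ℤ) : 0 ≤ lz y v := by
  unfold lz
  split_ifs
  · exact Pool.Agent.H373R2.T7.lamz_nonneg y _
  · exact le_rfl

lemma lz_le (y : ℕ) (v : ℤ) : lz y v ≤ (Vz y)⁻¹ := by
  have h := (inv_pos.2 (Vz_pos y)).le
  unfold lz lamz
  split_ifs
  · exact le_rfl
  · exact h
  · exact h

open Classical in
lemma lz_eq (y : ℕ) (v : ℤ) (hv : 1 ≤ v) : lz y v = (Vz y)⁻¹ * (if ∀ p ∈ pz y, ¬ (p : ℤ) ∣ v then 1 else 0) := by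
  unfold lz lamz
  rw [if_pos hv]
  have h : (∀ p ∈ pz y, ¬ p ∣ v.toNat) ↔ (∀ p ∈ pz y, ¬ (p : ℤ) ∣ v) := by
    apply forall₂_congr
    intro p _
    rw [← Int.natCast_dvd_natCast, Int.toNat_of_nonneg (by omega)]
  simp only [h]
  split_ifs <;> simp

open Classical in
lemma lz_le' (y : ℕ) (v : ℤ) : lz y v ≤ (Vz y)⁻¹ * (if ∀ p ∈ pz y, ¬ (p : ℤ) ∣ v then 1 else 0) := by
  by_cases hv : 1 ≤ v
  · rw [lz_eq y v hv]
  · rw [lz_neg y v (by omega)]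
    apply mul_nonneg (inv_pos.2 (Vz_pos y)).le
    split_ifs <;> norm_num

lemma conv_Icc (A : Finset ℤ) (hA : ∀ x ∈ A, ∀ y ∈ A, ∀ t, x ≤ t → t ≤ y → t ∈ A) :
    ∃ x : ℤ, A = (Icc 1 #A).image (fun t : ℕ => x + (t : ℤ)) := by
  rcases A.eq_empty_or_nonempty with h | h
  · exact ⟨0, by rw [h]; simp⟩
  · have e : A = Icc (A.min' h) (A.max' h) := by
      ext t
      rw [mem_Icc]
      exact ⟨fun ht => ⟨min'_le _ _ ht, le_max' _ _ ht⟩,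
        fun ht => hA _ (min'_mem _ _) _ (max'_mem _ _) t ht.1 ht.2⟩
    have hmm : A.min' h ≤ A.max' h := min'_le _ _ (max'_mem _ _)
    generalize A.min' h = x at *
    generalize A.max' h = y at *
    refine ⟨x - 1, ?_⟩
    have hc : #A = (y + 1 - x).toNat := by rw [e, Int.card_Icc]
    rw [hc]
    conv_lhs => rw [e]
    ext t
    rw [mem_Icc, mem_image]
    constructor
    · rintro ⟨h1, h2⟩
      refine ⟨(t - x + 1).toNat, ?_, ?_⟩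
      · rw [mem_Icc]; omega
      · omega
    · rintro ⟨k, hk, rfl⟩
      rw [mem_Icc] at hk
      omega

open Classical in
lemma sum_conv (A : Finset ℤ) (y : ℕ) (c q : ℤ) (hA : ∀ x ∈ A, ∀ y ∈ A, ∀ t, x ≤ t → t ≤ y → t ∈ A) :
    ∃ x : ℤ, ∑ s ∈ A, (if ∀ p ∈ pz y, ¬ (p : ℤ) ∣ c + q * s then (1 : ℝ) else 0) =
      ((((Icc 1 #A).filter (fun t : ℕ => ∀ p ∈ pz y, ¬ (p : ℤ) ∣ (c + q * x) + q * t)).card : ℕ) : ℝ) := by
  obtain ⟨x, hx⟩ := conv_Icc A hA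
  refine ⟨x, ?_⟩
  rw [← sum_boole]
  generalize #A = n at *
  rw [hx, sum_image (fun a _ b _ h => by simpa using h)]
  refine sum_congr rfl fun t _ => ?_
  have e : c + q * (x + (t : ℤ)) = (c + q * x) + q * t := by ring
  rw [e]

/-- **the sieve model on a progression** -/
theorem lz_ap : ∃ C1 y0 : ℕ, 1 ≤ C1 ∧ 2 ≤ y0 ∧ ∀ b : ℕ, C1 ≤ b → ∀ y : ℕ, y0 ≤ y → ∀ (A : Finset ℤ),
    (∀ x ∈ A, ∀ y ∈ A, ∀ t, x ≤ t → t ≤ y → t ∈ A) → ∀ (c q : ℤ), (∀ s ∈ A, 1 ≤ c + q * s) →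
    |∑ s ∈ A, lz y (c + q * s) - #A * Gz y c q| ≤ (1 / 2 : ℝ) ^ b * (#A * Gz y c q) + (y : ℝ) ^ (C1 * b) := by
  classical
  obtain ⟨C1, y0, hC1, hy0, h⟩ := ap_fl
  refine ⟨C1 + 1, y0, by omega, hy0, fun b hb y hy A hA c q hpos => ?_⟩
  have hV := Vz_pos y
  have hy1 : (1 : ℝ) ≤ y := by exact_mod_cast (by omega : 1 ≤ y)
  have e1 : ∑ s ∈ A, lz y (c + q * s) = (Vz y)⁻¹ * ∑ s ∈ A, (if ∀ p ∈ pz y, ¬ (p : ℤ) ∣ c + q * s then (1 : ℝ) else 0) := by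
    rw [mul_sum]
    exact sum_congr rfl fun s hs => lz_eq y _ (hpos s hs)
  obtain ⟨x, hx⟩ := sum_conv A y c q hA
  rw [e1, hx]
  have h1 := h b (by omega) y hy #A (c + q * x) q
  rw [Gz_shift] at h1
  set N : ℝ := ((((Icc 1 #A).filter (fun t : ℕ => ∀ p ∈ pz y, ¬ (p : ℤ) ∣ (c + q * x) + q * t)).card : ℕ) : ℝ) with hN
  have e2 : (Vz y)⁻¹ * N - #A * Gz y c q = (Vz y)⁻¹ * (N - #A * (Vz y * Gz y c q)) := by
    have := hV.ne'
    field_simp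
  rw [e2, abs_mul, abs_of_pos (inv_pos.2 hV)]
  calc (Vz y)⁻¹ * |N - #A * (Vz y * Gz y c q)| ≤ (Vz y)⁻¹ * ((1 / 2 : ℝ) ^ b * (#A * (Vz y * Gz y c q)) + (y : ℝ) ^ (C1 * b)) :=
        mul_le_mul_of_nonneg_left h1 (inv_pos.2 hV).le
    _ = (1 / 2 : ℝ) ^ b * (#A * Gz y c q) + (Vz y)⁻¹ * (y : ℝ) ^ (C1 * b) := by
        have := hV.ne'
        field_simp
    _ ≤ (1 / 2 : ℝ) ^ b * (#A * Gz y c q) + (y : ℝ) ^ ((C1 + 1) * b) := by
        apply add_le_add_right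
        calc (Vz y)⁻¹ * (y : ℝ) ^ (C1 * b) ≤ y * (y : ℝ) ^ (C1 * b) :=
              mul_le_mul_of_nonneg_right (Vz_inv_le y (by omega)) (by positivity)
          _ = (y : ℝ) ^ (C1 * b + 1) := by ring
          _ ≤ _ := by
              apply pow_le_pow_right₀ hy1
              have : 1 ≤ b := by omega
              nlinarith

/-- upper bound without positivity -/
theorem lz_up : ∃ C1 y0 : ℕ, 1 ≤ C1 ∧ 2 ≤ y0 ∧ ∀ b : ℕ, C1 ≤ b → ∀ y : ℕ, y0 ≤ y → ∀ (A : Finset ℤ),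
    (∀ x ∈ A, ∀ y ∈ A, ∀ t, x ≤ t → t ≤ y → t ∈ A) →
    ∑ s ∈ A, lz y s ≤ 2 * #A + (y : ℝ) ^ (C1 * b) := by
  classical
  obtain ⟨C1, y0, hC1, hy0, h⟩ := ap_fl
  refine ⟨C1 + 1, y0, by omega, hy0, fun b hb y hy A hA => ?_⟩
  have hV := Vz_pos y
  have hy1 : (1 : ℝ) ≤ y := by exact_mod_cast (by omega : 1 ≤ y)
  have e1 : ∑ s ∈ A, lz y s ≤ (Vz y)⁻¹ * ∑ s ∈ A, (if ∀ p ∈ pz y, ¬ (p : ℤ) ∣ 0 + 1 * s then (1 : ℝ) else 0) := by
    rw [mul_sum]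
    refine sum_le_sum fun s hs => ?_
    have := lz_le' y s
    simpa using this
  obtain ⟨x, hx⟩ := sum_conv A y 0 1 hA
  rw [hx] at e1
  refine e1.trans ?_
  have h1 := h b (by omega) y hy #A (0 + 1 * x) 1
  rw [Gz_shift, Gz_one, mul_one] at h1
  have h2 := (abs_le.1 h1).2
  have hp : (1 / 2 : ℝ) ^ b ≤ 1 := pow_le_one₀ (by norm_num) (by norm_num)
  have hA0 : (0 : ℝ) ≤ #A := Nat.cast_nonneg _
  have h3 : ((((Icc 1 #A).filter (fun t : ℕ => ∀ p ∈ pz y, ¬ (p : ℤ) ∣ (0 + 1 * x) + 1 * t)).card : ℕ) : ℝ) ≤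
      2 * (#A * Vz y) + (y : ℝ) ^ (C1 * b) := by
    have h4 : (1 / 2 : ℝ) ^ b * (#A * Vz y) ≤ 1 * (#A * Vz y) :=
      mul_le_mul_of_nonneg_right hp (mul_nonneg hA0 hV.le)
    linarith
  calc _ ≤ (Vz y)⁻¹ * (2 * (#A * Vz y) + (y : ℝ) ^ (C1 * b)) := mul_le_mul_of_nonneg_left h3 (inv_pos.2 hV).le
    _ = 2 * #A + (Vz y)⁻¹ * (y : ℝ) ^ (C1 * b) := by
        have := hV.ne'
        field_simp
    _ ≤ 2 * #A + (y : ℝ) ^ ((C1 + 1) * b) := by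
        apply add_le_add_right
        calc (Vz y)⁻¹ * (y : ℝ) ^ (C1 * b) ≤ y * (y : ℝ) ^ (C1 * b) :=
              mul_le_mul_of_nonneg_right (Vz_inv_le y (by omega)) (by positivity)
          _ = (y : ℝ) ^ (C1 * b + 1) := by ring
          _ ≤ _ := by
              apply pow_le_pow_right₀ hy1
              have : 1 ≤ b := by omega
              nlinarith

end Pool.Agent.TH892.OW
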