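import Pool.Agent.TH892.OW.A1
import Pool.Agent.TH892.OW.B2

/-!
The second moment of the difference of two sieve models.
-/

set_option autoImplicit false

namespace Pool.Agent.TH892.OW

open Finset
open Pool.Agent.H373R2.T7 (pz Vz lamz mem_pz Vz_ge Vz_inv_le Vz_le_one)

lemma pz_mono {w z : ℕ} (h : w ≤ z) : pz w ⊆ pz z := by
  intro p hp
  rw [mem_pz] at hp ⊢
  exact ⟨hp.1.trans h, hp.2⟩

lemma Vz_anti {w z : ℕ} (h : w ≤ z) : (Vz w)⁻¹ ≤ (Vz z)⁻¹ := by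
  have h1 := prod_fac_le z (pz w) (pz_mono h)
  rw [prod_inv_distrib] at h1
  exact h1

lemma one_le_Vz_inv (w : ℕ) : 1 ≤ (Vz w)⁻¹ := by
  rw [one_le_inv₀ (Vz_pos w)]; exact Vz_le_one w

/-- the number of large prime factors -/
lemma card_pf (z w : ℕ) (q : ℤ) (hq : q ≠ 0) (k : ℕ) (hk : Nat.log 2 q.natAbs ≤ k) :
    #((pz z).filter (fun p : ℕ => w < p ∧ (p : ℤ) ∣ q)) ≤ k := by
  refine le_trans ?_ hk
  have hq' : q.natAbs ≠ 0 := Int.natAbs_ne_zero.2 hq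
  apply Nat.le_log_of_pow_le (by norm_num)
  set T := (pz z).filter (fun p : ℕ => w < p ∧ (p : ℤ) ∣ q) with hT
  have hTp : ∀ p ∈ T, p.Prime := fun p hp => (mem_pz.1 (mem_filter.1 hp).1).2
  have h1 : ∏ p ∈ T, p ∣ q.natAbs := by
    apply Finset.prod_primes_dvd
    · intro p hp; exact (hTp p hp).prime
    · intro p hp
      have := (mem_filter.1 hp).2.2
      exact Int.natCast_dvd.1 this
  calc 2 ^ #T = ∏ _p ∈ T, 2 := by rw [prod_const]
    _ ≤ ∏ p ∈ T, p := prod_le_prod' fun p hp => (hTp p hp).two_le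
    _ ≤ q.natAbs := Nat.le_of_dvd (Nat.pos_of_ne_zero hq') h1

open Classical in
lemma Gdiff (w z : ℕ) (hwz : w ≤ z) (hw : 1 ≤ w) (c q : ℤ) (hq : q ≠ 0) (k : ℕ)
    (hk : Nat.log 2 q.natAbs ≤ k) (hkw : 2 * k ≤ w) :
    |Gz z c q - Gz w c q| ≤ (Vz w)⁻¹ * (4 * k / w +
      (if ∃ p ∈ pz z, w < p ∧ (p : ℤ) ∣ c ∧ (p : ℤ) ∣ q then 1 else 0)) := by
  have hV : 0 < (Vz w)⁻¹ := inv_pos.2 (Vz_pos w)
  have hw0 : (0 : ℝ) < w := by exact_mod_cast hw
  have hk0 : (0 : ℝ) ≤ 4 * k / w := by positivity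
  by_cases h1 : ∃ p ∈ pz w, (p : ℤ) ∣ c ∧ (p : ℤ) ∣ q
  · have h2 : ∃ p ∈ pz z, (p : ℤ) ∣ c ∧ (p : ℤ) ∣ q := by
      obtain ⟨p, hp, h3⟩ := h1
      exact ⟨p, pz_mono hwz hp, h3⟩
    have e1 : Gz z c q = 0 := by unfold Gz; rw [if_pos h2]
    have e2 : Gz w c q = 0 := by unfold Gz; rw [if_pos h1]
    rw [e1, e2, sub_zero, abs_zero]
    apply mul_nonneg hV.le
    split_ifs <;> linarith
  by_cases h2 : ∃ p ∈ pz z, (p : ℤ) ∣ c ∧ (p : ℤ) ∣ q
  · have h3 : ∃ p ∈ pz z, w < p ∧ (p : ℤ) ∣ c ∧ (p : ℤ) ∣ q := by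
      obtain ⟨p, hp, h3⟩ := h2
      refine ⟨p, hp, ?_, h3⟩
      by_contra hc
      push Not at hc
      exact h1 ⟨p, mem_pz.2 ⟨hc, (mem_pz.1 hp).2⟩, h3⟩
    rw [if_pos h3]
    have e1 : Gz z c q = 0 := by unfold Gz; rw [if_pos h2]
    rw [e1, zero_sub, abs_neg, abs_of_nonneg (Gz_nonneg w c q)]
    have := Gz_le w c q
    have h4 : (Vz w)⁻¹ * 1 ≤ (Vz w)⁻¹ * (4 * k / w + 1) := mul_le_mul_of_nonneg_left (by linarith) hV.le
    linarith
  · have h3 : ¬ ∃ p ∈ pz z, w < p ∧ (p : ℤ) ∣ c ∧ (p : ℤ) ∣ q := by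
      rintro ⟨p, hp, -, h3⟩
      exact h2 ⟨p, hp, h3⟩
    rw [if_neg h3, add_zero]
    set T := (pz z).filter (fun p : ℕ => w < p ∧ (p : ℤ) ∣ q) with hT
    have e1 : Gz z c q = Gz w c q * ∏ p ∈ T, (1 - 1 / (p : ℝ))⁻¹ := by
      unfold Gz
      rw [if_neg h2, if_neg h1]
      have hd : Disjoint ((pz w).filter (fun p : ℕ => (p : ℤ) ∣ q)) T := by
        rw [disjoint_left]
        intro p hp hp2
        have h4 := (mem_pz.1 (mem_filter.1 hp).1).1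
        have h5 := (mem_filter.1 hp2).2.1
        omega
      rw [← prod_union hd]
      apply prod_congr _ fun _ _ => rfl
      ext p
      rw [mem_union, hT, mem_filter, mem_filter, mem_filter, mem_pz, mem_pz]
      constructor
      · rintro ⟨⟨h4, h5⟩, h6⟩
        rcases Nat.lt_or_ge w p with h7 | h7
        · right; exact ⟨⟨h4, h5⟩, h7, h6⟩
        · left; exact ⟨⟨h7, h5⟩, h6⟩
      · rintro (⟨⟨h4, h5⟩, h6⟩ | ⟨⟨h4, h5⟩, h6, h7⟩)
        · exact ⟨⟨h4.trans hwz, h5⟩, h6⟩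
        · exact ⟨⟨h4, h5⟩, h7⟩
    have hTk : (#T : ℝ) ≤ k := by exact_mod_cast card_pf z w q hq k hk
    have hge : 1 ≤ ∏ p ∈ T, (1 - 1 / (p : ℝ))⁻¹ := by
      calc (1 : ℝ) = ∏ _p ∈ T, (1 : ℝ) := by rw [prod_const_one]
        _ ≤ _ := by
            apply prod_le_prod (fun _ _ => zero_le_one)
            intro p hp
            exact fac_inv (mem_pz.1 (mem_filter.1 hp).1).2
    have hle : ∏ p ∈ T, (1 - 1 / (p : ℝ))⁻¹ ≤ Real.exp (2 * k / w) := by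
      calc ∏ p ∈ T, (1 - 1 / (p : ℝ))⁻¹ ≤ ∏ _p ∈ T, Real.exp (2 / w) := by
            apply prod_le_prod
            · intro p hp
              exact zero_le_one.trans (fac_inv (mem_pz.1 (mem_filter.1 hp).1).2)
            · intro p hp
              rw [mem_filter, mem_pz] at hp
              have hp2 : (2 : ℝ) ≤ p := by exact_mod_cast hp.1.2.two_le
              have hpw : (w : ℝ) ≤ p := by exact_mod_cast hp.2.1.le
              have h6 : (1 - 1 / (p : ℝ))⁻¹ ≤ 2 / p + 1 := by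
                rw [inv_le_iff_one_le_mul₀ (fac_pos hp.1.2)]
                have h7 : (2 / (p : ℝ) + 1) * (1 - 1 / p) = 1 + 1 / p - 2 / (p * p) := by
                  field_simp; ring
                rw [h7]
                have h8 : 2 / ((p : ℝ) * p) ≤ 1 / p := by
                  rw [div_le_div_iff₀ (by positivity) (by positivity)]
                  nlinarith
                linarith
              have h9 : 2 / (p : ℝ) ≤ 2 / w := div_le_div_of_nonneg_left (by norm_num) hw0 hpw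
              have h10 := Real.add_one_le_exp (2 / (w : ℝ))
              linarith
        _ = Real.exp (#T * (2 / w)) := by rw [prod_const, ← Real.exp_nat_mul]
        _ ≤ Real.exp (2 * k / w) := by
            apply Real.exp_le_exp.2
            rw [mul_div_assoc', mul_comm (#T : ℝ) 2]
            apply div_le_div_of_nonneg_right _ hw0.le
            linarith
    have hx : 2 * (k : ℝ) / w ≤ 1 := by
      rw [div_le_one hw0]; exact_mod_cast hkw
    have hx0 : 0 ≤ 2 * (k : ℝ) / w := by positivity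
    have hexp : Real.exp (2 * k / w) - 1 ≤ 2 * (2 * k / w) := by
      have h4 := Real.abs_exp_sub_one_le (x := 2 * (k : ℝ) / w) (by rw [abs_of_nonneg hx0]; exact hx)
      rw [abs_of_nonneg hx0] at h4
      exact (le_abs_self _).trans h4
    have e2 : Gz z c q - Gz w c q = Gz w c q * (∏ p ∈ T, (1 - 1 / (p : ℝ))⁻¹ - 1) := by rw [e1]; ring
    rw [e2, abs_mul, abs_of_nonneg (Gz_nonneg w c q), abs_of_nonneg (by linarith)]
    apply mul_le_mul (Gz_le w c q) _ (by linarith) hV.le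
    have e3 : 4 * (k : ℝ) / w = 2 * (2 * k / w) := by ring
    rw [e3]
    linarith

/-- the difference of the two models -/
noncomputable def fz (w z : ℕ) (v : ℤ) : ℝ := lz z v - lz w v

lemma fz_neg (w z : ℕ) (v : ℤ) (hv : v ≤ 0) : fz w z v = 0 := by
  unfold fz; rw [lz_neg z v hv, lz_neg w v hv, sub_zero]

lemma fz_abs (w z : ℕ) (hwz : w ≤ z) (v : ℤ) : |fz w z v| ≤ (Vz z)⁻¹ := by
  unfold fz
  have h1 := lz_nonneg z v
  have h2 := lz_nonneg w v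
  have h3 := lz_le z v
  have h4 := (lz_le w v).trans (Vz_anti hwz)
  rw [abs_le]; constructor <;> linarith

lemma fz_abs2 (w z : ℕ) (v : ℤ) : |fz w z v| ≤ lz z v + lz w v := by
  unfold fz
  have h1 := lz_nonneg z v
  have h2 := lz_nonneg w v
  rw [abs_le]; constructor <;> linarith

/-- multiples in an interval -/
lemma mult_count (p : ℕ) (hp : 1 ≤ p) (a s : ℤ) (hs : 0 ≤ s) :
    (((Icc (0 : ℤ) (2 * s)).filter (fun r : ℤ => (p : ℤ) ∣ a - r)).card : ℝ) ≤ (2 * (s : ℝ) + 1) / p + 1 := by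
  have h1 : ((Icc (0 : ℤ) (2 * s)).filter (fun r : ℤ => (p : ℤ) ∣ a - r)).card ≤
      ((Ioc (a - 2 * s - 1) a).filter (fun x : ℤ => (p : ℤ) ∣ x)).card := by
    apply card_le_card_of_injOn (fun r => a - r)
    · intro r hr
      rw [mem_coe, mem_filter, mem_Icc] at hr
      rw [mem_coe, mem_filter, mem_Ioc]
      exact ⟨⟨by linarith [hr.1.2], by linarith [hr.1.1]⟩, hr.2⟩
    · intro r _ r' _ h
      simp only at h
      linarith
  have hp0 : (0 : ℤ) < p := by exact_mod_cast hp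
  have h2 := Int.Ioc_filter_dvd_card (a - 2 * s - 1) a hp0
  have h3 : ((((Ioc (a - 2 * s - 1) a).filter (fun x : ℤ => (p : ℤ) ∣ x)).card : ℕ) : ℚ) ≤ (2 * (s : ℚ) + 1) / p + 1 := by
    have h4 : ((((Ioc (a - 2 * s - 1) a).filter (fun x : ℤ => (p : ℤ) ∣ x)).card : ℕ) : ℚ) =
        ((((Ioc (a - 2 * s - 1) a).filter (fun x : ℤ => (p : ℤ) ∣ x)).card : ℤ) : ℚ) := by push_cast; rfl
    rw [h4, h2]
    have hpq : (0 : ℚ) < p := by exact_mod_cast hp
    have h0 : (0 : ℚ) ≤ (2 * (s : ℚ) + 1) / p + 1 := by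
      have : (0 : ℚ) ≤ s := by exact_mod_cast hs
      positivity
    rw [Int.cast_max]
    apply max_le
    · push_cast
      have h5 := Int.floor_le ((a : ℚ) / (p : ℚ))
      have h6 := Int.lt_floor_add_one (((a : ℚ) - 2 * s - 1) / (p : ℚ))
      have h7 : (a : ℚ) / p = ((a : ℚ) - 2 * s - 1) / p + (2 * (s : ℚ) + 1) / p := by
        field_simp; ring
      push_cast at h5 h6 ⊢
      linarith
    · push_cast; exact h0
  have h5 : ((((Ioc (a - 2 * s - 1) a).filter (fun x : ℤ => (p : ℤ) ∣ x)).card : ℕ) : ℝ) ≤ (2 * (s : ℝ) + 1) / p + 1 := by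
    exact_mod_cast h3
  refine le_trans ?_ h5
  exact_mod_cast h1

lemma FF_bound (g : ℤ → ℝ) (e : ℕ → ℤ) (A : ℤ) (S : ℕ) (hA : 1 ≤ A) (i : ℕ) (c : ℝ) (hc : 0 ≤ c)
    (h : ∀ s ∈ Icc A (S : ℤ), ∑ r ∈ Icc (0 : ℤ) (2 * s), g (2 * s * i + e i - r) ≤ c) :
    FF g e A S i ≤ S * c := by
  unfold FF
  refine (sum_le_sum h).trans ?_
  rw [sum_const, Int.card_Icc, nsmul_eq_mul]
  apply mul_le_mul_of_nonneg_right _ hc
  exact_mod_cast (by omega : ((S : ℤ) + 1 - A).toNat ≤ S)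

lemma FF_mono (g g' : ℤ → ℝ) (e : ℕ → ℤ) (A S : ℤ) (i : ℕ) (h : ∀ v, g v ≤ g' v) :
    FF g e A S i ≤ FF g' e A S i := by
  unfold FF
  exact sum_le_sum fun s _ => sum_le_sum fun r _ => h _

lemma reflect_sum (g : ℤ → ℝ) (a s : ℤ) :
    ∑ r ∈ Icc (0 : ℤ) (2 * s), g (a - r) = ∑ v ∈ Icc (a - 2 * s) a, g v := by
  refine sum_nbij' (fun r => a - r) (fun v => a - v) ?_ ?_ ?_ ?_ ?_
  · intro r hr
    rw [mem_Icc] at hr ⊢
    constructor <;> linarith [hr.1, hr.2]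
  · intro r hr
    rw [mem_Icc] at hr ⊢
    constructor <;> linarith [hr.1, hr.2]
  · intro r _; simp
  · intro r _; simp
  · intro r _; rfl

theorem FF_lz : ∃ C1 y0 : ℕ, 1 ≤ C1 ∧ 2 ≤ y0 ∧ ∀ b : ℕ, C1 ≤ b → ∀ y : ℕ, y0 ≤ y →
    ∀ (e : ℕ → ℤ) (A : ℤ) (S : ℕ) (i : ℕ), 1 ≤ A → 2 ≤ S → (y : ℝ) ^ (C1 * b) ≤ S →
    FF (lz y) e A S i ≤ 7 * (S : ℝ) ^ 2 := by
  obtain ⟨C1, y0, hC1, hy0, h⟩ := lz_up
  refine ⟨C1, y0, hC1, hy0, fun b hb y hy e A S i hA hS hyS => ?_⟩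
  have hS2 : (2 : ℝ) ≤ S := by exact_mod_cast hS
  have h1 : FF (lz y) e A S i ≤ S * (7 * S) := by
    apply FF_bound _ _ _ _ hA _ _ (by positivity)
    intro s hs
    rw [mem_Icc] at hs
    rw [reflect_sum]
    refine (h b hb y hy _ (fun x hx y hy t h1 h2 => ?_)).trans ?_
    · rw [mem_Icc] at hx hy ⊢
      omega
    · have hc : (#(Icc (2 * s * ↑i + e i - 2 * s) (2 * s * ↑i + e i)) : ℝ) ≤ 2 * S + 1 := by
        rw [Int.card_Icc]
        exact_mod_cast (by omega : (2 * s * ↑i + e i + 1 - (2 * s * ↑i + e i - 2 * s)).toNat ≤ 2 * S + 1)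
      linarith
  refine h1.trans (le_of_eq ?_)
  ring

open Classical in
/-- off-diagonal terms for the difference of the models -/
theorem fz_off : ∃ C1 y0 : ℕ, 1 ≤ C1 ∧ 2 ≤ y0 ∧ ∀ b : ℕ, C1 ≤ b → ∀ w z : ℕ, y0 ≤ w → w ≤ z →
    ∀ (e : ℕ → ℤ) (A : ℤ) (S Y L k : ℕ), 1 ≤ A → 2 ≤ S → (z : ℝ) ^ (C1 * b) ≤ S → w ≤ S →
    (∀ s ∈ Icc A (S : ℤ), ∀ i ∈ Icc 1 L, 2 * s * i + e i ≤ Y) → Nat.log 2 (2 * L) ≤ k → 2 * k ≤ w →
    ∀ i ∈ Icc 1 L, ∀ j ∈ Icc 1 L, i < j → ∀ t : ℤ, e j - e i = (j - i) * t → (∀ s ∈ Icc A (S : ℤ), 0 ≤ t + 2 * s) →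
    |QQ (fz w z) (fz w z) e A S i j| ≤
      14 * (S : ℝ) ^ 2 * ((Vz w)⁻¹ * (4 * k / w) + 2 * (1 / 2) ^ b * (Vz z)⁻¹) +
      2 * Y * (Vz z)⁻¹ * (z : ℝ) ^ (C1 * b) + (Vz w)⁻¹ * ((Vz w)⁻¹ * (k * (4 * (S : ℝ) ^ 2 / w))) := by
  obtain ⟨C1, y0, hC1, hy0, h1⟩ := lz_ap
  obtain ⟨C2, y2, hC2, hy2, h2⟩ := FF_lz
  refine ⟨C1 + C2, y0 + y2, by omega, by omega, fun b hb w z hw hwz e A S Y L k hA hS hzS hwS hY hk hkw i hi j hj hij t ht hts => ?_⟩
  have hw1 : 1 ≤ w := by omega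
  have hz1 : (1 : ℝ) ≤ z := by exact_mod_cast hw1.trans hwz
  have hwr : (1 : ℝ) ≤ w := by exact_mod_cast hw1
  have hwz' : (w : ℝ) ≤ z := by exact_mod_cast hwz
  have hi' := mem_Icc.1 hi
  have hj' := mem_Icc.1 hj
  have hVw : 0 < (Vz w)⁻¹ := inv_pos.2 (Vz_pos w)
  have hVz : 0 < (Vz z)⁻¹ := inv_pos.2 (Vz_pos z)
  have hVwz := Vz_anti hwz
  have hS2 : (2 : ℝ) ≤ S := by exact_mod_cast hS
  obtain ⟨q, hq⟩ : ∃ q : ℤ, q = 2 * ((j : ℤ) - i) := ⟨_, rfl⟩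
  have hq0 : 0 < q := by rw [hq]; omega
  have hlogq : Nat.log 2 q.natAbs ≤ k := by
    refine le_trans (Nat.log_mono_right ?_) hk
    rw [hq]; omega
  obtain ⟨Z, hZ⟩ : ∃ Z, Z = (z : ℝ) ^ ((C1 + C2) * b) := ⟨_, rfl⟩
  have hZ1 : (z : ℝ) ^ (C1 * b) ≤ Z := by
    rw [hZ]; apply pow_le_pow_right₀ hz1; nlinarith
  have hZ2 : (z : ℝ) ^ (C2 * b) ≤ Z := by
    rw [hZ]; apply pow_le_pow_right₀ hz1; nlinarith
  have hZ3 : (w : ℝ) ^ (C1 * b) ≤ Z := (pow_le_pow_left₀ (by positivity) hwz' _).trans hZ1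
  have hZ4 : (w : ℝ) ^ (C2 * b) ≤ Z := (pow_le_pow_left₀ (by positivity) hwz' _).trans hZ2
  rw [← hZ] at hzS ⊢
  have hpb : (0 : ℝ) < (1 / 2) ^ b := by positivity
  -- the inner sums
  have hin : ∀ u ∈ Icc (1 : ℤ) Y, |∑ s ∈ AU e A S i u, fz w z ((u + (j - i) * t) + q * s)| ≤
      #(AU e A S i u) * ((Vz w)⁻¹ * (4 * k / w) + 2 * (1 / 2) ^ b * (Vz z)⁻¹) + 2 * Z +
      (if ∃ p ∈ pz z, w < p ∧ (p : ℤ) ∣ (u + (j - i) * t) ∧ (p : ℤ) ∣ q then (Vz w)⁻¹ * #(AU e A S i u) else 0) := by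
    intro u hu
    rw [mem_Icc] at hu
    have hcv := AU_conv e A S i hi'.1 u
    have hpos : ∀ s ∈ AU e A S i u, 1 ≤ (u + (j - i) * t) + q * s := by
      intro s hs
      unfold AU at hs
      have h3 := hts s (mem_filter.1 hs).1
      rw [hq]
      have h4 : 0 ≤ ((j : ℤ) - i) * (t + 2 * s) := mul_nonneg (by omega) h3
      nlinarith
    have hz' := h1 b (by omega) z (by omega) _ hcv (u + (j - i) * t) q hpos
    have hw' := h1 b (by omega) w (by omega) _ hcv (u + (j - i) * t) q hpos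
    have hG := Gdiff w z hwz hw1 (u + (j - i) * t) q hq0.ne' k hlogq hkw
    generalize u + ((j : ℤ) - i) * t = c at *
    have e1 : ∑ s ∈ AU e A S i u, fz w z (c + q * s) =
        (∑ s ∈ AU e A S i u, lz z (c + q * s) - #(AU e A S i u) * Gz z c q) -
        (∑ s ∈ AU e A S i u, lz w (c + q * s) - #(AU e A S i u) * Gz w c q) +
        #(AU e A S i u) * (Gz z c q - Gz w c q) := by
      unfold fz
      rw [sum_sub_distrib]
      ring
    rw [e1]
    generalize #(AU e A S i u) = n at *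
    have hn : (0 : ℝ) ≤ n := Nat.cast_nonneg _
    refine (abs_add_le _ _).trans ?_
    have h3 : |(n : ℝ) * (Gz z c q - Gz w c q)| ≤ n * ((Vz w)⁻¹ * (4 * k / w +
      (if ∃ p ∈ pz z, w < p ∧ (p : ℤ) ∣ c ∧ (p : ℤ) ∣ q then 1 else 0))) := by
      rw [abs_mul, abs_of_nonneg hn]
      exact mul_le_mul_of_nonneg_left hG hn
    have h4 : (n : ℝ) * ((Vz w)⁻¹ * (4 * k / w +
      (if ∃ p ∈ pz z, w < p ∧ (p : ℤ) ∣ c ∧ (p : ℤ) ∣ q then 1 else 0))) = n * ((Vz w)⁻¹ * (4 * k / w)) +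
      (if ∃ p ∈ pz z, w < p ∧ (p : ℤ) ∣ c ∧ (p : ℤ) ∣ q then (Vz w)⁻¹ * n else 0) := by
      split_ifs <;> ring
    rw [h4] at h3
    have h5 := abs_sub (∑ s ∈ AU e A S i u, lz z (c + q * s) - n * Gz z c q)
      (∑ s ∈ AU e A S i u, lz w (c + q * s) - n * Gz w c q)
    have h6 : (1 / 2 : ℝ) ^ b * (n * Gz z c q) ≤ (1 / 2 : ℝ) ^ b * (n * (Vz z)⁻¹) :=
      mul_le_mul_of_nonneg_left (mul_le_mul_of_nonneg_left (Gz_le z c q) hn) hpb.le
    have h7 : (1 / 2 : ℝ) ^ b * (n * Gz w c q) ≤ (1 / 2 : ℝ) ^ b * (n * (Vz z)⁻¹) :=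
      mul_le_mul_of_nonneg_left (mul_le_mul_of_nonneg_left ((Gz_le w c q).trans hVwz) hn) hpb.le
    have h8 : (n : ℝ) * ((Vz w)⁻¹ * (4 * k / w) + 2 * (1 / 2) ^ b * (Vz z)⁻¹) =
        n * ((Vz w)⁻¹ * (4 * k / w)) + (1 / 2 : ℝ) ^ b * (n * (Vz z)⁻¹) + (1 / 2 : ℝ) ^ b * (n * (Vz z)⁻¹) := by ring
    rw [h8]
    linarith
  rw [QQ_conv (fz w z) (fz w z) (fz_neg w z) Y e A S L hY i j hi t ht]
  refine (abs_sum_le_sum_abs _ _).trans ?_
  rw [← hq]
  have hstep : ∀ u ∈ Icc (1 : ℤ) Y, |fz w z u * ∑ s ∈ AU e A S i u, fz w z ((u + (j - i) * t) + q * s)| ≤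
      (|fz w z u| * #(AU e A S i u)) * ((Vz w)⁻¹ * (4 * k / w) + 2 * (1 / 2) ^ b * (Vz z)⁻¹) +
      2 * (Vz z)⁻¹ * Z + (Vz w)⁻¹ * ((Vz w)⁻¹ * ∑ p ∈ (pz z).filter (fun p : ℕ => w < p ∧ (p : ℤ) ∣ q),
        (if (p : ℤ) ∣ u then (1 : ℝ) else 0) * #(AU e A S i u)) := by
    intro u hu
    rw [abs_mul]
    have h3 := mul_le_mul_of_nonneg_left (hin u hu) (abs_nonneg (fz w z u))
    refine h3.trans ?_
    rw [mul_add, mul_add]
    have hn : (0 : ℝ) ≤ #(AU e A S i u) := Nat.cast_nonneg _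
    have h4 : |fz w z u| * (2 * Z) ≤ 2 * (Vz z)⁻¹ * Z := by
      have h5 := fz_abs w z hwz u
      have hZ0 : 0 ≤ Z := by rw [hZ]; positivity
      nlinarith
    have h5 : |fz w z u| * (if ∃ p ∈ pz z, w < p ∧ (p : ℤ) ∣ (u + (j - i) * t) ∧ (p : ℤ) ∣ q then (Vz w)⁻¹ * #(AU e A S i u) else 0) ≤
        (Vz w)⁻¹ * ((Vz w)⁻¹ * ∑ p ∈ (pz z).filter (fun p : ℕ => w < p ∧ (p : ℤ) ∣ q),
        (if (p : ℤ) ∣ u then (1 : ℝ) else 0) * #(AU e A S i u)) := by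
      split_ifs with hc
      · obtain ⟨p, hp, hwp, hpc, hpq⟩ := hc
        have hpp := (mem_pz.1 hp).2
        have hpji : (p : ℤ) ∣ (j : ℤ) - i := by
          rw [hq] at hpq
          rcases (Nat.prime_iff_prime_int.1 hpp).dvd_or_dvd hpq with h6 | h6
          · exfalso
            have h7 : p ∣ 2 := by exact_mod_cast h6
            have := Nat.le_of_dvd (by norm_num) h7
            omega
          · exact h6
        have hpu : (p : ℤ) ∣ u := (dvd_add_left (hpji.mul_right t)).1 hpc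
        have hlz : lz z u = 0 := by
          have hu1 : 1 ≤ u := (mem_Icc.1 hu).1
          rw [lz_eq z u hu1, if_neg, mul_zero]
          intro h6
          exact h6 p hp hpu
        have hfu : |fz w z u| ≤ (Vz w)⁻¹ := by
          unfold fz
          rw [hlz, zero_sub, abs_neg, abs_of_nonneg (lz_nonneg w u)]
          exact lz_le w u
        have h6 : (#(AU e A S i u) : ℝ) ≤ ∑ p ∈ (pz z).filter (fun p : ℕ => w < p ∧ (p : ℤ) ∣ q),
            (if (p : ℤ) ∣ u then (1 : ℝ) else 0) * #(AU e A S i u) := by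
          have h7 : (if (p : ℤ) ∣ u then (1 : ℝ) else 0) * #(AU e A S i u) ≤ ∑ p ∈ (pz z).filter (fun p : ℕ => w < p ∧ (p : ℤ) ∣ q),
            (if (p : ℤ) ∣ u then (1 : ℝ) else 0) * #(AU e A S i u) := by
            apply single_le_sum (f := fun p : ℕ => (if (p : ℤ) ∣ u then (1 : ℝ) else 0) * #(AU e A S i u))
            · intro p' _
              apply mul_nonneg _ hn
              split_ifs <;> norm_num
            · rw [mem_filter]; exact ⟨hp, hwp, hpq⟩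
          rwa [if_pos hpu, one_mul] at h7
        apply mul_le_mul hfu _ (by positivity) hVw.le
        exact mul_le_mul_of_nonneg_left h6 hVw.le
      · rw [mul_zero]
        apply mul_nonneg hVw.le
        apply mul_nonneg hVw.le
        apply sum_nonneg
        intro p _
        apply mul_nonneg _ hn
        split_ifs <;> norm_num
    have h6 : |fz w z u| * (#(AU e A S i u) * ((Vz w)⁻¹ * (4 * k / w) + 2 * (1 / 2) ^ b * (Vz z)⁻¹)) =
      (|fz w z u| * #(AU e A S i u)) * ((Vz w)⁻¹ * (4 * k / w) + 2 * (1 / 2) ^ b * (Vz z)⁻¹) := by ring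
    linarith
  refine (sum_le_sum hstep).trans ?_
  rw [sum_add_distrib, sum_add_distrib, ← sum_mul, sum_const, Int.card_Icc, nsmul_eq_mul]
  have hYc : (((Y : ℤ) + 1 - 1).toNat : ℝ) = Y := by
    rw [add_sub_cancel_right, Int.toNat_natCast]
  rw [hYc]
  have hE0 : 0 ≤ (Vz w)⁻¹ * (4 * k / w) + 2 * (1 / 2) ^ b * (Vz z)⁻¹ := by positivity
  -- first
  have f1 : ∑ u ∈ Icc (1 : ℤ) Y, |fz w z u| * #(AU e A S i u) ≤ 14 * (S : ℝ) ^ 2 := by
    have h3 := FF_conv (fun v => |fz w z v|) (fun v hv => by simp only [fz_neg w z v hv, abs_zero]) Y e A S L hY i hi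
    rw [← h3]
    have h4 := FF_mono (fun v => |fz w z v|) (fun v => lz z v + lz w v) e A S i (fz_abs2 w z)
    have h5 : FF (fun v => lz z v + lz w v) e A S i = FF (lz z) e A S i + FF (lz w) e A S i := by
      unfold FF
      rw [← sum_add_distrib]
      refine sum_congr rfl fun s _ => ?_
      rw [← sum_add_distrib]
    rw [h5] at h4
    have h6 := h2 b (by omega) z (by omega) e A S i hA hS (hZ2.trans hzS)
    have h7 := h2 b (by omega) w (by omega) e A S i hA hS (hZ4.trans hzS)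
    linarith
  -- the bad numbers
  have f2 : ∑ u ∈ Icc (1 : ℤ) Y, (Vz w)⁻¹ * ((Vz w)⁻¹ * ∑ p ∈ (pz z).filter (fun p : ℕ => w < p ∧ (p : ℤ) ∣ q),
        (if (p : ℤ) ∣ u then (1 : ℝ) else 0) * #(AU e A S i u)) ≤ (Vz w)⁻¹ * ((Vz w)⁻¹ * (k * (4 * (S : ℝ) ^ 2 / w))) := by
    rw [← mul_sum, ← mul_sum, sum_comm]
    apply mul_le_mul_of_nonneg_left _ hVw.le
    apply mul_le_mul_of_nonneg_left _ hVw.le
    have h3 : ∀ p ∈ (pz z).filter (fun p : ℕ => w < p ∧ (p : ℤ) ∣ q),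
        ∑ u ∈ Icc (1 : ℤ) Y, (if (p : ℤ) ∣ u then (1 : ℝ) else 0) * #(AU e A S i u) ≤ 4 * (S : ℝ) ^ 2 / w := by
      intro p hp
      rw [mem_filter, mem_pz] at hp
      have hp1 : 1 ≤ p := hp.1.2.one_le
      have hpw : (w : ℝ) ≤ p := by exact_mod_cast hp.2.1.le
      set F : ℤ → ℝ := fun v => if 1 ≤ v then (if (p : ℤ) ∣ v then (1 : ℝ) else 0) else 0 with hF
      have h4 := FF_conv F (fun v hv => by rw [hF]; simp only; rw [if_neg (by omega)]) Y e A S L hY i hi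
      have h5 : ∑ u ∈ Icc (1 : ℤ) Y, (if (p : ℤ) ∣ u then (1 : ℝ) else 0) * #(AU e A S i u) = FF F e A S i := by
        rw [h4]
        refine sum_congr rfl fun u hu => ?_
        rw [hF]
        simp only
        rw [if_pos (mem_Icc.1 hu).1]
      rw [h5]
      have h6 : FF F e A S i ≤ S * (4 * S / w) := by
        apply FF_bound _ _ _ _ hA _ _ (by positivity)
        intro s hs
        rw [mem_Icc] at hs
        calc ∑ r ∈ Icc (0 : ℤ) (2 * s), F (2 * s * ↑i + e i - r) ≤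
            ∑ r ∈ Icc (0 : ℤ) (2 * s), (if (p : ℤ) ∣ (2 * s * ↑i + e i) - r then (1 : ℝ) else 0) := by
              refine sum_le_sum fun r _ => ?_
              rw [hF]
              simp only
              split_ifs <;> norm_num
          _ ≤ (2 * (s : ℝ) + 1) / p + 1 := by
              rw [sum_boole]
              exact mult_count p hp1 _ s (by omega)
          _ ≤ 4 * S / w := by
              have hsS : (s : ℝ) ≤ S := by exact_mod_cast hs.2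
              have hwS' : (w : ℝ) ≤ S := by exact_mod_cast hwS
              have h7 : (2 * (s : ℝ) + 1) / p ≤ (2 * S + 1) / w := by
                have hs0 : (0 : ℝ) ≤ s := by exact_mod_cast (by omega : 0 ≤ s)
                apply div_le_div₀ (by linarith) (by linarith) (by linarith) hpw
              have h8 : (2 * (S : ℝ) + 1) / w + 1 ≤ 4 * S / w := by
                rw [← sub_nonneg]
                have e3 : 4 * (S : ℝ) / w - ((2 * S + 1) / w + 1) = (2 * S - 1 - w) / w := by field_simp; ring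
                rw [e3]
                apply div_nonneg _ (by linarith)
                linarith
              linarith
      refine h6.trans (le_of_eq ?_)
      ring
    refine (sum_le_sum h3).trans ?_
    rw [sum_const, nsmul_eq_mul]
    apply mul_le_mul_of_nonneg_right _ (by positivity)
    exact_mod_cast card_pf z w q hq0.ne' k hlogq
  have f3 := mul_le_mul_of_nonneg_right f1 hE0
  have e3 : (Y : ℝ) * (2 * (Vz z)⁻¹ * Z) = 2 * Y * (Vz z)⁻¹ * Z := by ring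
  rw [e3]
  linarith

/-- the diagonal -/
theorem fz_diag : ∃ C1 y0 : ℕ, 1 ≤ C1 ∧ 2 ≤ y0 ∧ ∀ b : ℕ, C1 ≤ b → ∀ w z : ℕ, y0 ≤ w → w ≤ z →
    ∀ (e : ℕ → ℤ) (A : ℤ) (S : ℕ) (i : ℕ), 1 ≤ A → 2 ≤ S → (z : ℝ) ^ (C1 * b) ≤ S →
    QQ (fz w z) (fz w z) e A S i i ≤ 14 * (S : ℝ) ^ 2 * (Vz z)⁻¹ := by
  obtain ⟨C2, y2, hC2, hy2, h2⟩ := FF_lz
  refine ⟨C2, y2, hC2, hy2, fun b hb w z hw hwz e A S i hA hS hzS => ?_⟩
  have hVz : 0 < (Vz z)⁻¹ := inv_pos.2 (Vz_pos z)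
  have hwz' : (w : ℝ) ≤ z := by exact_mod_cast hwz
  have h1 : QQ (fz w z) (fz w z) e A S i i ≤ FF (fun v => (Vz z)⁻¹ * (lz z v + lz w v)) e A S i := by
    unfold QQ FF
    refine sum_le_sum fun s _ => sum_le_sum fun r _ => ?_
    rw [← sq, ← sq_abs, sq]
    exact mul_le_mul (fz_abs w z hwz _) (fz_abs2 w z _) (abs_nonneg _) hVz.le
  have h5 : FF (fun v => (Vz z)⁻¹ * (lz z v + lz w v)) e A S i = (Vz z)⁻¹ * (FF (lz z) e A S i + FF (lz w) e A S i) := by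
    unfold FF
    rw [← sum_add_distrib, mul_sum]
    refine sum_congr rfl fun s _ => ?_
    rw [← sum_add_distrib, mul_sum]
  have h6 := h2 b hb z (by omega) e A S i hA hS hzS
  have h7 := h2 b hb w hw e A S i hA hS ((pow_le_pow_left₀ (by positivity) hwz' _).trans hzS)
  rw [h5] at h1
  have h8 : (Vz z)⁻¹ * (FF (lz z) e A S i + FF (lz w) e A S i) ≤ (Vz z)⁻¹ * (14 * (S : ℝ) ^ 2) :=
    mul_le_mul_of_nonneg_left (by linarith) hVz.le
  linarith

end Pool.Agent.TH892.OW
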