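import Pool.Agent.TH892.OW.B3
import Pool.Agent.W38.PRb
import Pool.Agent.H442R2.EHI.Core2

/-!
The second moment of the primes minus the sieve model.
-/

set_option autoImplicit false

namespace Pool.Agent.TH892.OW

open Finset Filter
open Pool.Agent.H373R2.T7 (pz Vz lamz mem_pz Vz_ge Vz_inv_le Vz_le_one Vz_inv_small)
open Pool.Agent.TH892.SW (ff ffn wt wt_le wt_nonneg wt_anti sup_ff sq_ff)
open Pool.Agent.W110.HV (ES orth)
open Pool.Agent.Helper112 (ee ls_ee_add)
open Pool.Agent.H442R2.EHI (evt_log_pow evt_log_ge)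

/-- detection of a residue class -/
lemma AP_le (g : ℤ → ℝ) (q : ℕ) (hq : 1 ≤ q) (c N : ℤ) (M0 : ℝ)
    (h : ∀ α : ℝ, ‖ES 1 N (fun n => (g n : ℂ)) α‖ ≤ M0) : |AP g q c N| ≤ M0 := by
  have hq0 : (0 : ℝ) < q := by exact_mod_cast hq
  have e1 : ((AP g q c N : ℝ) : ℂ) * q = ∑ b ∈ range q, ee (-(c * ((b : ℝ) / q))) *
      ES 1 N (fun n => (g n : ℂ)) ((b : ℝ) / q) := by
    unfold AP ES
    simp_rw [mul_sum]
    rw [sum_comm, sum_filter]
    push_cast
    rw [sum_mul]
    refine sum_congr rfl fun v _ => ?_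
    have e2 : ∀ b ∈ range q, ee (-(c * ((b : ℝ) / q))) * ((g v : ℂ) * ee (v * ((b : ℝ) / q))) =
        (g v : ℂ) * ee (((v - c : ℤ) : ℝ) * ((b : ℝ) / q)) := by
      intro b _
      have e3 : ((v - c : ℤ) : ℝ) * ((b : ℝ) / q) = -(c * ((b : ℝ) / q)) + v * ((b : ℝ) / q) := by
        push_cast; ring
      rw [e3, ls_ee_add]
      ring
    rw [sum_congr rfl e2, ← mul_sum, orth q (by omega)]
    split_ifs <;> simp
  have e2 : ‖((AP g q c N : ℝ) : ℂ) * q‖ ≤ q * M0 := by
    rw [e1]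
    refine (norm_sum_le _ _).trans ?_
    calc ∑ b ∈ range q, ‖ee (-(c * ((b : ℝ) / q))) * ES 1 N (fun n => (g n : ℂ)) ((b : ℝ) / q)‖ ≤
        ∑ _b ∈ range q, M0 := by
          refine sum_le_sum fun b _ => ?_
          rw [norm_mul]
          have h1 : ‖ee (-(c * ((b : ℝ) / q)))‖ = 1 := by
            rw [Pool.Agent.TH892.SW.ee_eq]
            exact Pool.Agent.H807R2.Dav.norm_ee _
          rw [h1, one_mul]
          exact h _
      _ = q * M0 := by rw [sum_const, card_range, nsmul_eq_mul]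
  rw [norm_mul, Complex.norm_real, Complex.norm_natCast, Real.norm_eq_abs, mul_comm] at e2
  exact le_of_mul_le_mul_left e2 hq0

lemma ff_neg (z : ℕ) (v : ℤ) (hv : v ≤ 0) : ff z v = 0 := by
  unfold ff; rw [if_neg (by omega)]

lemma AP_triv (g : ℤ → ℝ) (q : ℕ) (c N : ℤ) (G0 : ℝ) (hG : ∀ v, |g v| ≤ G0) (hN : 0 ≤ N) :
    |AP g q c N| ≤ N * G0 := by
  have hG0 : 0 ≤ G0 := (abs_nonneg _).trans (hG 0)
  unfold AP
  refine (abs_sum_le_sum_abs _ _).trans ?_
  calc ∑ v ∈ (Icc 1 N).filter (fun v => (q : ℤ) ∣ v - c), |g v| ≤ ∑ _v ∈ (Icc 1 N).filter (fun v => (q : ℤ) ∣ v - c), G0 :=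
        sum_le_sum fun v _ => hG v
    _ = #((Icc 1 N).filter (fun v => (q : ℤ) ∣ v - c)) * G0 := by rw [sum_const, nsmul_eq_mul]
    _ ≤ N * G0 := by
        apply mul_le_mul_of_nonneg_right _ hG0
        have h1 := card_filter_le (Icc 1 N) (fun v => (q : ℤ) ∣ v - c)
        rw [Int.card_Icc] at h1
        have h2 : ((#((Icc 1 N).filter (fun v => (q : ℤ) ∣ v - c)) : ℕ) : ℤ) ≤ N := by omega
        exact_mod_cast h2

/-- all progressions -/
theorem ff_AP (U : ℕ) : ∃ E1 : ℕ, ∀ E : ℕ, E1 ≤ E → ∃ X0 : ℕ, ∀ X : ℕ, X0 ≤ X →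
    (∀ v, |ff ⌊Real.log X ^ E⌋₊ v| ≤ 3 * Real.log X) ∧
    ∀ Y : ℕ, √(X : ℝ) ≤ Y → Y ≤ X → ∀ q : ℕ, 1 ≤ q → ∀ c N : ℤ, N ≤ Y →
      |AP (ff ⌊Real.log X ^ E⌋₊) q c N| ≤ Y / Real.log X ^ U := by
  obtain ⟨B0, hB0⟩ := sup_ff (U + 1)
  refine ⟨B0 + 1, fun E hE => ?_⟩
  obtain ⟨N0, hN0⟩ := hB0 (E + 1)
  obtain ⟨N1, hN1⟩ := sq_ff E
  have hev : ∀ᶠ X : ℕ in atTop, (4 : ℝ) ^ (U + E + 10) ≤ Real.log X ∧ Real.log X ^ (U + 2) ≤ (X : ℝ) ^ (1 / 4 : ℝ) := by
    filter_upwards [evt_log_ge ((4 : ℝ) ^ (U + E + 10)), evt_log_pow (U + 2) (1 / 4) (by norm_num)] with X h1 h2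
    exact ⟨h1, h2⟩
  obtain ⟨X2, hX2⟩ := eventually_atTop.1 hev
  refine ⟨max (max N1 X2) ((N0 + 1) ^ 4), fun X hX => ?_⟩
  have g1 : N1 ≤ X := le_trans (le_trans (le_max_left _ _) (le_max_left _ _)) hX
  have g2 : X2 ≤ X := le_trans (le_trans (le_max_right _ _) (le_max_left _ _)) hX
  have g3 : (N0 + 1) ^ 4 ≤ X := le_trans (le_max_right _ _) hX
  obtain ⟨hL, hLX⟩ := hX2 X g2
  have hff := hN1 X g1
  obtain ⟨z, hz⟩ : ∃ z, z = ⌊Real.log X ^ E⌋₊ := ⟨_, rfl⟩
  rw [← hz]
  obtain ⟨L, hLd⟩ : ∃ L, L = Real.log X := ⟨_, rfl⟩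
  rw [← hLd] at hL hLX hff hz ⊢
  have h4U : (1 : ℝ) ≤ 4 ^ (U + E) := one_le_pow₀ (by norm_num)
  have hL1048 : 1048576 ≤ L := by
    calc (1048576 : ℝ) = 1 * 4 ^ 10 := by norm_num
      _ ≤ 4 ^ (U + E) * 4 ^ 10 := by gcongr
      _ = 4 ^ (U + E + 10) := by rw [← pow_add]
      _ ≤ L := hL
  have hL0 : 0 < L := by linarith
  have hL1 : 1 ≤ L := by linarith
  have hLp0 : ∀ n : ℕ, 0 < L ^ n := fun n => by positivity
  have hzle : (z : ℝ) ≤ L ^ E := by rw [hz]; exact Nat.floor_le (by positivity)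
  have hLE : L ≤ L ^ E := le_self_pow₀ hL1 (by omega)
  have hzge : L ^ E - 1 ≤ z := by
    have := Nat.lt_floor_add_one (L ^ E)
    rw [← hz] at this
    linarith
  have hz1 : 1 ≤ z := by
    have : (1 : ℝ) ≤ z := by linarith
    exact_mod_cast this
  have hzB : L ^ B0 ≤ z := by
    have h1 : L ^ B0 * L ≤ L ^ E := by
      rw [← pow_succ]; exact pow_le_pow_right₀ hL1 hE
    have h2 := one_le_pow₀ hL1 (n := B0)
    have h3 : L ^ B0 + 1 ≤ L ^ B0 * L := by nlinarith
    linarith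
  obtain ⟨hffb, -⟩ := hff z hz1 hzle
  refine ⟨hffb, fun Y hY1 hY2 q hq c N hNY => ?_⟩
  have hX1 : (1 : ℝ) ≤ X := by
    have : 1 ≤ X := le_trans (Nat.one_le_pow _ _ (by omega)) g3
    exact_mod_cast this
  have hX0 : (0 : ℝ) < X := by linarith
  rcases le_or_gt N 0 with hN | hN
  · have h1 : AP (ff z) q c N = 0 := by
      unfold AP
      rw [Icc_eq_empty (by omega)]
      simp
    rw [h1, abs_zero]
    positivity
  obtain ⟨n, rfl⟩ : ∃ n : ℕ, N = n := ⟨N.toNat, by omega⟩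
  have hn1 : 1 ≤ n := by omega
  have hnY : n ≤ Y := by exact_mod_cast hNY
  have hnr : (1 : ℝ) ≤ n := by exact_mod_cast hn1
  rcases Nat.lt_or_ge (n ^ 4) X with hlt | hge
  · refine (AP_triv _ q c n _ hffb (by omega)).trans ?_
    rw [le_div_iff₀ (hLp0 U)]
    have hn4 : (n : ℝ) ≤ (X : ℝ) ^ (1 / 4 : ℝ) := by
      have h1 : ((n : ℝ) ^ 4) ^ (1 / 4 : ℝ) ≤ (X : ℝ) ^ (1 / 4 : ℝ) := by
        apply Real.rpow_le_rpow (by positivity) _ (by norm_num)
        exact_mod_cast hlt.le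
      rw [← Real.rpow_natCast, ← Real.rpow_mul (by positivity)] at h1
      norm_num at h1
      exact h1
    have h2 : 3 * L * L ^ U ≤ L ^ (U + 2) := by
      rw [pow_add, sq]
      have h5 : 3 * L ≤ L * L := by nlinarith
      have h6 := mul_le_mul_of_nonneg_left h5 (hLp0 U).le
      linarith
    have h3 : (X : ℝ) ^ (1 / 4 : ℝ) * (X : ℝ) ^ (1 / 4 : ℝ) = √(X : ℝ) := by
      rw [Real.sqrt_eq_rpow, ← Real.rpow_add hX0]; norm_num
    push_cast
    calc (n : ℝ) * (3 * L) * L ^ U = n * (3 * L * L ^ U) := by ring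
      _ ≤ (X : ℝ) ^ (1 / 4 : ℝ) * (X : ℝ) ^ (1 / 4 : ℝ) := by
          apply mul_le_mul hn4 (h2.trans hLX) (by positivity) (by positivity)
      _ = √(X : ℝ) := h3
      _ ≤ Y := hY1
  · have hN0' : N0 ≤ n := by
      have h1 := (Nat.pow_le_pow_iff_left (by norm_num : 4 ≠ 0)).1 (g3.trans hge)
      omega
    have hly1 : L / 4 ≤ Real.log n := by
      have h1 : (X : ℝ) ≤ (n : ℝ) ^ 4 := by exact_mod_cast hge
      have h2 := Real.log_le_log hX0 h1
      rw [Real.log_pow, ← hLd] at h2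
      push_cast at h2
      linarith
    have hly2 : Real.log n ≤ L := by
      rw [hLd]
      exact Real.log_le_log (by linarith) (by exact_mod_cast hnY.trans hY2)
    have hly0 : 0 < Real.log n := by linarith
    apply (AP_le _ q hq c n _ (hN0 n hN0' z ((pow_le_pow_left₀ hly0.le hly2 B0).trans hzB) ?_)).trans
    · calc (n : ℝ) / Real.log n ^ (U + 1) ≤ Y / (L / 4) ^ (U + 1) := by
            apply div_le_div₀ (Nat.cast_nonneg _) (by exact_mod_cast hnY) (by positivity)
            exact pow_le_pow_left₀ (by positivity) hly1 _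
        _ = Y / L ^ U * (4 ^ (U + 1) / L) := by
            rw [div_pow, pow_succ L]
            field_simp
        _ ≤ Y / L ^ U * 1 := by
            apply mul_le_mul_of_nonneg_left _ (by positivity)
            rw [div_le_one hL0]
            exact (pow_le_pow_right₀ (by norm_num) (by omega)).trans hL
        _ = _ := mul_one _
    · refine hzle.trans ?_
      calc L ^ E ≤ (4 * Real.log n) ^ E := pow_le_pow_left₀ hL0.le (by linarith) _
        _ = 4 ^ E * Real.log n ^ E := mul_pow _ _ _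
        _ ≤ Real.log n * Real.log n ^ E := by
            apply mul_le_mul_of_nonneg_right _ (by positivity)
            have h2 : (4 : ℝ) ^ E * 4 ^ 1 ≤ 4 ^ (U + E + 10) := by
              rw [← pow_add]
              exact pow_le_pow_right₀ (by norm_num) (by omega)
            linarith
        _ = Real.log n ^ (E + 1) := by ring

/-- primes in an interval of integers -/
lemma primes_int (S : ℕ) (hS : 2 ≤ S) (x : ℤ) (I : Finset ℤ) (hI : ∀ v ∈ I, x ≤ v ∧ v ≤ x + 2 * S) :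
    ((I.filter (fun v : ℤ => v.toNat.Prime)).card : ℝ) ≤ 60 * (S / Real.log S) := by
  have h1 := Pool.Agent.W38.PR.bt_unif (a := x.toNat) (q := 1) (N := 2 * S + 1) le_rfl (by omega)
  have h2 : (I.filter (fun v : ℤ => v.toNat.Prime)).card ≤
      ((Finset.range (2 * S + 1)).filter (fun k => (x.toNat + k * 1).Prime)).card := by
    apply card_le_card_of_injOn (fun v => v.toNat - x.toNat)
    · intro v hv
      rw [mem_coe, mem_filter] at hv
      have h3 := hI v hv.1
      have h4 := hv.2.two_le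
      rw [mem_coe, mem_filter, mem_range]
      beta_reduce
      refine ⟨by omega, ?_⟩
      have : x.toNat + (v.toNat - x.toNat) * 1 = v.toNat := by omega
      rw [this]
      exact hv.2
    · intro v hv v' hv' h
      rw [mem_coe, mem_filter] at hv hv'
      have h3 := hI v hv.1
      have h4 := hv.2.two_le
      have h3' := hI v' hv'.1
      have h4' := hv'.2.two_le
      simp only at h
      omega
  have h3 : ((I.filter (fun v : ℤ => v.toNat.Prime)).card : ℝ) ≤
      ((Finset.range (2 * S + 1)).filter (fun k => (x.toNat + k * 1).Prime)).card := by exact_mod_cast h2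
  refine h3.trans (h1.trans ?_)
  have hSr : (2 : ℝ) ≤ S := by exact_mod_cast hS
  have hl : 0 < Real.log S := Real.log_pos (by linarith)
  rw [Nat.totient_one]
  push_cast
  have h4 : Real.log S ≤ Real.log (2 * S + 1) := Real.log_le_log (by linarith) (by linarith)
  calc (20 : ℝ) * (1 / 1) * ((2 * S + 1) / Real.log (2 * S + 1)) ≤ 20 * ((3 * S) / Real.log S) := by
        rw [div_one, mul_one]
        apply mul_le_mul_of_nonneg_left _ (by norm_num)
        apply div_le_div₀ (by positivity) (by linarith) hl h4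
    _ = _ := by ring

lemma wt_sum (S T : ℕ) (hT : 2 ≤ T) (x : ℤ) (I : Finset ℤ) (hI : ∀ v ∈ I, x ≤ v ∧ v ≤ x + 2 * S) :
    ∑ v ∈ I.filter (fun v => 2 ≤ v), wt v.toNat ^ 2 ≤ 9 / 4 * T + (2 * S + 1) * (1 / Real.log T) ^ 2 := by
  have hT2 : (2 : ℝ) ≤ T := by exact_mod_cast hT
  have hl : 0 < Real.log T := Real.log_pos (by linarith)
  have h1 : ∀ v ∈ I.filter (fun v => 2 ≤ v), wt v.toNat ^ 2 ≤
      (if v ≤ T then 9 / 4 else 0) + (1 / Real.log T) ^ 2 := by
    intro v hv
    rw [mem_filter] at hv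
    split_ifs with h
    · have h2 := wt_le (show 2 ≤ v.toNat by omega)
      have h3 := pow_le_pow_left₀ (wt_nonneg _) h2 2
      have : 0 ≤ (1 / Real.log T) ^ 2 := by positivity
      norm_num at h3
      linarith
    · rw [zero_add]
      apply pow_le_pow_left₀ (wt_nonneg _)
      exact wt_anti hT (by omega)
  refine (sum_le_sum h1).trans ?_
  rw [sum_add_distrib, sum_const, nsmul_eq_mul, ← sum_filter, sum_const, nsmul_eq_mul]
  have hc : #(I.filter (fun v => 2 ≤ v)) ≤ 2 * S + 1 := by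
    refine (card_filter_le _ _).trans ?_
    have : I ⊆ Icc x (x + 2 * S) := fun v hv => mem_Icc.2 (hI v hv)
    refine (card_le_card this).trans ?_
    rw [Int.card_Icc]; omega
  have hc2 : #((I.filter (fun v => 2 ≤ v)).filter (fun v => v ≤ (T : ℤ))) ≤ T := by
    have : (I.filter (fun v => 2 ≤ v)).filter (fun v => v ≤ (T : ℤ)) ⊆ Icc 1 (T : ℤ) := by
      intro v hv
      rw [mem_filter, mem_filter] at hv
      rw [mem_Icc]; omega
    refine (card_le_card this).trans ?_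
    rw [Int.card_Icc]; omega
  have h2 : (#((I.filter (fun v => 2 ≤ v)).filter (fun v => v ≤ (T : ℤ))) : ℝ) * (9 / 4) ≤ 9 / 4 * T := by
    have : (#((I.filter (fun v => 2 ≤ v)).filter (fun v => v ≤ (T : ℤ))) : ℝ) ≤ T := by exact_mod_cast hc2
    linarith
  have h3 : (#(I.filter (fun v => 2 ≤ v)) : ℝ) * (1 / Real.log T) ^ 2 ≤ (2 * S + 1) * (1 / Real.log T) ^ 2 := by
    apply mul_le_mul_of_nonneg_right _ (by positivity)
    exact_mod_cast hc
  linarith

lemma ff_sq (z : ℕ) (v : ℤ) : ff z v ^ 2 ≤ 2 * (if v.toNat.Prime then 1 else 0) +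
    2 * (Vz z)⁻¹ ^ 2 * (if 2 ≤ v then wt v.toNat ^ 2 else 0) := by
  unfold ff
  split_ifs with h1 h2 h2
  · unfold ffn
    rw [if_pos h2]
    have h3 : (lamz z v.toNat * wt v.toNat) ^ 2 ≤ (Vz z)⁻¹ ^ 2 * wt v.toNat ^ 2 := by
      rw [mul_pow]
      apply mul_le_mul_of_nonneg_right _ (sq_nonneg _)
      apply pow_le_pow_left₀ (Pool.Agent.H373R2.T7.lamz_nonneg z _)
      unfold lamz
      split_ifs
      · exact le_rfl
      · exact (inv_pos.2 (Vz_pos z)).le
    nlinarith [sq_nonneg (1 + lamz z v.toNat * wt v.toNat)]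
  · unfold ffn
    rw [if_neg h2]
    have h3 : (lamz z v.toNat * wt v.toNat) ^ 2 ≤ (Vz z)⁻¹ ^ 2 * wt v.toNat ^ 2 := by
      rw [mul_pow]
      apply mul_le_mul_of_nonneg_right _ (sq_nonneg _)
      apply pow_le_pow_left₀ (Pool.Agent.H373R2.T7.lamz_nonneg z _)
      unfold lamz
      split_ifs
      · exact le_rfl
      · exact (inv_pos.2 (Vz_pos z)).le
    nlinarith [sq_nonneg (lamz z v.toNat * wt v.toNat)]
  · norm_num
  · norm_num

/-- the diagonal -/
theorem ff_diag : ∃ S0 : ℕ, ∀ S : ℕ, S0 ≤ S → ∀ z : ℕ, (Vz z)⁻¹ ^ 4 ≤ Real.log S → ∀ (e : ℕ → ℤ) (A : ℤ) (i : ℕ),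
    1 ≤ A → QQ (ff z) (ff z) e A S i i ≤ 200 * (S : ℝ) ^ 2 / Real.log S := by
  have hev : ∀ᶠ S : ℕ in atTop, (100000 : ℝ) ≤ Real.log S ∧ Real.log S ^ 2 ≤ (S : ℝ) ^ (1 / 4 : ℝ) := by
    filter_upwards [evt_log_ge 100000, evt_log_pow 2 (1 / 4) (by norm_num)] with X h1 h2
    exact ⟨h1, h2⟩
  obtain ⟨S0, hS0⟩ := eventually_atTop.1 hev
  refine ⟨max S0 100, fun S hS z hV e A i hA => ?_⟩
  obtain ⟨hL, hLS⟩ := hS0 S ((le_max_left _ _).trans hS)
  have hS100 : 100 ≤ S := (le_max_right _ _).trans hS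
  have hSr : (100 : ℝ) ≤ S := by exact_mod_cast hS100
  obtain ⟨l, hl⟩ : ∃ l, l = Real.log S := ⟨_, rfl⟩
  rw [← hl] at hL hLS hV ⊢
  have hl0 : 0 < l := by linarith
  set T : ℕ := Nat.sqrt S with hT
  have hT10 : 10 ≤ T := by
    rw [hT, Nat.le_sqrt']; omega
  have hTS : (T : ℝ) ^ 2 ≤ S := by rw [hT]; exact_mod_cast Nat.sqrt_le' S
  have hTr : (10 : ℝ) ≤ T := by exact_mod_cast hT10
  have hT4 : (S : ℝ) ≤ (T : ℝ) ^ 4 := by
    have h1 : (S : ℝ) ≤ ((T : ℝ) + 1) ^ 2 := by
      rw [hT]; exact_mod_cast (Nat.lt_succ_sqrt' S).le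
    have h2 : ((T : ℝ) + 1) ^ 2 ≤ (T : ℝ) ^ 4 := by
      have : (T : ℝ) + 1 ≤ (T : ℝ) ^ 2 := by nlinarith
      calc ((T : ℝ) + 1) ^ 2 ≤ ((T : ℝ) ^ 2) ^ 2 := pow_le_pow_left₀ (by positivity) this 2
        _ = _ := by ring
    exact h1.trans h2
  have hlT : l / 4 ≤ Real.log T := by
    have := Real.log_le_log (by linarith) hT4
    rw [Real.log_pow, ← hl] at this
    push_cast at this
    linarith
  have hV2 : (Vz z)⁻¹ ^ 2 ≤ √l := by
    apply Real.le_sqrt_of_sq_le
    rw [← pow_mul]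
    exact hV
  have hsl : √l * √l = l := Real.mul_self_sqrt hl0.le
  have hsl0 : 0 < √l := Real.sqrt_pos.2 hl0
  have hsl1 : 300 ≤ √l := by
    apply Real.le_sqrt_of_sq_le
    norm_num; linarith
  -- one s
  have hone : ∀ s ∈ Icc A (S : ℤ), ∑ r ∈ Icc (0 : ℤ) (2 * s), ff z (2 * s * i + e i - r) ^ 2 ≤ 200 * S / l := by
    intro s hs
    rw [mem_Icc] at hs
    have h0 := reflect_sum (fun v => ff z v ^ 2) (2 * s * i + e i) s
    rw [h0]
    set a := 2 * s * i + e i with ha
    set I := Icc (a - 2 * s) a with hI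
    have hIS : ∀ v ∈ I, a - 2 * S ≤ v ∧ v ≤ (a - 2 * S) + 2 * S := by
      intro v hv
      rw [hI, mem_Icc] at hv
      constructor <;> linarith [hv.1, hv.2]
    have h1 := primes_int S (by omega) (a - 2 * S) I hIS
    have h2 := wt_sum S T (by omega) (a - 2 * S) I hIS
    calc ∑ v ∈ I, ff z v ^ 2 ≤ ∑ v ∈ I, (2 * (if v.toNat.Prime then 1 else 0) +
          2 * (Vz z)⁻¹ ^ 2 * (if 2 ≤ v then wt v.toNat ^ 2 else 0)) := sum_le_sum fun v _ => ff_sq z v
      _ = 2 * (I.filter (fun v : ℤ => v.toNat.Prime)).card + 2 * (Vz z)⁻¹ ^ 2 *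
          ∑ v ∈ I.filter (fun v => 2 ≤ v), wt v.toNat ^ 2 := by
          rw [sum_add_distrib, ← mul_sum, ← mul_sum, sum_boole, sum_filter]
      _ ≤ 2 * (60 * (S / l)) + 2 * √l * (9 / 4 * T + (2 * S + 1) * (1 / Real.log T) ^ 2) := by
          rw [← hl] at h1
          apply add_le_add
          · linarith
          · apply mul_le_mul _ h2 (sum_nonneg fun _ _ => sq_nonneg _) (by positivity)
            linarith
      _ ≤ 200 * S / l := by
          have h3 : (1 / Real.log T) ^ 2 ≤ 16 / (l * l) := by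
            have h4 : 1 / Real.log T ≤ 4 / l := by
              rw [div_le_div_iff₀ (by linarith) hl0]; linarith
            calc (1 / Real.log T) ^ 2 ≤ (4 / l) ^ 2 := pow_le_pow_left₀ (by
                  have : 0 < Real.log T := by linarith
                  positivity) h4 2
              _ = 16 / (l * l) := by field_simp; norm_num
          have h4 : 2 * √l * ((2 * S + 1) * (1 / Real.log T) ^ 2) ≤ S / l := by
            calc 2 * √l * ((2 * S + 1) * (1 / Real.log T) ^ 2) ≤ 2 * √l * ((3 * S) * (16 / (l * l))) := by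
                  gcongr
                  linarith
              _ = S / l * (96 * √l / l) := by field_simp; ring
              _ ≤ S / l * 1 := by
                  apply mul_le_mul_of_nonneg_left _ (by positivity)
                  rw [div_le_one hl0]
                  nlinarith
              _ = _ := mul_one _
          have h5 : 2 * √l * (9 / 4 * T) ≤ S / l := by
            rw [le_div_iff₀ hl0]
            have hTl : (T : ℝ) * l ^ 2 ≤ S := by
              have hT1 : (T : ℝ) ≤ √(S : ℝ) := Real.le_sqrt_of_sq_le hTS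
              have h6 : (S : ℝ) ^ (1 / 4 : ℝ) ≤ √(S : ℝ) := by
                rw [Real.sqrt_eq_rpow]
                apply Real.rpow_le_rpow_of_exponent_le (by linarith) (by norm_num)
              calc (T : ℝ) * l ^ 2 ≤ √(S : ℝ) * √(S : ℝ) := mul_le_mul hT1 (hLS.trans h6) (by positivity) (by positivity)
                _ = S := Real.mul_self_sqrt (by linarith)
            calc 2 * √l * (9 / 4 * T) * l = T * (9 / 2 * √l) * l := by ring
              _ ≤ T * l * l := by
                  apply mul_le_mul_of_nonneg_right _ hl0.le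
                  apply mul_le_mul_of_nonneg_left _ (by linarith)
                  nlinarith
              _ = T * l ^ 2 := by ring
              _ ≤ S := hTl
          have h6 : 200 * (S : ℝ) / l = 200 * (S / l) := by ring
          have h7 : 0 ≤ (S : ℝ) / l := by positivity
          rw [h6, mul_add]
          linarith
  have h9 : QQ (ff z) (ff z) e A S i i = FF (fun v => ff z v ^ 2) e A S i := by
    unfold QQ FF
    refine sum_congr rfl fun s _ => sum_congr rfl fun r _ => ?_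
    simp only [sq]
  rw [h9]
  refine (FF_bound _ e A S hA i (200 * S / l) (by positivity) hone).trans (le_of_eq ?_)
  ring

end Pool.Agent.TH892.OW
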