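import Pool.Agent.TH892.OW.B4

/-!
The second moments with all parameters depending on `X`.
-/

set_option autoImplicit false

namespace Pool.Agent.TH892.OW

open Finset Filter
open Pool.Agent.H373R2.T7 (pz Vz lamz mem_pz Vz_ge Vz_inv_le Vz_le_one Vz_inv_small)
open Pool.Agent.TH892.SW (ff)
open Pool.Agent.H442R2.EHI (evt_log_pow evt_log_ge)

theorem Vz_log : ∃ C : ℝ, 1 ≤ C ∧ ∀ z : ℕ, 3 ≤ z → (Vz z)⁻¹ ≤ C * Real.log z ^ 2 := by
  obtain ⟨C, hC⟩ := Pool.Agent.Helper256.KM.mertens_inv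
  refine ⟨max 1 (Real.exp (2 * C)), le_max_left _ _, fun z h3 => ?_⟩
  have h4 := hC z h3
  have h5 : (Vz z)⁻¹ ≤ Real.exp (2 * ∑ p ∈ pz z, 1 / (p : ℝ)) := by
    unfold Vz
    rw [← prod_inv_distrib, mul_sum, Real.exp_sum]
    apply Finset.prod_le_prod
    · intro p hp
      have hp2 : (2 : ℝ) ≤ p := by exact_mod_cast (mem_pz.1 hp).2.two_le
      apply inv_nonneg.2
      rw [sub_nonneg, div_le_one (by linarith)]; linarith
    · intro p hp
      have hp2 : (2 : ℝ) ≤ p := by exact_mod_cast (mem_pz.1 hp).2.two_le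
      have h6 : (1 - 1 / (p : ℝ))⁻¹ ≤ 2 * (1 / p) + 1 := by
        rw [inv_le_iff_one_le_mul₀ (by rw [sub_pos, div_lt_one (by linarith)]; linarith)]
        have h7 : 0 < 1 / (p : ℝ) := by positivity
        have h8 : 1 / (p : ℝ) ≤ 1 / 2 := one_div_le_one_div_of_le (by norm_num) hp2
        nlinarith
      exact h6.trans (Real.add_one_le_exp _)
  have hz3 : (3 : ℝ) ≤ z := by exact_mod_cast h3
  have hlz : 1 ≤ Real.log z := by
    rw [← Real.log_exp 1]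
    apply Real.log_le_log (Real.exp_pos _)
    have := Real.exp_one_lt_d9
    linarith
  have h6 : ∑ p ∈ pz z, 1 / (p : ℝ) ≤ Real.log (Real.log z) + C := by
    have := (abs_le.1 h4).2
    unfold pz
    linarith
  refine h5.trans ?_
  calc Real.exp (2 * ∑ p ∈ pz z, 1 / (p : ℝ)) ≤ Real.exp (2 * (Real.log (Real.log z) + C)) :=
        Real.exp_le_exp.2 (by linarith)
    _ = Real.exp (2 * C) * Real.log z ^ 2 := by
        rw [mul_add, Real.exp_add, mul_comm]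
        congr 1
        have : 2 * Real.log (Real.log z) = ((2 : ℕ) : ℝ) * Real.log (Real.log z) := by norm_num
        rw [this, Real.exp_nat_mul, Real.exp_log (by linarith)]
    _ ≤ _ := mul_le_mul_of_nonneg_right (le_max_right _ _) (by positivity)

lemma evt_ll (k : ℕ) (s c : ℝ) (hs : 0 < s) : ∀ᶠ X : ℕ in atTop,
    c * Real.log (Real.log X) ^ k ≤ Real.log X ^ s := by
  have hlim : Tendsto (fun N : ℕ => Real.log (N : ℝ)) atTop atTop :=
    Real.tendsto_log_atTop.comp (tendsto_natCast_atTop_atTop (R := ℝ))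
  have h := (isLittleO_log_rpow_rpow_atTop (k : ℝ) hs).bound (show (0:ℝ) < 1 / (|c| + 1) by positivity)
  filter_upwards [hlim.eventually h, hlim.eventually_ge_atTop 1] with X h1 h2
  have h3 : 0 ≤ Real.log (Real.log X) := Real.log_nonneg h2
  rw [Real.rpow_natCast, Real.norm_of_nonneg (by positivity), Real.norm_of_nonneg (by positivity)] at h1
  rw [one_div, inv_mul_eq_div, le_div_iff₀ (by positivity)] at h1
  have h4 : 0 ≤ Real.log (Real.log X) ^ k := by positivity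
  have h5 : c ≤ |c| := le_abs_self c
  nlinarith

lemma evt_ll_ge (M : ℝ) : ∀ᶠ X : ℕ in atTop, M ≤ Real.log (Real.log X) := by
  have hlim : Tendsto (fun N : ℕ => Real.log (N : ℝ)) atTop atTop :=
    Real.tendsto_log_atTop.comp (tendsto_natCast_atTop_atTop (R := ℝ))
  exact (Real.tendsto_log_atTop.comp hlim).eventually_ge_atTop M

/-- the two shapes of the values near the square root -/
def IsE (e : ℕ → ℤ) : Prop := (∀ i j : ℕ, ∃ t : ℤ, e j - e i = ((j : ℤ) - i) * t ∧ -((i : ℤ) + j) ≤ t) ∧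
  ∀ i : ℕ, e i ≤ (i : ℤ) ^ 2

def ep (i : ℕ) : ℤ := (i : ℤ) ^ 2

def em (i : ℕ) : ℤ := -((i : ℤ) - 1) ^ 2

lemma isE_ep : IsE ep := by
  refine ⟨fun i j => ⟨(i : ℤ) + j, ?_, by omega⟩, fun i => le_rfl⟩
  unfold ep; ring

lemma isE_em : IsE em := by
  refine ⟨fun i j => ⟨-((i : ℤ) + j - 2), ?_, by omega⟩, fun i => ?_⟩
  · unfold em; ring
  · unfold em
    have h1 : 0 ≤ ((i : ℤ) - 1) ^ 2 := sq_nonneg _
    have h2 : 0 ≤ (i : ℤ) ^ 2 := sq_nonneg _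
    linarith

/-- basic facts on `S = ⌊√X⌋` -/
lemma S_facts (X : ℕ) (hX : 10000 ≤ Real.log X) : 1 ≤ X ∧ ((Nat.sqrt X : ℕ) : ℝ) ^ 2 ≤ X ∧ √(X : ℝ) ≤ 2 * (Nat.sqrt X : ℝ) ∧
    (Nat.sqrt X : ℝ) ≤ √(X : ℝ) ∧ 2 / 5 * Real.log X ≤ Real.log (Nat.sqrt X : ℝ) ∧ 100 ≤ Nat.sqrt X ∧
    ((Nat.sqrt X : ℕ) : ℝ) ≤ X := by
  have hX1 : 1 ≤ X := by
    rcases Nat.eq_zero_or_pos X with h | h
    · rw [h] at hX; norm_num at hX
    · exact h
  have hXr : (1 : ℝ) ≤ X := by exact_mod_cast hX1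
  have h1 : ((Nat.sqrt X : ℕ) : ℝ) ^ 2 ≤ X := by exact_mod_cast Nat.sqrt_le' X
  have h4 : (Nat.sqrt X : ℝ) ≤ √(X : ℝ) := Real.le_sqrt_of_sq_le h1
  have h5 : √(X : ℝ) ≤ Nat.sqrt X + 1 := by
    rw [Real.sqrt_le_left (by positivity)]
    exact_mod_cast (Nat.lt_succ_sqrt' X).le
  have hs1 : 1 ≤ Nat.sqrt X := by rw [Nat.le_sqrt']; omega
  have hs1r : (1 : ℝ) ≤ Nat.sqrt X := by exact_mod_cast hs1
  have h6 : √(X : ℝ) ≤ 2 * (Nat.sqrt X : ℝ) := by linarith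
  have h7 : Real.log X / 2 ≤ Real.log 2 + Real.log (Nat.sqrt X : ℝ) := by
    have h8 := Real.log_le_log (Real.sqrt_pos.2 (by linarith)) h6
    rw [Real.log_mul (by norm_num) (by linarith), Real.log_sqrt (by linarith)] at h8
    exact h8
  have h9 : Real.log 2 ≤ 1 := by
    have := Real.log_two_lt_d9; linarith
  have h10 : 2 / 5 * Real.log X ≤ Real.log (Nat.sqrt X : ℝ) := by linarith
  have h11 : 100 ≤ Nat.sqrt X := by
    have h12 : Real.log (Nat.sqrt X : ℝ) ≤ (Nat.sqrt X : ℝ) - 1 := Real.log_le_sub_one_of_pos (by linarith)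
    have h13 : (100 : ℝ) ≤ Nat.sqrt X := by linarith
    exact_mod_cast h13
  refine ⟨hX1, h1, h6, h4, h10, h11, ?_⟩
  exact_mod_cast Nat.sqrt_le_self X

/-- the upper bound for the values -/
lemma val_le (X L B : ℕ) (e : ℕ → ℤ) (he : IsE e) (l : ℝ) (hl : 1 ≤ l) (hLB : (L : ℝ) ≤ l ^ B) (hlS : l ^ B ≤ Nat.sqrt X)
    (A : ℤ) (hA : 1 ≤ A) : ∀ s ∈ Icc A ((Nat.sqrt X : ℕ) : ℤ), ∀ i ∈ Icc 1 L, 2 * s * i + e i ≤ (⌊3 * ((Nat.sqrt X : ℕ) : ℝ) * l ^ B⌋₊ : ℤ) := by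
  intro s hs i hi
  rw [mem_Icc] at hs hi
  have h1 := he.2 i
  have h2 : 2 * s * i + e i ≤ ((3 * Nat.sqrt X * L : ℕ) : ℤ) := by
    have hi2 : (i : ℤ) ≤ L := by exact_mod_cast hi.2
    have hi0 : (0 : ℤ) ≤ i := Int.natCast_nonneg i
    have hLS : (L : ℤ) ≤ Nat.sqrt X := by
      have : (L : ℝ) ≤ Nat.sqrt X := hLB.trans hlS
      exact_mod_cast this
    have hS0 : (0 : ℤ) ≤ Nat.sqrt X := Int.natCast_nonneg _
    have hL0 : (0 : ℤ) ≤ L := Int.natCast_nonneg _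
    push_cast
    have h3 : s * i ≤ (Nat.sqrt X : ℤ) * L := mul_le_mul hs.2 hi2 hi0 hS0
    have h4 : (i : ℤ) ^ 2 ≤ (Nat.sqrt X : ℤ) * L := by
      calc (i : ℤ) ^ 2 = i * i := sq _
        _ ≤ L * L := mul_le_mul hi2 hi2 hi0 hL0
        _ ≤ (Nat.sqrt X : ℤ) * L := mul_le_mul_of_nonneg_right hLS hL0
    linarith
  refine h2.trans ?_
  have h5 : 3 * Nat.sqrt X * L ≤ ⌊3 * ((Nat.sqrt X : ℕ) : ℝ) * l ^ B⌋₊ := by
    apply Nat.le_floor
    push_cast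
    exact mul_le_mul_of_nonneg_left hLB (by positivity)
  exact_mod_cast h5

/-- Chebyshev's inequality -/
lemma cheb (g : ℤ → ℝ) (e : ℕ → ℤ) (L : ℕ) (A S : ℤ) (T : Finset ℕ) (φ ρ : ℕ → ℤ)
    (hφ : ∀ K ∈ T, φ K ∈ Icc A S ∧ ρ K ∈ Icc 0 (2 * φ K))
    (hinj : ∀ K ∈ T, ∀ K' ∈ T, φ K = φ K' → ρ K = ρ K' → K = K') (τ : ℝ) (hτ : 0 ≤ τ)
    (h : ∀ K ∈ T, τ ≤ |GG g e L (φ K) (ρ K)|) :
    #T * τ ^ 2 ≤ ∑ s ∈ Icc A S, ∑ r ∈ Icc (0 : ℤ) (2 * s), GG g e L s r ^ 2 := by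
  classical
  rw [sum_sigma']
  calc (#T : ℝ) * τ ^ 2 = ∑ _K ∈ T, τ ^ 2 := by rw [sum_const, nsmul_eq_mul]
    _ ≤ ∑ K ∈ T, GG g e L (φ K) (ρ K) ^ 2 := by
        refine sum_le_sum fun K hK => ?_
        rw [← sq_abs (GG g e L (φ K) (ρ K))]
        exact pow_le_pow_left₀ hτ (h K hK) 2
    _ = ∑ x ∈ T.image (fun K => (⟨φ K, ρ K⟩ : (_ : ℤ) × ℤ)), GG g e L x.1 x.2 ^ 2 := by
        rw [sum_image]
        intro K hK K' hK' he
        simp only [Sigma.mk.injEq, heq_eq_eq] at he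
        exact hinj K hK K' hK' he.1 he.2
    _ ≤ _ := by
        apply sum_le_sum_of_subset_of_nonneg
        · intro x hx
          rw [mem_image] at hx
          obtain ⟨K, hK, rfl⟩ := hx
          rw [mem_sigma]
          exact hφ K hK
        · intro x _ _
          positivity

end Pool.Agent.TH892.OW
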