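import Pool.Agent.TH892.OW.B5a

/-!
The second moment of the primes minus the model, with all parameters depending on `X`.
-/

set_option autoImplicit false

namespace Pool.Agent.TH892.OW

open Finset Filter
open Pool.Agent.H373R2.T7 (pz Vz lamz mem_pz Vz_ge Vz_inv_le Vz_le_one Vz_inv_small)
open Pool.Agent.TH892.SW (ff)
open Pool.Agent.H442R2.EHI (evt_log_pow evt_log_ge)

theorem second_ff (B U : ℕ) : ∃ E1 : ℕ, ∀ E : ℕ, E1 ≤ E → ∃ X0 : ℕ, ∀ X : ℕ, X0 ≤ X →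
    ∀ (e : ℕ → ℤ) (A : ℤ) (L : ℕ), IsE e → 1 ≤ A → (L : ℝ) ≤ Real.log X ^ B →
    ∑ s ∈ Icc A ((Nat.sqrt X : ℕ) : ℤ), ∑ r ∈ Icc (0 : ℤ) (2 * s), GG (ff ⌊Real.log X ^ E⌋₊) e L s r ^ 2 ≤
      X * (L * (500 / Real.log X) + (L : ℝ) ^ 2 / Real.log X ^ U) := by
  obtain ⟨E1, h1⟩ := ff_AP (2 * B + U + 2)
  obtain ⟨C, hC1, hC⟩ := Vz_log
  obtain ⟨S0, hS0⟩ := ff_diag
  refine ⟨E1 + 1, fun E hE => ?_⟩
  obtain ⟨X0, h2⟩ := h1 E (by omega)
  have hev : ∀ᶠ X : ℕ in atTop, 10000 ≤ Real.log X ∧ Real.log X ^ (B + 1) ≤ (X : ℝ) ^ (1 / 4 : ℝ) ∧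
      (C * E ^ 2) ^ 4 * 4 * Real.log (Real.log X) ^ 8 ≤ Real.log X ^ (1 : ℝ) ∧ (S0 + 1) ^ 2 ≤ X := by
    filter_upwards [evt_log_ge 10000, evt_log_pow (B + 1) (1 / 4) (by norm_num),
      evt_ll 8 1 ((C * E ^ 2) ^ 4 * 4) one_pos, eventually_ge_atTop ((S0 + 1) ^ 2)] with X a1 a2 a3 a4
    exact ⟨a1, a2, a3, a4⟩
  obtain ⟨X1, hX1⟩ := eventually_atTop.1 hev
  refine ⟨max X0 X1, fun X hX e A L he hA hLB => ?_⟩
  obtain ⟨hl, hlX, hll, hXS⟩ := hX1 X ((le_max_right _ _).trans hX)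
  obtain ⟨hffb, hAP⟩ := h2 X ((le_max_left _ _).trans hX)
  obtain ⟨f1, f2, f3, f4, f5, f6, f7⟩ := S_facts X hl
  obtain ⟨z, hz⟩ : ∃ z, z = ⌊Real.log X ^ E⌋₊ := ⟨_, rfl⟩
  rw [← hz] at hffb hAP ⊢
  obtain ⟨l, hld⟩ : ∃ l, l = Real.log X := ⟨_, rfl⟩
  rw [← hld] at hl hlX hll f5 hffb hAP hz hLB ⊢
  rw [Real.rpow_one] at hll
  have hl0 : 0 < l := by linarith
  have hl1 : 1 ≤ l := by linarith
  have hlp0 : ∀ n : ℕ, 0 < l ^ n := fun n => by positivity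
  have hXr : (1 : ℝ) ≤ X := by exact_mod_cast f1
  have hX0 : (0 : ℝ) < X := by linarith
  obtain ⟨S, hS⟩ : ∃ S, S = Nat.sqrt X := ⟨_, rfl⟩
  have hvle := fun h => val_le X L B e he l hl1 hLB h A hA
  rw [← hS] at f2 f3 f4 f5 f6 f7 hvle ⊢
  have hS0' : (0 : ℝ) < S := by exact_mod_cast (by omega : 0 < S)
  have hX4 : (X : ℝ) ^ (1 / 4 : ℝ) * (X : ℝ) ^ (1 / 4 : ℝ) = √(X : ℝ) := by
    rw [Real.sqrt_eq_rpow, ← Real.rpow_add hX0]; norm_num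
  have hX41 : 1 ≤ (X : ℝ) ^ (1 / 4 : ℝ) := Real.one_le_rpow hXr (by norm_num)
  have hlB : l ^ B * 3 ≤ S := by
    have h3 : l ^ B * l ≤ (X : ℝ) ^ (1 / 4 : ℝ) := by rw [← pow_succ]; exact hlX
    have h4 : (X : ℝ) ^ (1 / 4 : ℝ) ≤ √(X : ℝ) := by nlinarith
    have h5 : l ^ B * 6 ≤ l ^ B * l := mul_le_mul_of_nonneg_left (by linarith) (hlp0 B).le
    linarith
  obtain ⟨Y, hY⟩ : ∃ Y, Y = ⌊3 * (S : ℝ) * l ^ B⌋₊ := ⟨_, rfl⟩
  have hYv := hvle (by have := hlp0 B; linarith)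
  rw [← hY] at hYv
  have hYle : (Y : ℝ) ≤ 3 * S * l ^ B := by rw [hY]; exact Nat.floor_le (by positivity)
  have hYge : √(X : ℝ) ≤ Y := by
    have h3 := Nat.lt_floor_add_one (3 * (S : ℝ) * l ^ B)
    rw [← hY] at h3
    have h4 : 3 * (S : ℝ) * 1 ≤ 3 * S * l ^ B := mul_le_mul_of_nonneg_left (one_le_pow₀ hl1) (by positivity)
    have h5 : (1 : ℝ) ≤ S := by exact_mod_cast (by omega : 1 ≤ S)
    linarith
  have hYX : Y ≤ X := by
    have h3 : (Y : ℝ) ≤ X := by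
      calc (Y : ℝ) ≤ S * (l ^ B * 3) := by linarith
        _ ≤ S * S := mul_le_mul_of_nonneg_left hlB hS0'.le
        _ = (S : ℝ) ^ 2 := by ring
        _ ≤ X := f2
    exact_mod_cast h3
  have hO : ∀ i ∈ Icc 1 L, ∀ j ∈ Icc 1 L, i < j → |QQ (ff z) (ff z) e A S i j| ≤ X / l ^ U := by
    intro i hi j hj hij
    obtain ⟨t, ht, -⟩ := he.1 i j
    have h3 := off (ff z) (ff_neg z) (3 * l) (Y / l ^ (2 * B + U + 2)) Y hffb
      (fun q hq c N hN => hAP Y hYge hYX q hq c N hN) e A S L hYv i j hi hj hij t ht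
    refine h3.trans ?_
    have h4 : (Y : ℝ) * (3 * l * (2 * (Y / l ^ (2 * B + U + 2)))) = 6 * (Y * Y) * l / l ^ (2 * B + U + 2) := by
      field_simp
      ring
    rw [h4, div_le_div_iff₀ (hlp0 _) (hlp0 _)]
    have h5 : (Y : ℝ) * Y ≤ (3 * S * l ^ B) * (3 * S * l ^ B) := mul_le_mul hYle hYle (Nat.cast_nonneg _) (by positivity)
    calc 6 * ((Y : ℝ) * Y) * l * l ^ U ≤ 6 * ((3 * S * l ^ B) * (3 * S * l ^ B)) * l * l ^ U := by gcongr
      _ = (54 * l) * ((S : ℝ) ^ 2 * (l ^ (2 * B) * l ^ U)) := by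
          rw [two_mul, pow_add]; ring
      _ ≤ (l * l) * (X * (l ^ (2 * B) * l ^ U)) := by
          apply mul_le_mul _ _ (by positivity) (by positivity)
          · nlinarith
          · exact mul_le_mul_of_nonneg_right f2 (by positivity)
      _ = X * l ^ (2 * B + U + 2) := by
          rw [pow_add, pow_add]; ring
  have hzle : (z : ℝ) ≤ l ^ E := by rw [hz]; exact Nat.floor_le (by positivity)
  have hlE : l ≤ l ^ E := le_self_pow₀ hl1 (by omega)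
  have hz3 : 3 ≤ z := by
    have h3 := Nat.lt_floor_add_one (l ^ E)
    rw [← hz] at h3
    have : (3 : ℝ) ≤ z := by linarith
    exact_mod_cast this
  have hzr : (3 : ℝ) ≤ z := by exact_mod_cast hz3
  have hVz : (Vz z)⁻¹ ≤ C * E ^ 2 * Real.log l ^ 2 := by
    refine (hC z hz3).trans ?_
    have h3 : Real.log z ≤ E * Real.log l := by
      have := Real.log_le_log (by linarith) hzle
      rwa [Real.log_pow] at this
    have h4 : 0 ≤ Real.log z := Real.log_nonneg (by linarith)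
    calc C * Real.log z ^ 2 ≤ C * (E * Real.log l) ^ 2 := by gcongr
      _ = _ := by ring
  have hV4 : (Vz z)⁻¹ ^ 4 ≤ Real.log S := by
    have h3 : (Vz z)⁻¹ ^ 4 ≤ (C * E ^ 2 * Real.log l ^ 2) ^ 4 := pow_le_pow_left₀ (inv_pos.2 (Vz_pos z)).le hVz 4
    have h4 : (C * E ^ 2 * Real.log l ^ 2) ^ 4 = (C * E ^ 2) ^ 4 * Real.log l ^ 8 := by ring
    rw [h4] at h3
    linarith
  have hSS : S0 ≤ S := by
    rw [hS, Nat.le_sqrt']
    exact le_trans (Nat.pow_le_pow_left (by omega) 2) hXS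
  have hD : ∀ i ∈ Icc 1 L, QQ (ff z) (ff z) e A S i i ≤ X * (500 / l) := by
    intro i _
    refine (hS0 S hSS z hV4 e A i hA).trans ?_
    have hlS0 : 0 < Real.log (S : ℝ) := by linarith
    rw [mul_div_assoc', div_le_div_iff₀ hlS0 hl0]
    calc 200 * (S : ℝ) ^ 2 * l ≤ 200 * X * l := by gcongr
      _ = X * 500 * (2 / 5 * l) := by ring
      _ ≤ X * 500 * Real.log S := mul_le_mul_of_nonneg_left f5 (by positivity)
  refine (second_le (ff z) e L A S (X * (500 / l)) (X / l ^ U) (by positivity) hD hO).trans (le_of_eq ?_)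
  ring

end Pool.Agent.TH892.OW
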