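import Pool.Agent.TH892.OW.B5a

/-!
The second moment of the difference of two sieve models, with all parameters depending on `X`.
-/

set_option autoImplicit false

namespace Pool.Agent.TH892.OW

open Finset Filter
open Pool.Agent.H373R2.T7 (pz Vz lamz mem_pz Vz_ge Vz_inv_le Vz_le_one Vz_inv_small)
open Pool.Agent.TH892.SW (ff)
open Pool.Agent.H442R2.EHI (evt_log_pow evt_log_ge)

/-- the parameters depending on `w` -/
lemma params_w (B u y : ℕ) (hu : 1 ≤ u) : ∃ X0 : ℕ, ∀ X : ℕ, X0 ≤ X →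
    y + 3 ≤ ⌊Real.log X ^ (1 / (u : ℝ))⌋₊ ∧ (⌊Real.log X ^ (1 / (u : ℝ))⌋₊ : ℝ) ≤ Real.log X ∧
    ∀ L : ℕ, 1 ≤ L → (L : ℝ) ≤ Real.log X ^ B → ∃ k : ℕ, 1 ≤ k ∧ Nat.log 2 (2 * L) ≤ k ∧
      2 * k ≤ ⌊Real.log X ^ (1 / (u : ℝ))⌋₊ ∧
      500 * ((k : ℝ) * (Vz ⌊Real.log X ^ (1 / (u : ℝ))⌋₊)⁻¹ ^ 2 / (⌊Real.log X ^ (1 / (u : ℝ))⌋₊ : ℝ)) ≤
        1 / Real.log (Real.log X) ^ 2 := by
  obtain ⟨C, hC, hVl⟩ := Vz_log
  have hur : (0 : ℝ) < u := by exact_mod_cast hu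
  have hCr : (0 : ℝ) < C := by linarith
  have hev : ∀ᶠ X : ℕ in atTop, (10000 : ℝ) ≤ Real.log X ∧ (1 : ℝ) ≤ Real.log (Real.log X) ∧
      (1000 * (8 * (B + 1) * C ^ 2)) * Real.log (Real.log X) ^ 7 ≤ Real.log X ^ (1 / (u : ℝ)) ∧
      ((2 * (y + 3) : ℕ) : ℝ) * Real.log (Real.log X) ^ 0 ≤ Real.log X ^ (1 / (u : ℝ)) := by
    filter_upwards [evt_log_ge 10000, evt_ll_ge 1,
      evt_ll 7 (1 / (u : ℝ)) (1000 * (8 * (B + 1) * C ^ 2)) (by positivity),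
      evt_ll 0 (1 / (u : ℝ)) ((2 * (y + 3) : ℕ) : ℝ) (by positivity)] with X a1 a3 a5 a7
    exact ⟨a1, a3, a5, a7⟩
  obtain ⟨X1, hX1⟩ := eventually_atTop.1 hev
  refine ⟨X1, fun X hX => ?_⟩
  obtain ⟨hl, hm1, hm3, hm5⟩ := hX1 X hX
  clear hev hX1 hX
  generalize Real.log X = l at *
  obtain ⟨w, hw⟩ : ∃ w, w = ⌊l ^ (1 / (u : ℝ))⌋₊ := ⟨_, rfl⟩
  rw [← hw]
  rw [pow_zero, mul_one] at hm5
  obtain ⟨m, hm⟩ : ∃ m, m = Real.log l := ⟨_, rfl⟩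
  rw [← hm] at hm1 hm3 ⊢
  have hl0 : 0 < l := by linarith
  have hl1 : 1 ≤ l := by linarith
  have hm0 : 0 < m := by linarith
  have hwle : (w : ℝ) ≤ l ^ (1 / (u : ℝ)) := by rw [hw]; exact Nat.floor_le (by positivity)
  have hwge : l ^ (1 / (u : ℝ)) ≤ 2 * w := by
    have h3 := Nat.lt_floor_add_one (l ^ (1 / (u : ℝ)))
    rw [← hw] at h3
    have h4 : (2 : ℝ) ≤ l ^ (1 / (u : ℝ)) := by
      refine le_trans ?_ hm5
      exact_mod_cast (by omega : 2 ≤ 2 * (y + 3))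
    linarith
  have hwy : y + 3 ≤ w := by
    have h3 : ((2 * (y + 3) : ℕ) : ℝ) ≤ 2 * w := hm5.trans hwge
    have h4 : 2 * (y + 3) ≤ 2 * w := by exact_mod_cast h3
    omega
  have hwr : (3 : ℝ) ≤ w := by exact_mod_cast (by omega : 3 ≤ w)
  have hlu : l ^ (1 / (u : ℝ)) ≤ l := by
    calc l ^ (1 / (u : ℝ)) ≤ l ^ (1 : ℝ) := by
          apply Real.rpow_le_rpow_of_exponent_le hl1
          rw [div_le_one hur]; exact_mod_cast hu
      _ = l := Real.rpow_one l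
  refine ⟨hwy, hwle.trans hlu, fun L hL1 hLB => ?_⟩
  have hVw : (Vz w)⁻¹ ≤ C * m ^ 2 := by
    refine (hVl w (by omega)).trans ?_
    have h3 : Real.log w ≤ m := by
      rw [hm]
      exact Real.log_le_log (by linarith) (hwle.trans hlu)
    have h4 : 0 ≤ Real.log w := Real.log_nonneg (by linarith)
    gcongr
  have hVw1 := one_le_Vz_inv w
  obtain ⟨k, hk⟩ : ∃ k, k = Nat.log 2 (2 * L) + 1 := ⟨_, rfl⟩
  have hkle : (k : ℝ) ≤ 4 * (B + 1) * m := by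
    have h3 : (Nat.log 2 (2 * L) : ℝ) ≤ Real.log (2 * L) / Real.log 2 := by
      rw [le_div_iff₀ (Real.log_pos (by norm_num)), ← Real.log_pow]
      apply Real.log_le_log (by positivity)
      exact_mod_cast Nat.pow_log_le_self 2 (by omega : 2 * L ≠ 0)
    have hLr : (1 : ℝ) ≤ L := by exact_mod_cast hL1
    have h4 : Real.log (2 * L) ≤ Real.log 2 + B * m := by
      rw [Real.log_mul (by norm_num) (by linarith)]
      have := Real.log_le_log (by linarith) hLB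
      rw [Real.log_pow, ← hm] at this
      linarith
    have h5 : (0.6 : ℝ) < Real.log 2 := by have := Real.log_two_gt_d9; linarith
    have h6 : Real.log (2 * L) / Real.log 2 ≤ 1 + 2 * (B * m) := by
      rw [div_le_iff₀ (by linarith)]
      have h7 : 0 ≤ (B : ℝ) * m := by positivity
      nlinarith
    rw [hk]
    push_cast
    have h7 : (0 : ℝ) ≤ B := Nat.cast_nonneg _
    nlinarith
  have hk1 : (1 : ℝ) ≤ k := by rw [hk]; push_cast; linarith [(Nat.cast_nonneg (Nat.log 2 (2 * L)) : (0:ℝ) ≤ _)]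
  have hkey : 500 * (k * (Vz w)⁻¹ ^ 2 / w) ≤ 1 / m ^ 2 := by
    have h3 : (k : ℝ) * (Vz w)⁻¹ ^ 2 ≤ 4 * (B + 1) * m * (C * m ^ 2) ^ 2 := by
      apply mul_le_mul hkle (pow_le_pow_left₀ (by positivity) hVw 2) (by positivity) (by positivity)
    have hw0 : (0 : ℝ) < w := by linarith
    rw [mul_div_assoc', div_le_div_iff₀ hw0 (by positivity)]
    calc 500 * ((k : ℝ) * (Vz w)⁻¹ ^ 2) * m ^ 2 ≤ 500 * (4 * (B + 1) * m * (C * m ^ 2) ^ 2) * m ^ 2 := by gcongr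
      _ = (1000 * (8 * (B + 1) * C ^ 2)) * m ^ 7 / 4 := by ring
      _ ≤ l ^ (1 / (u : ℝ)) / 4 := by linarith
      _ ≤ 1 * w := by linarith
  refine ⟨k, by omega, by omega, ?_, hkey⟩
  have h3 : (1 : ℝ) / m ^ 2 ≤ 1 := by
    rw [div_le_one (by positivity)]; exact one_le_pow₀ hm1
  have h4 : 500 * ((k : ℝ) * 1 / w) ≤ 500 * (k * (Vz w)⁻¹ ^ 2 / w) := by
    apply mul_le_mul_of_nonneg_left _ (by norm_num)
    apply div_le_div_of_nonneg_right _ (by linarith)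
    apply mul_le_mul_of_nonneg_left (one_le_pow₀ hVw1) (by linarith)
  have h5 : 500 * ((k : ℝ) / w) ≤ 1 := by
    rw [mul_one] at h4; linarith
  rw [mul_div_assoc', div_le_one (by linarith)] at h5
  have h6 : (2 : ℝ) * k ≤ w := by linarith
  exact_mod_cast h6

/-- the parameters depending on `z` -/
lemma params_z (E Ct : ℕ) (hE : 1 ≤ E) : ∃ X0 : ℕ, ∀ X : ℕ, X0 ≤ X →
    (1 : ℝ) ≤ Real.log (Real.log X) ∧ 112 * Real.log (Real.log X) ^ 2 ≤ Real.log X ∧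
    3 ≤ ⌊Real.log X ^ E⌋₊ ∧ 14 * (Vz ⌊Real.log X ^ E⌋₊)⁻¹ ≤ √(Real.log X) ∧
    ∃ b : ℕ, Ct ≤ b ∧ 1 ≤ b ∧ (1 / 2 : ℝ) ^ b ≤ 1 / Real.log X ^ 2 ∧
      (⌊Real.log X ^ E⌋₊ : ℝ) ^ (Ct * b) ≤ (X : ℝ) ^ (1 / 16 : ℝ) := by
  obtain ⟨C, hC, hVl⟩ := Vz_log
  have hCr : (0 : ℝ) < C := by linarith
  have hev : ∀ᶠ X : ℕ in atTop, (10000 : ℝ) ≤ Real.log X ∧
      (1 : ℝ) ≤ Real.log (Real.log X) ∧
      (14 * (C * E ^ 2)) * Real.log (Real.log X) ^ 2 ≤ Real.log X ^ (1 / 2 : ℝ) ∧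
      (16 * (E * (Ct * (Ct + 5)))) * Real.log (Real.log X) ^ 2 ≤ Real.log X ^ (1 : ℝ) ∧
      112 * Real.log (Real.log X) ^ 2 ≤ Real.log X ^ (1 : ℝ) := by
    filter_upwards [evt_log_ge 10000, evt_ll_ge 1,
      evt_ll 2 (1 / 2) (14 * (C * E ^ 2)) (by norm_num),
      evt_ll 2 1 (16 * (E * (Ct * (Ct + 5)))) (by norm_num),
      evt_ll 2 1 112 (by norm_num)] with X a1 a3 a4 a6 a8
    exact ⟨a1, a3, a4, a6, a8⟩
  obtain ⟨X1, hX1⟩ := eventually_atTop.1 hev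
  refine ⟨X1, fun X hX => ?_⟩
  obtain ⟨hl, hm1, hm2, hm4, hm6⟩ := hX1 X hX
  clear hev hX1 hX
  have hX0 : (0 : ℝ) < X := by
    rcases Nat.eq_zero_or_pos X with h | h
    · rw [h] at hl; norm_num at hl
    · exact_mod_cast h
  obtain ⟨l, hld⟩ : ∃ l, l = Real.log X := ⟨_, rfl⟩
  rw [← hld] at hl hm1 hm2 hm4 hm6 ⊢
  rw [Real.rpow_one] at hm4 hm6
  rw [← Real.sqrt_eq_rpow] at hm2
  obtain ⟨z, hz⟩ : ∃ z, z = ⌊l ^ E⌋₊ := ⟨_, rfl⟩
  rw [← hz]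
  obtain ⟨m, hm⟩ : ∃ m, m = Real.log l := ⟨_, rfl⟩
  rw [← hm] at hm1 hm2 hm4 hm6 ⊢
  have hl0 : 0 < l := by linarith
  have hl1 : 1 ≤ l := by linarith
  have hlp0 : ∀ n : ℕ, 0 < l ^ n := fun n => by positivity
  have hm0 : 0 < m := by linarith
  have hzle : (z : ℝ) ≤ l ^ E := by rw [hz]; exact Nat.floor_le (by positivity)
  have hlE : l ≤ l ^ E := le_self_pow₀ hl1 (by omega)
  have hz3 : 3 ≤ z := by
    have h3 := Nat.lt_floor_add_one (l ^ E)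
    rw [← hz] at h3
    have : (3 : ℝ) ≤ z := by linarith
    exact_mod_cast this
  have hzr : (3 : ℝ) ≤ z := by exact_mod_cast hz3
  have hVz : (Vz z)⁻¹ ≤ C * E ^ 2 * m ^ 2 := by
    refine (hVl z hz3).trans ?_
    have h3 : Real.log z ≤ E * m := by
      have := Real.log_le_log (by linarith) hzle
      rwa [Real.log_pow, ← hm] at this
    have h4 : 0 ≤ Real.log z := Real.log_nonneg (by linarith)
    calc C * Real.log z ^ 2 ≤ C * (E * m) ^ 2 := by gcongr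
      _ = _ := by ring
  refine ⟨hm1, hm6, hz3, by linarith, ?_⟩
  obtain ⟨b, hb⟩ : ∃ b, b = Ct + ⌈4 * m⌉₊ := ⟨_, rfl⟩
  have hb1 : (b : ℝ) ≤ (Ct + 5) * m := by
    rw [hb]; push_cast
    have h3 := Nat.ceil_lt_add_one (show 0 ≤ 4 * m by positivity)
    have h4 : (0 : ℝ) ≤ Ct := Nat.cast_nonneg _
    nlinarith
  have hb2 : 4 * m ≤ b := by
    rw [hb]; push_cast
    have := Nat.le_ceil (4 * m)
    have : (0 : ℝ) ≤ Ct := Nat.cast_nonneg _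
    linarith
  have hexpl : Real.exp m = l := by rw [hm]; exact Real.exp_log hl0
  have hpb : (1 / 2 : ℝ) ^ b ≤ 1 / l ^ 2 := by
    rw [one_div_pow]
    apply one_div_le_one_div_of_le (hlp0 _)
    have h4 : (2 : ℝ) ^ b = Real.exp (b * Real.log 2) := by
      rw [Real.exp_nat_mul, Real.exp_log (by norm_num)]
    rw [h4, ← hexpl, ← Real.exp_nat_mul]
    apply Real.exp_le_exp.2
    have h5 : (0.6 : ℝ) ≤ Real.log 2 := by have := Real.log_two_gt_d9; linarith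
    have h6 : (4 * m) * 0.6 ≤ b * Real.log 2 := mul_le_mul hb2 h5 (by norm_num) (Nat.cast_nonneg _)
    push_cast
    linarith
  have hzb : (z : ℝ) ^ (Ct * b) ≤ (X : ℝ) ^ (1 / 16 : ℝ) := by
    calc (z : ℝ) ^ (Ct * b) ≤ (l ^ E) ^ (Ct * b) := pow_le_pow_left₀ (Nat.cast_nonneg _) hzle _
      _ = Real.exp ((E * (Ct * b) : ℕ) * m) := by rw [← pow_mul, Real.exp_nat_mul, hexpl]
      _ ≤ Real.exp (l / 16) := by
          apply Real.exp_le_exp.2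
          push_cast
          calc (E : ℝ) * (Ct * b) * m ≤ E * (Ct * ((Ct + 5) * m)) * m := by gcongr
            _ = (16 * (E * (Ct * (Ct + 5)))) * m ^ 2 / 16 := by ring
            _ ≤ l / 16 := by linarith
      _ = (X : ℝ) ^ (1 / 16 : ℝ) := by
          rw [Real.rpow_def_of_pos hX0, hld]
          congr 1
          ring
  have hb3 : 1 ≤ b := by
    have : (1 : ℝ) ≤ b := by linarith
    exact_mod_cast this
  exact ⟨b, by omega, hb3, hpb, hzb⟩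

lemma t1_ar (S X k w W m : ℝ) (hw0 : 0 < w) (hk : 0 ≤ k) (hW : 1 ≤ W) (hX : 0 ≤ X) (f2 : S ^ 2 ≤ X)
    (hkey : 500 * (k * W ^ 2 / w) ≤ 1 / m ^ 2) :
    14 * S ^ 2 * (W * (4 * k / w)) + W * (W * (k * (4 * S ^ 2 / w))) ≤ X / 4 * (1 / m ^ 2) := by
  have h4 : W * (k / w) ≤ k * W ^ 2 / w := by
    rw [mul_div_assoc', div_le_div_iff₀ hw0 hw0]
    have h1 : W ≤ W ^ 2 := by nlinarith
    calc W * k * w = W * (k * w) := by ring
      _ ≤ W ^ 2 * (k * w) := mul_le_mul_of_nonneg_right h1 (by positivity)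
      _ = _ := by ring
  have h5 : 0 ≤ k * W ^ 2 / w := by positivity
  have h0 : 0 ≤ S ^ 2 := sq_nonneg S
  have e1 : 14 * S ^ 2 * (W * (4 * k / w)) + W * (W * (k * (4 * S ^ 2 / w))) =
      56 * S ^ 2 * (W * (k / w)) + 4 * S ^ 2 * (k * W ^ 2 / w) := by ring
  rw [e1]
  have h6 := mul_le_mul_of_nonneg_left h4 (show 0 ≤ 56 * S ^ 2 by positivity)
  have h7 := mul_le_mul_of_nonneg_right f2 (show 0 ≤ 60 * (k * W ^ 2 / w) by positivity)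
  have h8 : 240 * (k * W ^ 2 / w) ≤ 1 / m ^ 2 := by linarith
  have h9 := mul_le_mul_of_nonneg_left h8 (show (0 : ℝ) ≤ X / 4 by positivity)
  linarith

lemma t2_ar (S X l m Z p : ℝ) (hl : 0 < l) (hm : 0 < m) (hX : 0 ≤ X) (f2 : S ^ 2 ≤ X) (hp0 : 0 ≤ p)
    (hp : p ≤ 1 / l ^ 2) (hZ0 : 0 ≤ Z) (hZ : Z ≤ l) (hml : 112 * m ^ 2 ≤ l) :
    14 * S ^ 2 * (2 * p * Z) ≤ X / 4 * (1 / m ^ 2) := by
  have h0 : 0 ≤ S ^ 2 := sq_nonneg S
  calc 14 * S ^ 2 * (2 * p * Z) ≤ 14 * X * (2 * (1 / l ^ 2) * l) := by gcongr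
    _ = X * (28 / l) := by field_simp; ring
    _ ≤ X * (1 / (4 * m ^ 2)) := by
        apply mul_le_mul_of_nonneg_left _ hX
        rw [div_le_div_iff₀ hl (by positivity)]
        linarith
    _ = _ := by field_simp

lemma t3_ar (X l m Y Z zz : ℝ) (B : ℕ) (hX : 0 < X) (hl : 10000 ≤ l) (hm : 0 < m) (hY0 : 0 ≤ Y) (hY : Y ≤ 3 * √X * l ^ B)
    (hZ0 : 0 ≤ Z) (hZ : Z ≤ l) (hz0 : 0 ≤ zz) (hzz : zz ≤ X ^ (1 / 4 : ℝ)) (hlX : l ^ (B + 4) ≤ X ^ (1 / 4 : ℝ))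
    (hml : 112 * m ^ 2 ≤ l) : 2 * Y * Z * zz ≤ X / 4 * (1 / m ^ 2) := by
  have hX4 : X ^ (1 / 4 : ℝ) * X ^ (1 / 4 : ℝ) = √X := by
    rw [Real.sqrt_eq_rpow, ← Real.rpow_add hX]; norm_num
  have h8 : √X * √X = X := Real.mul_self_sqrt hX.le
  have hs0 : 0 ≤ √X := Real.sqrt_nonneg X
  generalize √X = s at *
  have hx0 : 0 < X ^ (1 / 4 : ℝ) := Real.rpow_pos_of_pos hX _
  generalize X ^ (1 / 4 : ℝ) = x at *
  have hlB : 0 < l ^ (B + 1) := by positivity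
  have h1 : 2 * Y * Z * zz ≤ 2 * (3 * s * l ^ B) * l * x := by gcongr
  have h2 : 2 * (3 * s * l ^ B) * l * x = s * x * (6 * l ^ (B + 1)) := by ring
  have h3 : 6 * l ^ (B + 1) ≤ x * (1 / (4 * l)) := by
    rw [mul_one_div, le_div_iff₀ (by positivity)]
    refine le_trans ?_ hlX
    have h6 : 24 ≤ l ^ 2 := by nlinarith
    have h7 : 0 < l ^ (B + 2) := by positivity
    calc 6 * l ^ (B + 1) * (4 * l) = 24 * l ^ (B + 2) := by ring
      _ ≤ l ^ 2 * l ^ (B + 2) := mul_le_mul_of_nonneg_right h6 h7.le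
      _ = _ := by ring
  have h4 : s * x * (6 * l ^ (B + 1)) ≤ s * x * (x * (1 / (4 * l))) := mul_le_mul_of_nonneg_left h3 (by positivity)
  have h5 : s * x * (x * (1 / (4 * l))) = X * (1 / (4 * l)) := by
    calc s * x * (x * (1 / (4 * l))) = s * (x * x) * (1 / (4 * l)) := by ring
      _ = _ := by rw [hX4, h8]
  have h6 : X * (1 / (4 * l)) ≤ X * (1 / (4 * m ^ 2)) := by
    apply mul_le_mul_of_nonneg_left _ hX.le
    apply one_div_le_one_div_of_le (by positivity)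
    have : 0 ≤ m ^ 2 := by positivity
    linarith
  have h7 : X * (1 / (4 * m ^ 2)) = X / 4 * (1 / m ^ 2) := by field_simp
  linarith

theorem second_fz (B E u : ℕ) (hE : 1 ≤ E) (hu : 1 ≤ u) : ∃ X0 : ℕ, ∀ X : ℕ, X0 ≤ X →
    ∀ (e : ℕ → ℤ) (A : ℤ) (L : ℕ), IsE e → Real.log X ^ B ≤ A → (L : ℝ) ≤ Real.log X ^ B → 1 ≤ L →
    ∑ s ∈ Icc A ((Nat.sqrt X : ℕ) : ℤ), ∑ r ∈ Icc (0 : ℤ) (2 * s),
      GG (fz ⌊Real.log X ^ (1 / (u : ℝ))⌋₊ ⌊Real.log X ^ E⌋₊) e L s r ^ 2 ≤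
      X * (L * √(Real.log X) + (L : ℝ) ^ 2 / Real.log (Real.log X) ^ 2) := by
  obtain ⟨C1, y1, hC1, hy1, h1⟩ := fz_off
  obtain ⟨C2, y2, hC2, hy2, h2⟩ := fz_diag
  obtain ⟨Xw, hXw⟩ := params_w B u (y1 + y2) hu
  obtain ⟨Xz, hXz⟩ := params_z E (C1 + C2) hE
  obtain ⟨X1, hX1⟩ := eventually_atTop.1 ((evt_log_ge 10000).and (evt_log_pow (B + 4) (1 / 4) (by norm_num)))
  refine ⟨max (max Xw Xz) X1, fun X hX e A L he hA hLB hL1 => ?_⟩
  obtain ⟨hwy, hwl, hwk⟩ := hXw X (le_trans (le_trans (le_max_left _ _) (le_max_left _ _)) hX)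
  obtain ⟨hm1, hml, hz3, hVz, b, hb, hb1, hpb, hzb⟩ := hXz X (le_trans (le_trans (le_max_right _ _) (le_max_left _ _)) hX)
  obtain ⟨hl, hlX⟩ := hX1 X (le_trans (le_max_right _ _) hX)
  obtain ⟨k, hk1, hk2, hk3, hk4⟩ := hwk L hL1 hLB
  obtain ⟨f1, f2, f3, f4, f5, f6, f7⟩ := S_facts X hl
  clear hXw hXz hX1 hwk hX
  have hwz : ⌊Real.log X ^ (1 / (u : ℝ))⌋₊ ≤ ⌊Real.log X ^ E⌋₊ := by
    apply Nat.floor_le_floor
    have hl1 : 1 ≤ Real.log X := by linarith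
    have hur : (0 : ℝ) < u := by exact_mod_cast hu
    calc Real.log X ^ (1 / (u : ℝ)) ≤ Real.log X ^ (1 : ℝ) := by
          apply Real.rpow_le_rpow_of_exponent_le hl1
          rw [div_le_one hur]; exact_mod_cast hu
      _ = Real.log X := Real.rpow_one _
      _ ≤ Real.log X ^ E := le_self_pow₀ hl1 (by omega)
  generalize ⌊Real.log X ^ (1 / (u : ℝ))⌋₊ = w at *
  generalize ⌊Real.log X ^ E⌋₊ = z at *
  generalize Real.log X = l at *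
  generalize Real.log l = m at *
  have hl0 : 0 < l := by linarith
  have hl1 : 1 ≤ l := by linarith
  have hm0 : 0 < m := by linarith
  have hXr : (1 : ℝ) ≤ X := by exact_mod_cast f1
  have hX0 : (0 : ℝ) < X := by linarith
  have hA1 : 1 ≤ A := by
    have : (1 : ℝ) ≤ A := (one_le_pow₀ hl1).trans hA
    exact_mod_cast this
  have hvle := fun h => val_le X L B e he l hl1 hLB h A hA1
  generalize Nat.sqrt X = S at *
  have hX4 : (X : ℝ) ^ (1 / 4 : ℝ) * (X : ℝ) ^ (1 / 4 : ℝ) = √(X : ℝ) := by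
    rw [Real.sqrt_eq_rpow, ← Real.rpow_add hX0]; norm_num
  have hX16 : (X : ℝ) ^ (1 / 16 : ℝ) ≤ (X : ℝ) ^ (1 / 4 : ℝ) := Real.rpow_le_rpow_of_exponent_le hXr (by norm_num)
  have hlB1 : 1 ≤ l ^ B := one_le_pow₀ hl1
  have hlB6 : l ^ B * 6 ≤ l ^ (B + 4) := by
    rw [pow_add]
    apply mul_le_mul_of_nonneg_left _ (by linarith)
    have : l ≤ l ^ 4 := le_self_pow₀ hl1 (by norm_num)
    linarith
  have hx6 : 6 ≤ (X : ℝ) ^ (1 / 4 : ℝ) := by linarith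
  have hX4S2 : (X : ℝ) ^ (1 / 4 : ℝ) ≤ S := by nlinarith
  have hzS : (z : ℝ) ^ ((C1 + C2) * b) ≤ S := hzb.trans (hX16.trans hX4S2)
  have hz1 : (1 : ℝ) ≤ z := by exact_mod_cast (by omega : 1 ≤ z)
  have hzb1 : (z : ℝ) ^ (C1 * b) ≤ (X : ℝ) ^ (1 / 4 : ℝ) := by
    refine (pow_le_pow_right₀ hz1 ?_).trans (hzb.trans hX16)
    nlinarith
  have hzS1 : (z : ℝ) ^ (C1 * b) ≤ S := hzb1.trans hX4S2
  have hzS2 : (z : ℝ) ^ (C2 * b) ≤ S := by
    refine (pow_le_pow_right₀ hz1 ?_).trans hzS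
    nlinarith
  have hwS : w ≤ S := by
    have h3 : (w : ℝ) ≤ S := by
      have h5 : (w : ℝ) ≤ z := by exact_mod_cast hwz
      have h6 : (z : ℝ) ≤ (z : ℝ) ^ (C1 * b) := by
        apply le_self_pow₀ hz1
        have : 1 ≤ C1 * b := Nat.mul_pos (by omega) (by omega)
        omega
      linarith
    exact_mod_cast h3
  have hYv := hvle (by linarith)
  have hYle : ((⌊3 * (S : ℝ) * l ^ B⌋₊ : ℕ) : ℝ) ≤ 3 * √(X : ℝ) * l ^ B :=
    (Nat.floor_le (by positivity)).trans (by gcongr)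
  generalize ⌊3 * (S : ℝ) * l ^ B⌋₊ = Y at *
  have hVw1 := one_le_Vz_inv w
  have hVz1 := one_le_Vz_inv z
  have hsql : √l ≤ l := by
    rw [Real.sqrt_le_left hl0.le]
    nlinarith
  have hZl : (Vz z)⁻¹ ≤ l := by linarith
  have hO : ∀ i ∈ Icc 1 L, ∀ j ∈ Icc 1 L, i < j → |QQ (fz w z) (fz w z) e A S i j| ≤ X / m ^ 2 := by
    intro i hi j hj hij
    obtain ⟨t, ht, ht2⟩ := he.1 i j
    have hts : ∀ s ∈ Icc A (S : ℤ), 0 ≤ t + 2 * s := by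
      intro s hs
      rw [mem_Icc] at hs hi hj
      have hLA : (L : ℤ) ≤ A := by
        have : (L : ℝ) ≤ A := hLB.trans hA
        exact_mod_cast this
      omega
    have h3 := h1 b (by omega) w z (by omega) hwz e A S Y L k hA1 (by omega) hzS1 hwS hYv hk2 hk3 i hi j hj hij t ht hts
    refine h3.trans ?_
    have hw0 : (0 : ℝ) < w := by exact_mod_cast (by omega : 0 < w)
    have t1 := t1_ar S X k w (Vz w)⁻¹ m hw0 (Nat.cast_nonneg _) hVw1 hX0.le f2 hk4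
    have t2 := t2_ar S X l m (Vz z)⁻¹ ((1 / 2) ^ b) hl0 hm0 hX0.le f2 (by positivity) hpb (by linarith) hZl hml
    have t3 := t3_ar X l m Y (Vz z)⁻¹ ((z : ℝ) ^ (C1 * b)) B hX0 hl hm0 (Nat.cast_nonneg _) hYle (by linarith) hZl
      (by positivity) hzb1 hlX hml
    clear * - t1 t2 t3 hX0 hm0
    generalize (Vz w)⁻¹ = W at *
    generalize (Vz z)⁻¹ = Z at *
    have e1 : 14 * (S : ℝ) ^ 2 * (W * (4 * k / w) + 2 * (1 / 2) ^ b * Z) =
      14 * (S : ℝ) ^ 2 * (W * (4 * k / w)) + 14 * (S : ℝ) ^ 2 * (2 * (1 / 2) ^ b * Z) := by ring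
    have e2 : (X : ℝ) / m ^ 2 = 4 * (X / 4 * (1 / m ^ 2)) := by ring
    have e3 : 0 ≤ (X : ℝ) / 4 * (1 / m ^ 2) := by positivity
    rw [e1, e2]
    linarith
  have hD : ∀ i ∈ Icc 1 L, QQ (fz w z) (fz w z) e A S i i ≤ X * √l := by
    intro i _
    refine (h2 b (by omega) w z (by omega) hwz e A S i hA1 (by omega) hzS2).trans ?_
    calc 14 * (S : ℝ) ^ 2 * (Vz z)⁻¹ = (S : ℝ) ^ 2 * (14 * (Vz z)⁻¹) := by ring
      _ ≤ X * √l := mul_le_mul f2 hVz (by linarith) hX0.le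
  refine (second_le (fz w z) e L A S (X * √l) (X / m ^ 2) (by positivity) hD hO).trans (le_of_eq ?_)
  ring

end Pool.Agent.TH892.OW
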