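import Pool.Agent.TH892.OW.B5b
import Pool.Agent.TH892.OW.B5c
import Pool.Agent.TH892.SW.S7

/-!
The exceptional numbers at one scale, and at all scales of a geometric grid.
-/

set_option autoImplicit false

namespace Pool.Agent.TH892.OW

open Finset Filter
open Pool.Agent.H373R2.T7 (pz Vz lamz mem_pz Vz_ge Vz_inv_le Vz_le_one Vz_inv_small)
open Pool.Agent.TH892.SW (ff gK)
open Pool.Agent.H442R2.EHI (evt_log_pow evt_log_ge)

lemma GG_ep (g : ℤ → ℝ) (K L : ℕ) :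
    GG g ep L (Nat.sqrt K : ℕ) ((K : ℤ) - (Nat.sqrt K : ℤ) ^ 2) =
      ∑ n ∈ Ioc (Nat.sqrt K) (Nat.sqrt K + L), g |(n : ℤ) ^ 2 - K| := by
  unfold GG ep
  have hs := Nat.lt_succ_sqrt' K
  generalize Nat.sqrt K = s at *
  refine sum_nbij' (fun i => s + i) (fun n => n - s) ?_ ?_ ?_ ?_ ?_
  · intro i hi; rw [mem_Icc] at hi; rw [mem_Ioc]; omega
  · intro i hi; rw [mem_Ioc] at hi; rw [mem_Icc]; omega
  · intro i hi; rw [mem_Icc] at hi; simp
  · intro i hi; rw [mem_Ioc] at hi; omega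
  · intro i hi
    rw [mem_Icc] at hi
    congr 1
    have h1 : (K : ℤ) < ((s : ℤ) + i) ^ 2 := by
      have h2 : (s + 1) ^ 2 ≤ (s + i) ^ 2 := Nat.pow_le_pow_left (by omega) 2
      have h3 : K < (s + i) ^ 2 := lt_of_lt_of_le hs h2
      exact_mod_cast h3
    push_cast
    rw [abs_of_pos (by linarith)]
    ring

lemma GG_em (g : ℤ → ℝ) (K L : ℕ) (hL : L ≤ Nat.sqrt K) :
    GG g em L (Nat.sqrt K : ℕ) (2 * (Nat.sqrt K : ℤ) - ((K : ℤ) - (Nat.sqrt K : ℤ) ^ 2)) =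
      ∑ n ∈ Ioc (Nat.sqrt K - L) (Nat.sqrt K), g |(n : ℤ) ^ 2 - K| := by
  unfold GG em
  have hs := Nat.sqrt_le' K
  generalize Nat.sqrt K = s at *
  refine sum_nbij' (fun i => s + 1 - i) (fun n => s + 1 - n) ?_ ?_ ?_ ?_ ?_
  · intro i hi; rw [mem_Icc] at hi; rw [mem_Ioc]; omega
  · intro i hi; rw [mem_Ioc] at hi; rw [mem_Icc]; omega
  · intro i hi; rw [mem_Icc] at hi; omega
  · intro i hi; rw [mem_Ioc] at hi; omega
  · intro i hi
    rw [mem_Icc] at hi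
    congr 1
    have h1 : ((s + 1 - i : ℕ) : ℤ) = (s : ℤ) + 1 - i := by omega
    have h2 : ((s + 1 - i : ℕ) : ℤ) ^ 2 ≤ (K : ℤ) := by
      have h3 : (s + 1 - i) ^ 2 ≤ s ^ 2 := Nat.pow_le_pow_left (by omega) 2
      exact_mod_cast h3.trans hs
    rw [abs_of_nonpos (by linarith), h1]
    ring

/-- the four sums -/
noncomputable def RS (g : ℤ → ℝ) (K L : ℕ) : ℝ := ∑ n ∈ Ioc (Nat.sqrt K) (Nat.sqrt K + L), g |(n : ℤ) ^ 2 - K|

noncomputable def LS (g : ℤ → ℝ) (K L : ℕ) : ℝ := ∑ n ∈ Ioc (Nat.sqrt K - L) (Nat.sqrt K), g |(n : ℤ) ^ 2 - K|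

lemma count_R (g : ℤ → ℝ) (X A L : ℕ) (τ M : ℝ) (hτ : 0 ≤ τ)
    (hM : ∑ s ∈ Icc (A : ℤ) ((Nat.sqrt X : ℕ) : ℤ), ∑ r ∈ Icc (0 : ℤ) (2 * s), GG g ep L s r ^ 2 ≤ M) :
    #((Icc 1 X).filter (fun K => A ≤ Nat.sqrt K ∧ τ ≤ |RS g K L|)) * τ ^ 2 ≤ M := by
  refine le_trans ?_ hM
  apply cheb g ep L A (Nat.sqrt X : ℕ) _ (fun K => (Nat.sqrt K : ℤ)) (fun K => (K : ℤ) - (Nat.sqrt K : ℤ) ^ 2) _ _ τ hτ
  · intro K hK
    rw [mem_filter] at hK
    rw [GG_ep]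
    exact hK.2.2
  · intro K hK
    rw [mem_filter, mem_Icc] at hK
    rw [mem_Icc, mem_Icc]
    have h1 := Nat.sqrt_le' K
    have h2 := Nat.lt_succ_sqrt' K
    have h3 : Nat.sqrt K ≤ Nat.sqrt X := Nat.sqrt_le_sqrt hK.1.2
    refine ⟨⟨by exact_mod_cast hK.2.1, by exact_mod_cast h3⟩, ?_, ?_⟩
    · have : ((Nat.sqrt K : ℕ) : ℤ) ^ 2 ≤ K := by exact_mod_cast h1
      linarith
    · have : (K : ℤ) < ((Nat.sqrt K : ℤ) + 1) ^ 2 := by exact_mod_cast h2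
      nlinarith
  · intro K _ K' _ h1 h2
    rw [h1] at h2
    have : (K : ℤ) = K' := by linarith
    exact_mod_cast this

lemma count_L (g : ℤ → ℝ) (X A L : ℕ) (hLA : L ≤ A) (τ M : ℝ) (hτ : 0 ≤ τ)
    (hM : ∑ s ∈ Icc (A : ℤ) ((Nat.sqrt X : ℕ) : ℤ), ∑ r ∈ Icc (0 : ℤ) (2 * s), GG g em L s r ^ 2 ≤ M) :
    #((Icc 1 X).filter (fun K => A ≤ Nat.sqrt K ∧ τ ≤ |LS g K L|)) * τ ^ 2 ≤ M := by
  refine le_trans ?_ hM
  apply cheb g em L A (Nat.sqrt X : ℕ) _ (fun K => (Nat.sqrt K : ℤ))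
    (fun K => 2 * (Nat.sqrt K : ℤ) - ((K : ℤ) - (Nat.sqrt K : ℤ) ^ 2)) _ _ τ hτ
  · intro K hK
    rw [mem_filter] at hK
    rw [GG_em g K L (hLA.trans hK.2.1)]
    exact hK.2.2
  · intro K hK
    rw [mem_filter, mem_Icc] at hK
    rw [mem_Icc, mem_Icc]
    have h1 := Nat.sqrt_le' K
    have h2 := Nat.lt_succ_sqrt' K
    have h3 : Nat.sqrt K ≤ Nat.sqrt X := Nat.sqrt_le_sqrt hK.1.2
    refine ⟨⟨by exact_mod_cast hK.2.1, by exact_mod_cast h3⟩, ?_, ?_⟩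
    · have : (K : ℤ) < ((Nat.sqrt K : ℤ) + 1) ^ 2 := by exact_mod_cast h2
      nlinarith
    · have : ((Nat.sqrt K : ℕ) : ℤ) ^ 2 ≤ K := by exact_mod_cast h1
      linarith
  · intro K _ K' _ h1 h2
    rw [h1] at h2
    have : (K : ℤ) = K' := by linarith
    exact_mod_cast this

/-- the exceptional numbers at the scale `L` -/
noncomputable def BL (w z X A : ℕ) (c l : ℝ) (L : ℕ) : Finset ℕ :=
  (Icc 1 X).filter (fun K => A ≤ Nat.sqrt K ∧ (c * (L / l) ≤ |RS (ff z) K L| ∨ c * (L / l) ≤ |LS (ff z) K L| ∨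
    c * L ≤ |RS (fz w z) K L| ∨ c * L ≤ |LS (fz w z) K L|))

lemma BL_card (w z X A : ℕ) (c l : ℝ) (L : ℕ) (hc : 0 < c) (hl : 0 < l) (hL : 1 ≤ L) (hLA : L ≤ A) (M1 M2 : ℝ)
    (h1 : ∀ e : ℕ → ℤ, IsE e → ∑ s ∈ Icc (A : ℤ) ((Nat.sqrt X : ℕ) : ℤ), ∑ r ∈ Icc (0 : ℤ) (2 * s), GG (ff z) e L s r ^ 2 ≤ M1)
    (h2 : ∀ e : ℕ → ℤ, IsE e → ∑ s ∈ Icc (A : ℤ) ((Nat.sqrt X : ℕ) : ℤ), ∑ r ∈ Icc (0 : ℤ) (2 * s), GG (fz w z) e L s r ^ 2 ≤ M2) :
    (#(BL w z X A c l L) : ℝ) ≤ 2 * (M1 / (c * (L / l)) ^ 2) + 2 * (M2 / (c * L) ^ 2) := by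
  classical
  have hL0 : (0 : ℝ) < L := by exact_mod_cast hL
  have hτ1 : 0 < c * (L / l) := by positivity
  have hτ2 : 0 < c * (L : ℝ) := by positivity
  have a1 := count_R (ff z) X A L _ M1 hτ1.le (h1 ep isE_ep)
  have a2 := count_L (ff z) X A L hLA _ M1 hτ1.le (h1 em isE_em)
  have a3 := count_R (fz w z) X A L _ M2 hτ2.le (h2 ep isE_ep)
  have a4 := count_L (fz w z) X A L hLA _ M2 hτ2.le (h2 em isE_em)
  rw [← le_div_iff₀ (by positivity)] at a1 a2 a3 a4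
  have hsub : BL w z X A c l L ⊆
      ((Icc 1 X).filter (fun K => A ≤ Nat.sqrt K ∧ c * (L / l) ≤ |RS (ff z) K L|) ∪
       (Icc 1 X).filter (fun K => A ≤ Nat.sqrt K ∧ c * (L / l) ≤ |LS (ff z) K L|)) ∪
      ((Icc 1 X).filter (fun K => A ≤ Nat.sqrt K ∧ c * L ≤ |RS (fz w z) K L|) ∪
       (Icc 1 X).filter (fun K => A ≤ Nat.sqrt K ∧ c * L ≤ |LS (fz w z) K L|)) := by
    intro K hK
    unfold BL at hK
    rw [mem_filter] at hK
    obtain ⟨b1, b2, b3 | b3 | b3 | b3⟩ := hK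
    · exact mem_union_left _ (mem_union_left _ (mem_filter.2 ⟨b1, b2, b3⟩))
    · exact mem_union_left _ (mem_union_right _ (mem_filter.2 ⟨b1, b2, b3⟩))
    · exact mem_union_right _ (mem_union_left _ (mem_filter.2 ⟨b1, b2, b3⟩))
    · exact mem_union_right _ (mem_union_right _ (mem_filter.2 ⟨b1, b2, b3⟩))
  have h3 := (card_le_card hsub).trans (card_union_le _ _)
  have h4 := card_union_le ((Icc 1 X).filter (fun K => A ≤ Nat.sqrt K ∧ c * (L / l) ≤ |RS (ff z) K L|))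
       ((Icc 1 X).filter (fun K => A ≤ Nat.sqrt K ∧ c * (L / l) ≤ |LS (ff z) K L|))
  have h5 := card_union_le ((Icc 1 X).filter (fun K => A ≤ Nat.sqrt K ∧ c * L ≤ |RS (fz w z) K L|))
       ((Icc 1 X).filter (fun K => A ≤ Nat.sqrt K ∧ c * L ≤ |LS (fz w z) K L|))
  have h6 := h3.trans (add_le_add h4 h5)
  have h7 : (#(BL w z X A c l L) : ℝ) ≤
      ((#((Icc 1 X).filter (fun K => A ≤ Nat.sqrt K ∧ c * (L / l) ≤ |RS (ff z) K L|)) : ℝ) +
       #((Icc 1 X).filter (fun K => A ≤ Nat.sqrt K ∧ c * (L / l) ≤ |LS (ff z) K L|))) +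
      (#((Icc 1 X).filter (fun K => A ≤ Nat.sqrt K ∧ c * L ≤ |RS (fz w z) K L|)) +
       #((Icc 1 X).filter (fun K => A ≤ Nat.sqrt K ∧ c * L ≤ |LS (fz w z) K L|))) := by exact_mod_cast h6
  linarith

/-- the scales -/
noncomputable def sc (T0 l δ : ℝ) (k : ℕ) : ℕ := ⌊T0 * l * (1 + δ) ^ k⌋₊

/-- the bound at one scale -/
lemma scale_ar (T0 l m δ c X : ℝ) (k L : ℕ) (hT0 : 1 ≤ T0) (hl : 10000 ≤ l) (hm : 1 ≤ m) (hml : 100 * m ^ 4 ≤ l)
    (hδ : 0 < δ) (hc : 0 < c)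
    (hX : 0 ≤ X) (hL : T0 * l * (1 + δ) ^ k ≤ 2 * L) :
    2 * (X * (L * (500 / l) + (L : ℝ) ^ 2 / l ^ 3) / (c * (L / l)) ^ 2) +
      2 * (X * (L * √l + (L : ℝ) ^ 2 / m ^ 2) / (c * L) ^ 2) ≤
      X * (2000 / (c ^ 2 * T0) * (1 / (1 + δ)) ^ k + 5 / (c ^ 2 * m ^ 2)) := by
  have hl0 : 0 < l := by linarith
  have hm0 : 0 < m := by linarith
  have hT00 : 0 < T0 := by linarith
  have hp : 0 < (1 + δ) ^ k := by positivity
  have hp1 : 1 ≤ (1 + δ) ^ k := one_le_pow₀ (by linarith)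
  have hL0 : 0 < (L : ℝ) := by
    have : 0 < T0 * l * (1 + δ) ^ k := by positivity
    linarith
  have hinv : (1 / (1 + δ)) ^ k = 1 / (1 + δ) ^ k := by rw [one_div_pow]
  rw [hinv]
  have e1 : 2 * (X * (L * (500 / l) + (L : ℝ) ^ 2 / l ^ 3) / (c * (L / l)) ^ 2) =
      X / c ^ 2 * (1000 * l / L + 2 / l) := by field_simp; ring
  have e2 : 2 * (X * (L * √l + (L : ℝ) ^ 2 / m ^ 2) / (c * L) ^ 2) =
      X / c ^ 2 * (2 * √l / L + 2 / m ^ 2) := by field_simp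
  have e3 : X * (2000 / (c ^ 2 * T0) * (1 / (1 + δ) ^ k) + 5 / (c ^ 2 * m ^ 2)) =
      X / c ^ 2 * (2000 / (T0 * (1 + δ) ^ k) + 5 / m ^ 2) := by field_simp
  rw [e1, e2, e3, ← mul_add]
  apply mul_le_mul_of_nonneg_left _ (by positivity)
  have f1 : 1000 * l / L ≤ 2000 / (T0 * (1 + δ) ^ k) := by
    rw [div_le_div_iff₀ hL0 (by positivity)]
    nlinarith
  have f2 : 2 / l ≤ 1 / m ^ 2 := by
    rw [div_le_div_iff₀ hl0 (by positivity)]
    have : m ^ 2 ≤ m ^ 4 := pow_le_pow_right₀ hm (by norm_num)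
    linarith
  have hLl : l ≤ 2 * L := by
    refine le_trans ?_ hL
    calc l = 1 * l * 1 := by ring
      _ ≤ T0 * l * (1 + δ) ^ k := by gcongr
  have f3 : 2 * √l / L ≤ 1 / m ^ 2 := by
    rw [div_le_div_iff₀ hL0 (by positivity)]
    have h1 : √l * √l = l := Real.mul_self_sqrt hl0.le
    have h2 : 10 * m ^ 2 ≤ √l := by
      apply Real.le_sqrt_of_sq_le
      calc (10 * m ^ 2) ^ 2 = 100 * m ^ 4 := by ring
        _ ≤ l := hml
    have h3 : 0 ≤ √l := Real.sqrt_nonneg l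
    nlinarith
  have e4 : 5 / m ^ 2 = 1 / m ^ 2 + 1 / m ^ 2 + 2 / m ^ 2 + 1 / m ^ 2 := by ring
  have f4 : 0 ≤ 1 / m ^ 2 := by positivity
  rw [e4]
  linarith

theorem grid_bad (B : ℕ) (hB : 1 ≤ B) (c δ η : ℝ) (hc : 0 < c) (hδ : 0 < δ) (hη : 0 < η) : ∃ T0 : ℝ, 1 ≤ T0 ∧ ∃ E1 : ℕ, ∀ E : ℕ, E1 ≤ E →
    ∀ u : ℕ, 1 ≤ u → ∃ X0 : ℕ, ∀ X : ℕ, X0 ≤ X → ∃ Bad : Finset ℕ, Bad ⊆ Icc 1 X ∧ (#Bad : ℝ) ≤ η * X ∧
    ∀ K ∈ Icc 1 X, K ∉ Bad → (Real.log X ^ B ≤ Nat.sqrt K) ∧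
      ∀ k : ℕ, (sc T0 (Real.log X) δ k : ℝ) ≤ Real.log X ^ B →
        |RS (ff ⌊Real.log X ^ E⌋₊) K (sc T0 (Real.log X) δ k)| ≤ c * ((sc T0 (Real.log X) δ k : ℝ) / Real.log X) ∧
        |LS (ff ⌊Real.log X ^ E⌋₊) K (sc T0 (Real.log X) δ k)| ≤ c * ((sc T0 (Real.log X) δ k : ℝ) / Real.log X) ∧
        |RS (fz ⌊Real.log X ^ (1 / (u : ℝ))⌋₊ ⌊Real.log X ^ E⌋₊) K (sc T0 (Real.log X) δ k)| ≤ c * (sc T0 (Real.log X) δ k : ℝ) ∧
        |LS (fz ⌊Real.log X ^ (1 / (u : ℝ))⌋₊ ⌊Real.log X ^ E⌋₊) K (sc T0 (Real.log X) δ k)| ≤ c * (sc T0 (Real.log X) δ k : ℝ) := by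
  classical
  obtain ⟨E1, h1⟩ := second_ff B 3
  obtain ⟨T0, hT0d⟩ : ∃ T0 : ℝ, T0 = max 1 (8000 * (1 + δ) / (c ^ 2 * δ * η)) := ⟨_, rfl⟩
  have hT01 : 1 ≤ T0 := by rw [hT0d]; exact le_max_left _ _
  have hT02 : 8000 * (1 + δ) / (c ^ 2 * δ * η) ≤ T0 := by rw [hT0d]; exact le_max_right _ _
  refine ⟨T0, hT01, E1 + 1, fun E hE u hu => ?_⟩
  obtain ⟨Xa, hXa⟩ := h1 E (by omega)
  obtain ⟨Xb, hXb⟩ := second_fz B E u (by omega) hu
  have hlδ : 0 < Real.log (1 + δ) := Real.log_pos (by linarith)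
  have hev : ∀ᶠ X : ℕ in atTop, (10000 : ℝ) ≤ Real.log X ∧ (1 : ℝ) ≤ Real.log (Real.log X) ∧
      100 * Real.log (Real.log X) ^ 4 ≤ Real.log X ^ (1 : ℝ) ∧
      20 / (c ^ 2 * η) * (B / Real.log (1 + δ) + 1) ≤ Real.log (Real.log X) ∧
      Real.log X ^ (2 * B + 1) ≤ (X : ℝ) ^ (1 / 2 : ℝ) ∧ 16 / η + 4 ≤ Real.log X := by
    filter_upwards [evt_log_ge 10000, evt_ll_ge 1, evt_ll 4 1 100 (by norm_num),
      evt_ll_ge (20 / (c ^ 2 * η) * (B / Real.log (1 + δ) + 1)),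
      evt_log_pow (2 * B + 1) (1 / 2) (by norm_num), evt_log_ge (16 / η + 4)] with X a1 a2 a3 a4 a5 a6
    exact ⟨a1, a2, a3, a4, a5, a6⟩
  obtain ⟨Xc, hXc⟩ := eventually_atTop.1 hev
  refine ⟨max (max Xa Xb) Xc, fun X hX => ?_⟩
  have hff := hXa X (le_trans (le_trans (le_max_left _ _) (le_max_left _ _)) hX)
  have hfz := hXb X (le_trans (le_trans (le_max_right _ _) (le_max_left _ _)) hX)
  obtain ⟨hl, hm1, hml, hmJ, hlX, hlη⟩ := hXc X (le_trans (le_max_right _ _) hX)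
  clear hXa hXb hXc hev h1 hX
  have hX1 : 1 ≤ X := by
    rcases Nat.eq_zero_or_pos X with h | h
    · rw [h] at hl; norm_num at hl
    · exact h
  rw [Real.rpow_one] at hml
  rw [← Real.sqrt_eq_rpow] at hlX
  generalize ⌊Real.log X ^ (1 / (u : ℝ))⌋₊ = w at *
  generalize ⌊Real.log X ^ E⌋₊ = z at *
  generalize Real.log X = l at *
  obtain ⟨m, hm⟩ : ∃ m, m = Real.log l := ⟨_, rfl⟩
  rw [← hm] at hm1 hml hmJ hfz
  have hl0 : 0 < l := by linarith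
  have hl1 : 1 ≤ l := by linarith
  have hm0 : 0 < m := by linarith
  have hXr : (1 : ℝ) ≤ X := by exact_mod_cast hX1
  have hX0 : (0 : ℝ) < X := by linarith
  have hlB1 : 1 ≤ l ^ B := one_le_pow₀ hl1
  have hlB0 : 0 < l ^ B := by linarith
  obtain ⟨A, hA⟩ : ∃ A, A = ⌈l ^ B⌉₊ := ⟨_, rfl⟩
  have hA1 : l ^ B ≤ A := by rw [hA]; exact Nat.le_ceil _
  have hA2 : (A : ℝ) ≤ 2 * l ^ B := by
    have := Nat.ceil_lt_add_one hlB0.le
    rw [← hA] at this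
    linarith
  obtain ⟨J, hJ⟩ : ∃ J, J = ⌊B / Real.log (1 + δ) * m⌋₊ := ⟨_, rfl⟩
  -- the scales
  have hscale : ∀ k : ℕ, (sc T0 l δ k : ℝ) ≤ l ^ B → 1 ≤ sc T0 l δ k ∧ T0 * l * (1 + δ) ^ k ≤ 2 * sc T0 l δ k ∧
      k ≤ J := by
    intro k hk
    have hp1 : 1 ≤ (1 + δ) ^ k := one_le_pow₀ (by linarith)
    have h3 := Nat.lt_floor_add_one (T0 * l * (1 + δ) ^ k)
    have h4 : l * (1 + δ) ^ k ≤ T0 * l * (1 + δ) ^ k := by
      apply mul_le_mul_of_nonneg_right _ (by linarith)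
      nlinarith
    have h5 : l * 1 ≤ l * (1 + δ) ^ k := mul_le_mul_of_nonneg_left hp1 hl0.le
    have h6 : T0 * l * (1 + δ) ^ k < sc T0 l δ k + 1 := h3
    have h7 : (1 : ℝ) ≤ sc T0 l δ k := by linarith
    refine ⟨by exact_mod_cast h7, by linarith, ?_⟩
    rw [hJ]
    apply Nat.le_floor
    have h8 : (1 + δ) ^ k ≤ l ^ B := by
      have h9 : 2 * (1 + δ) ^ k ≤ l * (1 + δ) ^ k := mul_le_mul_of_nonneg_right (by linarith) (by linarith)
      linarith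
    have h9 := Real.log_le_log (by positivity) h8
    rw [Real.log_pow, Real.log_pow, ← hm] at h9
    rw [div_mul_eq_mul_div, le_div_iff₀ hlδ]
    exact h9
  obtain ⟨Ks, hKs⟩ : ∃ Ks, Ks = (range (J + 1)).filter (fun k => (sc T0 l δ k : ℝ) ≤ l ^ B) := ⟨_, rfl⟩
  refine ⟨((Icc 1 X).filter (fun K => Nat.sqrt K < A)) ∪ Ks.biUnion (fun k => BL w z X A c l (sc T0 l δ k)), ?_, ?_, ?_⟩
  · apply union_subset (filter_subset _ _)
    exact biUnion_subset.2 fun k _ => filter_subset _ _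
  · have b1 : (#((Icc 1 X).filter (fun K => Nat.sqrt K < A)) : ℝ) ≤ η / 4 * X := by
      have h3 : (Icc 1 X).filter (fun K => Nat.sqrt K < A) ⊆ range (A ^ 2) := by
        intro K hK
        rw [mem_filter] at hK
        rw [mem_range]
        exact Nat.sqrt_lt'.1 hK.2
      have h4 := card_le_card h3
      rw [card_range] at h4
      calc (#((Icc 1 X).filter (fun K => Nat.sqrt K < A)) : ℝ) ≤ (A : ℝ) ^ 2 := by exact_mod_cast h4
        _ ≤ (2 * l ^ B) ^ 2 := pow_le_pow_left₀ (Nat.cast_nonneg _) hA2 2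
        _ = 4 * l ^ (2 * B) := by rw [mul_pow, ← pow_mul, mul_comm B 2]; norm_num
        _ ≤ η / 4 * (l * l ^ (2 * B)) := by
            have h5 : 4 ≤ η / 4 * l := by
              have h6 : 16 / η ≤ l := by linarith
              rw [div_le_iff₀ hη] at h6
              linarith
            have h7 : 0 < l ^ (2 * B) := by positivity
            nlinarith
        _ ≤ η / 4 * X := by
            apply mul_le_mul_of_nonneg_left _ (by positivity)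
            calc l * l ^ (2 * B) = l ^ (2 * B + 1) := by ring
              _ ≤ √(X : ℝ) := hlX
              _ ≤ X := by
                  rw [Real.sqrt_le_left hX0.le]
                  nlinarith
    have b2 : (#(Ks.biUnion (fun k => BL w z X A c l (sc T0 l δ k))) : ℝ) ≤ η / 2 * X := by
      have h3 : (#(Ks.biUnion (fun k => BL w z X A c l (sc T0 l δ k))) : ℝ) ≤
          ∑ k ∈ Ks, X * (2000 / (c ^ 2 * T0) * (1 / (1 + δ)) ^ k + 5 / (c ^ 2 * m ^ 2)) := by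
        refine le_trans (Nat.cast_le.2 card_biUnion_le) ?_
        push_cast
        refine sum_le_sum fun k hk => ?_
        rw [hKs, mem_filter] at hk
        obtain ⟨g1, g2, g3⟩ := hscale k hk.2
        have hLA : sc T0 l δ k ≤ A := by
          have : (sc T0 l δ k : ℝ) ≤ A := hk.2.trans hA1
          exact_mod_cast this
        refine (BL_card w z X A c l (sc T0 l δ k) hc hl0 g1 hLA _ _
          (fun e he => hff e A _ he (by exact_mod_cast g1.trans hLA) hk.2)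
          (fun e he => hfz e A _ he (by exact_mod_cast hA1) hk.2 g1)).trans ?_
        exact scale_ar T0 l m δ c X k _ hT01 hl hm1 hml hδ hc hX0.le g2
      refine h3.trans ?_
      rw [← mul_sum, sum_add_distrib, ← mul_sum, sum_const, nsmul_eq_mul]
      have h4 : ∑ k ∈ Ks, (1 / (1 + δ)) ^ k ≤ (1 + δ) / δ := by
        have hx0 : 0 ≤ 1 / (1 + δ) := by positivity
        have hx1 : 1 / (1 + δ) < 1 := by rw [div_lt_one (by linarith)]; linarith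
        have h5 := (summable_geometric_of_lt_one hx0 hx1).sum_le_tsum Ks (fun k _ => pow_nonneg hx0 k)
        rw [tsum_geometric_of_lt_one hx0 hx1] at h5
        refine h5.trans (le_of_eq ?_)
        have h6 : 1 - 1 / (1 + δ) = δ / (1 + δ) := by field_simp; ring
        rw [h6, inv_div]
      have h5 : (#Ks : ℝ) ≤ (B / Real.log (1 + δ) + 1) * m := by
        have h6 : #Ks ≤ J + 1 := by
          rw [hKs]
          refine (card_filter_le _ _).trans ?_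
          rw [card_range]
        have h7 : (J : ℝ) ≤ B / Real.log (1 + δ) * m := by rw [hJ]; exact Nat.floor_le (by positivity)
        have h8 : (#Ks : ℝ) ≤ J + 1 := by exact_mod_cast h6
        linarith
      have h6 : 2000 / (c ^ 2 * T0) * ∑ k ∈ Ks, (1 / (1 + δ)) ^ k ≤ η / 4 := by
        calc 2000 / (c ^ 2 * T0) * ∑ k ∈ Ks, (1 / (1 + δ)) ^ k ≤ 2000 / (c ^ 2 * T0) * ((1 + δ) / δ) :=
              mul_le_mul_of_nonneg_left h4 (by positivity)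
          _ ≤ η / 4 := by
              rw [div_mul_div_comm, div_le_div_iff₀ (by positivity) (by norm_num)]
              rw [div_le_iff₀ (by positivity)] at hT02
              calc 2000 * (1 + δ) * 4 = 8000 * (1 + δ) := by ring
                _ ≤ T0 * (c ^ 2 * δ * η) := hT02
                _ = η * (c ^ 2 * T0 * δ) := by ring
      have h7 : (#Ks : ℝ) * (5 / (c ^ 2 * m ^ 2)) ≤ η / 4 := by
        calc (#Ks : ℝ) * (5 / (c ^ 2 * m ^ 2)) ≤ ((B / Real.log (1 + δ) + 1) * m) * (5 / (c ^ 2 * m ^ 2)) :=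
              mul_le_mul_of_nonneg_right h5 (by positivity)
          _ = (20 / (c ^ 2 * η) * (B / Real.log (1 + δ) + 1)) * (η / (4 * m)) := by
              field_simp
              norm_num
          _ ≤ m * (η / (4 * m)) := mul_le_mul_of_nonneg_right hmJ (by positivity)
          _ = η / 4 := by field_simp
      calc (X : ℝ) * (2000 / (c ^ 2 * T0) * ∑ k ∈ Ks, (1 / (1 + δ)) ^ k + #Ks * (5 / (c ^ 2 * m ^ 2)))
          ≤ X * (η / 4 + η / 4) := mul_le_mul_of_nonneg_left (add_le_add h6 h7) hX0.le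
        _ = η / 2 * X := by ring
    have h3 := card_union_le ((Icc 1 X).filter (fun K => Nat.sqrt K < A)) (Ks.biUnion (fun k => BL w z X A c l (sc T0 l δ k)))
    have h4 : (#(((Icc 1 X).filter (fun K => Nat.sqrt K < A)) ∪ Ks.biUnion (fun k => BL w z X A c l (sc T0 l δ k))) : ℝ) ≤
      #((Icc 1 X).filter (fun K => Nat.sqrt K < A)) + #(Ks.biUnion (fun k => BL w z X A c l (sc T0 l δ k))) := by
      exact_mod_cast h3
    have h5 : 0 < η * X := by positivity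
    linarith
  · intro K hK hKB
    rw [mem_union, not_or, mem_filter, not_and, not_lt] at hKB
    have hAK := hKB.1 hK
    refine ⟨hA1.trans (by exact_mod_cast hAK), fun k hk => ?_⟩
    obtain ⟨g1, g2, g3⟩ := hscale k hk
    have h3 : K ∉ BL w z X A c l (sc T0 l δ k) := by
      intro h4
      apply hKB.2
      rw [mem_biUnion]
      refine ⟨k, ?_, h4⟩
      rw [hKs, mem_filter, mem_range]
      exact ⟨by omega, hk⟩
    unfold BL at h3
    rw [mem_filter, not_and, not_and] at h3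
    have h4 := h3 hK hAK
    push Not at h4
    exact ⟨h4.1.le, h4.2.1.le, h4.2.2.1.le, h4.2.2.2.le⟩

end Pool.Agent.TH892.OW
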