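import Pool.Agent.TH892.OW.B6
import Pool.Agent.TH892.SW.S9

/-!
The size of the constant, its value at a small cut, and the weights near the square root.
-/

set_option autoImplicit false

namespace Pool.Agent.TH892.OW

open Finset Filter Topology
open Pool.Agent.W468.ConjF
open Pool.Agent.TH892
open Pool.Agent.H307R2.OP (J PB badCount)
open Pool.Agent.H373R2.T7 (pz Vz lamz mem_pz Vz_ge Vz_inv_le Vz_le_one Vz_inv_small)
open Pool.Agent.TH892.SW (HP HP_ge CF_HP low_K hp_most vn wt wt_nonneg)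
open Pool.Agent.H442R2.EHI (evt_log_pow evt_log_ge)

lemma cmp_cut (K : ℤ) (w Z N : ℕ) (hw : 2 ≤ w) (hwZ : w ≤ Z) (τ θ : ℝ)
    (h1 : |LOW 1 (0 ^ 2 - 4 * 1 * -K) w Z| ≤ τ)
    (h2 : |Real.log (CF 1 0 (-K) N) - Real.log (CF 1 0 (-K) Z)| ≤ θ) :
    |Real.log (CF 1 0 (-K) N) - Real.log (CF 1 0 (-K) w)| ≤ θ + τ + 12 / w := by
  have h3 := CF_compare 1 0 (-K) one_pos w Z Z hw hwZ le_rfl
  have h4 : SJ (0 ^ 2 - 4 * 1 * -K) Z Z = 0 := by
    have h5 := SJ_add (0 ^ 2 - 4 * 1 * -K) Z Z Z le_rfl le_rfl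
    linarith
  rw [h4, abs_zero, add_zero] at h3
  have h5 : (3 : ℝ) * ((Nat.log 2 (1 : ℤ).toNat : ℕ) : ℝ) / w = 0 := by simp
  rw [h5, add_zero] at h3
  have h6 := abs_sub_le (Real.log (CF 1 0 (-K) N)) (Real.log (CF 1 0 (-K) Z)) (Real.log (CF 1 0 (-K) w))
  have h7 : |Real.log (CF 1 0 (-K) Z) - Real.log (CF 1 0 (-K) w)| ≤ τ + 12 / w :=
    h3.trans (add_le_add h1 le_rfl)
  refine h6.trans ((add_le_add h2 h7).trans (le_of_eq ?_))
  ring

lemma HP_lim (K : ℤ) (h : ℝ) (hh : 0 < h) (hlim : Tendsto (fun N => HP K N) atTop (𝓝 h)) (z : ℕ) (θ : ℝ) (hθ : θ ≤ 1)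
    (h1 : ∀ᶠ N in atTop, |Real.log (CF 1 0 (-K) N) - Real.log (CF 1 0 (-K) z)| ≤ θ) :
    |HP K z - h| ≤ 2 * θ * h := by
  have h2 : Tendsto (fun N => CF 1 0 (-K) N) atTop (𝓝 (h / 2)) := by
    have h3 := hlim.div_const 2
    refine h3.congr fun N => ?_
    rw [CF_HP]; ring
  have h3 := CF_limit 1 0 (-K) (h / 2) (by linarith) h2 z θ hθ h1
  rw [CF_HP]
  have h4 : 2 * CF 1 0 (-K) z - h = 2 * (CF 1 0 (-K) z - h / 2) := by ring
  rw [h4, abs_mul, abs_of_pos (show (0 : ℝ) < 2 by norm_num)]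
  linarith

theorem h_good (η : ℝ) (hη : 0 < η) : ∃ δ0 : ℝ, 0 < δ0 ∧ ∀ ε1 : ℝ, 0 < ε1 → ∃ E1 : ℕ, ∀ E : ℕ, E1 ≤ E → ∀ u : ℕ, 1 ≤ u →
    ∃ X0 : ℕ, ∀ X : ℕ, X0 ≤ X → ∃ Bad : Finset ℕ, (#Bad : ℝ) ≤ η * X ∧
    ∀ K ∈ Icc 1 X, K ∉ Bad → ¬ IsSquare (K : ℤ) → ∀ h : ℝ, 0 < h → Tendsto (fun N => HP K N) atTop (𝓝 h) →
      δ0 ≤ h ∧ |HP K ⌊Real.log X ^ (1 / (u : ℝ))⌋₊ - h| ≤ ε1 * h := by
  classical
  obtain ⟨w0, hw0⟩ : ∃ w0 : ℕ, w0 = ⌈200 / η⌉₊ + 100 := ⟨_, rfl⟩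
  have hw01 : 200 / η ≤ w0 := by
    rw [hw0]; push_cast
    have := Nat.le_ceil (200 / η)
    linarith
  have hw02 : 100 ≤ w0 := by omega
  have hw0r : (100 : ℝ) ≤ w0 := by exact_mod_cast hw02
  refine ⟨Vz w0 ^ 2 / 2, by have := Vz_pos w0; positivity, fun ε1 hε1 => ?_⟩
  obtain ⟨E1, h1⟩ := hp_most 1 1
  refine ⟨E1 + 1, fun E hE u hu => ?_⟩
  obtain ⟨Xa, hXa⟩ := h1 E (by omega)
  obtain ⟨τ, hτ⟩ : ∃ τ, τ = min ε1 1 / 8 := ⟨_, rfl⟩
  have hmin : 0 < min ε1 1 := lt_min hε1 one_pos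
  have hτ0 : 0 < τ := by rw [hτ]; positivity
  have hτ1 : 8 * τ ≤ ε1 := by rw [hτ]; have := min_le_left ε1 1; linarith
  have hτ2 : 8 * τ ≤ 1 := by rw [hτ]; have := min_le_right ε1 1; linarith
  have hur : (0 : ℝ) < u := by exact_mod_cast hu
  obtain ⟨c1, hc1⟩ : ∃ c1 : ℝ, c1 = 24 / τ + 64 / (η * τ ^ 2) + w0 + 4 := ⟨_, rfl⟩
  have hev : ∀ᶠ X : ℕ in atTop, (10000 : ℝ) ≤ Real.log X ∧
      c1 * Real.log (Real.log X) ^ 0 ≤ Real.log X ^ (1 / (u : ℝ)) ∧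
      Real.log X ^ (2 * E + 1) ≤ (X : ℝ) ^ (1 / 2 : ℝ) ∧ 1 / τ + 64 / η + 64 / (η * τ ^ 2) ≤ Real.log X := by
    filter_upwards [evt_log_ge 10000, evt_ll 0 (1 / (u : ℝ)) c1 (by positivity),
      evt_log_pow (2 * E + 1) (1 / 2) (by norm_num), evt_log_ge (1 / τ + 64 / η + 64 / (η * τ ^ 2))] with X a1 a2 a3 a4
    exact ⟨a1, a2, a3, a4⟩
  obtain ⟨Xb, hXb⟩ := eventually_atTop.1 hev
  refine ⟨max Xa Xb, fun X hX => ?_⟩
  obtain ⟨B, hB, hBK⟩ := hXa X ((le_max_left _ _).trans hX)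
  obtain ⟨hl, hlu, hlX, hlτ⟩ := hXb X ((le_max_right _ _).trans hX)
  clear hXa hXb hev h1 hX
  have hX1 : 1 ≤ X := by
    rcases Nat.eq_zero_or_pos X with h | h
    · rw [h] at hl; norm_num at hl
    · exact h
  rw [pow_zero, mul_one] at hlu
  rw [← Real.sqrt_eq_rpow] at hlX
  rw [pow_one] at hB
  simp only [pow_one] at hBK
  generalize Real.log X = l at *
  have hl0 : 0 < l := by linarith
  have hl1 : 1 ≤ l := by linarith
  have hXr : (1 : ℝ) ≤ X := by exact_mod_cast hX1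
  have hX0 : (0 : ℝ) < X := by linarith
  obtain ⟨w, hw⟩ : ∃ w, w = ⌊l ^ (1 / (u : ℝ))⌋₊ := ⟨_, rfl⟩
  obtain ⟨Z, hZ⟩ : ∃ Z, Z = ⌊l ^ E⌋₊ := ⟨_, rfl⟩
  rw [← hw]
  rw [← hZ] at hBK
  have p1 : 0 < 24 / τ := by positivity
  have p2 : 0 < 64 / (η * τ ^ 2) := by positivity
  have p3 : 0 < 1 / τ := by positivity
  have p4 : 0 < 64 / η := by positivity
  have hwc : 24 / τ + 64 / (η * τ ^ 2) + w0 + 3 ≤ w := by
    have h3 := Nat.lt_floor_add_one (l ^ (1 / (u : ℝ)))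
    rw [← hw] at h3
    linarith
  have hww0 : w0 ≤ w := by
    have : (w0 : ℝ) ≤ w := by linarith
    exact_mod_cast this
  have hwr : (100 : ℝ) ≤ w := by exact_mod_cast hw02.trans hww0
  have hlu1 : l ^ (1 / (u : ℝ)) ≤ l ^ E := by
    calc l ^ (1 / (u : ℝ)) ≤ l ^ (1 : ℝ) := by
          apply Real.rpow_le_rpow_of_exponent_le hl1
          rw [div_le_one hur]; exact_mod_cast hu
      _ = l := Real.rpow_one _
      _ ≤ l ^ E := le_self_pow₀ hl1 (by omega)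
  have hwZ : w ≤ Z := by rw [hw, hZ]; exact Nat.floor_le_floor hlu1
  have hZle : (Z : ℝ) ≤ l ^ E := by rw [hZ]; exact Nat.floor_le (by positivity)
  have hZ2 : (Z : ℝ) ^ 2 * l ≤ X := by
    calc (Z : ℝ) ^ 2 * l ≤ (l ^ E) ^ 2 * l := by gcongr
      _ = l ^ (2 * E + 1) := by ring
      _ ≤ √(X : ℝ) := hlX
      _ ≤ X := by
          rw [Real.sqrt_le_left hX0.le]
          nlinarith
  obtain ⟨B1, hB1⟩ : ∃ B1, B1 = (Icc 1 X).filter (fun K : ℕ => 1 / 4 < |LOW 1 (0 ^ 2 - 4 * 1 * -(K : ℤ)) w0 Z|) := ⟨_, rfl⟩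
  obtain ⟨B2, hB2⟩ : ∃ B2, B2 = (Icc 1 X).filter (fun K : ℕ => τ < |LOW 1 (0 ^ 2 - 4 * 1 * -(K : ℤ)) w Z|) := ⟨_, rfl⟩
  have c1' := low_K X w0 Z (by omega) (1 / 4) (by norm_num)
  have c2' := low_K X w Z (by omega) τ hτ0
  rw [← hB1] at c1'
  rw [← hB2] at c2'
  have hXX : ((X + 1 : ℕ) : ℝ) ≤ 2 * X := by push_cast; linarith
  have d1 : (#B1 : ℝ) ≤ η * X / 2 := by
    refine c1'.trans ?_
    have e1 : ((X + 1 : ℕ) : ℝ) / w0 ≤ η * X / 100 := by
      rw [div_le_div_iff₀ (by linarith) (by norm_num)]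
      rw [div_le_iff₀ hη] at hw01
      have : 200 * (X : ℝ) ≤ η * X * w0 := by nlinarith
      linarith
    have e2 : (Z : ℝ) ^ 2 ≤ η * X / 64 := by
      have h3 : 64 / η ≤ l := by linarith
      rw [div_le_iff₀ hη] at h3
      have h4 : (Z : ℝ) ^ 2 * 64 ≤ η * ((Z : ℝ) ^ 2 * l) := by
        have : 0 ≤ (Z : ℝ) ^ 2 := sq_nonneg _
        nlinarith
      have h5 := mul_le_mul_of_nonneg_left hZ2 hη.le
      linarith
    have h0 : 0 < η * X := by positivity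
    rw [div_le_iff₀ (by norm_num)]
    linarith
  have d2 : (#B2 : ℝ) ≤ η * X / 8 := by
    refine c2'.trans ?_
    have hητ : 0 < η * τ ^ 2 := by positivity
    have e1 : ((X + 1 : ℕ) : ℝ) / w ≤ η * X / 32 * τ ^ 2 := by
      rw [div_le_iff₀ (by linarith)]
      have h3 : 64 / (η * τ ^ 2) ≤ w := by linarith
      rw [div_le_iff₀ hητ] at h3
      calc ((X + 1 : ℕ) : ℝ) ≤ 2 * X := hXX
        _ = X / 32 * 64 := by ring
        _ ≤ X / 32 * (w * (η * τ ^ 2)) := mul_le_mul_of_nonneg_left h3 (by positivity)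
        _ = _ := by ring
    have e2 : (Z : ℝ) ^ 2 ≤ η * X / 64 * τ ^ 2 := by
      have h3 : 64 / (η * τ ^ 2) ≤ l := by linarith
      rw [div_le_iff₀ hητ] at h3
      have h0 : 0 ≤ (Z : ℝ) ^ 2 := sq_nonneg _
      have h4 : (Z : ℝ) ^ 2 * 64 ≤ (Z : ℝ) ^ 2 * (l * (η * τ ^ 2)) := mul_le_mul_of_nonneg_left h3 h0
      have h5 := mul_le_mul_of_nonneg_right hZ2 hητ.le
      calc (Z : ℝ) ^ 2 = (Z : ℝ) ^ 2 * 64 / 64 := by ring
        _ ≤ ((Z : ℝ) ^ 2 * l * (η * τ ^ 2)) / 64 := by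
            apply div_le_div_of_nonneg_right _ (by norm_num)
            linarith
        _ ≤ (X * (η * τ ^ 2)) / 64 := div_le_div_of_nonneg_right h5 (by norm_num)
        _ = _ := by ring
    have h0 : 0 < η * X * τ ^ 2 := by positivity
    rw [div_le_iff₀ (by positivity)]
    have e3 : η * X / 32 * τ ^ 2 = (η * X * τ ^ 2) / 32 := by ring
    have e4 : η * X / 64 * τ ^ 2 = (η * X * τ ^ 2) / 64 := by ring
    have e5 : η * X / 8 * τ ^ 2 = (η * X * τ ^ 2) / 8 := by ring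
    rw [e3] at e1
    rw [e4] at e2
    rw [e5]
    linarith
  have d3 : (#B : ℝ) ≤ η * X / 8 := by
    refine hB.trans ?_
    rw [div_le_div_iff₀ hl0 (by norm_num)]
    have h3 : 64 / η ≤ l := by linarith
    rw [div_le_iff₀ hη] at h3
    nlinarith
  refine ⟨B ∪ B1 ∪ B2, ?_, ?_⟩
  · have h3 := card_union_le (B ∪ B1) B2
    have h4 := card_union_le B B1
    have h5 : (#(B ∪ B1 ∪ B2) : ℝ) ≤ #B + #B1 + #B2 := by exact_mod_cast (by omega : #(B ∪ B1 ∪ B2) ≤ #B + #B1 + #B2)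
    have h6 : 0 < η * X := by positivity
    linarith
  · intro K hK hKB hsq h hh hlim
    rw [mem_union, mem_union, not_or, not_or] at hKB
    obtain ⟨⟨k1, k2⟩, k3⟩ := hKB
    have hN := hBK K hK k1 hsq
    have l1 : |LOW 1 (0 ^ 2 - 4 * 1 * -(K : ℤ)) w0 Z| ≤ 1 / 4 := by
      by_contra hc
      push Not at hc
      exact k2 (by rw [hB1, mem_filter]; exact ⟨hK, hc⟩)
    have l2 : |LOW 1 (0 ^ 2 - 4 * 1 * -(K : ℤ)) w Z| ≤ τ := by
      by_contra hc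
      push Not at hc
      exact k3 (by rw [hB2, mem_filter]; exact ⟨hK, hc⟩)
    have hlt : 1 / l ≤ τ := by
      rw [div_le_iff₀ hl0]
      have h3 : 1 / τ ≤ l := by linarith
      rw [div_le_iff₀ hτ0] at h3
      linarith
    constructor
    · have h3 := HP_lim K h hh hlim w0 (1 / 2) (by norm_num) (by
        filter_upwards [hN] with N h4
        refine (cmp_cut K w0 Z N (by omega) (hww0.trans hwZ) (1 / 4) (1 / l) l1 h4).trans ?_
        have h5 : 12 / (w0 : ℝ) ≤ 12 / 100 := div_le_div_of_nonneg_left (by norm_num) (by norm_num) hw0r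
        linarith)
      have h4 := (abs_le.1 h3).2
      have h5 := HP_ge K w0
      linarith
    · have h3 := HP_lim K h hh hlim w (3 * τ) (by linarith) (by
        filter_upwards [hN] with N h4
        refine (cmp_cut K w Z N (by omega) hwZ τ (1 / l) l2 h4).trans ?_
        have h5 : 12 / (w : ℝ) ≤ τ := by
          rw [div_le_iff₀ (by linarith)]
          have h6 : 24 / τ ≤ w := by linarith
          rw [div_le_iff₀ hτ0] at h6
          linarith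
        linarith)
      refine h3.trans ?_
      apply mul_le_mul_of_nonneg_right _ hh.le
      linarith

/-- the weight of a number of size about `√X` -/
lemma wt_ar (l m ε : ℝ) (B v : ℕ) (hl : 10000 ≤ l) (hm : m = Real.log l) (hm1 : 1 ≤ m) (hml : 4 * (B + 2) * m ≤ ε * l) (hml2 : 4 * m ≤ l)
    (s : ℝ) (hs : 0 < s) (hsl : Real.log s = l / 2) (h1 : s / l ≤ v) (h2 : (v : ℝ) ≤ s * l ^ (B + 1)) :
    |wt v - 2 / l| ≤ ε * (2 / l) := by
  have hl0 : 0 < l := by linarith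
  have hv0 : (0 : ℝ) < v := lt_of_lt_of_le (by positivity) h1
  have a1 : l / 2 - m ≤ Real.log v := by
    have := Real.log_le_log (by positivity) h1
    rw [Real.log_div hs.ne' hl0.ne', hsl, ← hm] at this
    exact this
  have a2 : Real.log v ≤ l / 2 + (B + 1) * m := by
    have := Real.log_le_log hv0 h2
    rw [Real.log_mul hs.ne' (by positivity), Real.log_pow, hsl, ← hm] at this
    push_cast at this
    exact this
  have hq : 0 < Real.log v := by linarith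
  unfold wt
  have e1 : 1 / Real.log (v : ℝ) - 2 / l = (l - 2 * Real.log v) / (l * Real.log v) := by
    field_simp
  rw [e1, abs_div, abs_of_pos (mul_pos hl0 hq), div_le_iff₀ (mul_pos hl0 hq)]
  have e2 : ε * (2 / l) * (l * Real.log v) = 2 * ε * Real.log v := by field_simp
  rw [e2]
  have hB0 : (0 : ℝ) ≤ B := Nat.cast_nonneg _
  have hε : 0 < ε := by
    have h3 : 0 < ε * l := lt_of_lt_of_le (by positivity) hml
    exact pos_of_mul_pos_left h3 hl0.le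
  have h3 : |l - 2 * Real.log v| ≤ 2 * (B + 2) * m := by
    rw [abs_le]
    constructor
    · nlinarith
    · nlinarith
  have h4 : l / 4 ≤ Real.log v := by linarith
  have h5 : 2 * ε * (l / 4) ≤ 2 * ε * Real.log v := mul_le_mul_of_nonneg_left h4 (by positivity)
  linarith

open Classical in
/-- few numbers within `D` of a square -/
lemma near_sqD (X D : ℕ) (hD : D ≤ Nat.sqrt X) : (((Icc 1 X).filter (fun K : ℕ => ∃ n : ℕ, vn K n ≤ D)).card : ℝ) ≤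
    (2 * D + 1) * ((Nat.sqrt X : ℝ) + 3) := by
  have hsub : (Icc 1 X).filter (fun K : ℕ => ∃ n : ℕ, vn K n ≤ D) ⊆
      (range (Nat.sqrt X + 3) ×ˢ range (2 * D + 1)).image (fun p : ℕ × ℕ => p.1 ^ 2 + p.2 - D) := by
    intro K hK
    rw [mem_filter, mem_Icc] at hK
    obtain ⟨⟨h1, h2⟩, n, hn⟩ := hK
    rw [mem_image]
    have h3 : n ^ 2 ≤ K + D ∧ K ≤ n ^ 2 + D := by
      unfold vn at hn
      zify at hn ⊢
      rw [abs_le] at hn
      constructor <;> linarith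
    refine ⟨(n, K + D - n ^ 2), ?_, ?_⟩
    · rw [mem_product, mem_range, mem_range]
      refine ⟨?_, by show K + D - n ^ 2 < 2 * D + 1; omega⟩
      show n < Nat.sqrt X + 3
      by_contra hcon
      push Not at hcon
      have h4 : X < (Nat.sqrt X + 1) ^ 2 := Nat.lt_succ_sqrt' X
      have h5 : (Nat.sqrt X + 3) ^ 2 ≤ n ^ 2 := Nat.pow_le_pow_left hcon 2
      have h6 : (Nat.sqrt X + 3) ^ 2 = (Nat.sqrt X + 1) ^ 2 + 4 * Nat.sqrt X + 8 := by ring
      omega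
    · show n ^ 2 + (K + D - n ^ 2) - D = K
      omega
  have h1 := (card_le_card hsub).trans card_image_le
  rw [card_product, card_range, card_range] at h1
  calc _ ≤ (((Nat.sqrt X + 3) * (2 * D + 1) : ℕ) : ℝ) := by exact_mod_cast h1
    _ = _ := by push_cast; ring

/-- **the weights near the square root** -/
theorem wt_good (B : ℕ) (hB : 1 ≤ B) (η ε : ℝ) (hη : 0 < η) (hε : 0 < ε) : ∃ X0 : ℕ, ∀ X : ℕ, X0 ≤ X → ∃ Bad : Finset ℕ,
    (#Bad : ℝ) ≤ η * X ∧ ∀ K ∈ Icc 1 X, K ∉ Bad → ∀ n : ℕ, |(n : ℝ) - Nat.sqrt K| ≤ 2 * Real.log X ^ B →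
      |wt (vn K n) - 2 / Real.log X| ≤ ε * (2 / Real.log X) := by
  classical
  have hev : ∀ᶠ X : ℕ in atTop, (10000 : ℝ) ≤ Real.log X ∧ (1 : ℝ) ≤ Real.log (Real.log X) ∧
      (4 * (B + 3) * (1 + 1 / ε)) * Real.log (Real.log X) ^ 1 ≤ Real.log X ^ (1 : ℝ) ∧
      Real.log X ^ (B + 1) ≤ (X : ℝ) ^ (1 / 2 : ℝ) ∧ 32 / η ≤ Real.log X := by
    filter_upwards [evt_log_ge 10000, evt_ll_ge 1, evt_ll 1 1 (4 * (B + 3) * (1 + 1 / ε)) one_pos,
      evt_log_pow (B + 1) (1 / 2) (by norm_num), evt_log_ge (32 / η)] with X a1 a2 a3 a4 a5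
    exact ⟨a1, a2, a3, a4, a5⟩
  obtain ⟨X0, hX0⟩ := eventually_atTop.1 hev
  refine ⟨X0, fun X hX => ?_⟩
  obtain ⟨hl, hm1, hml, hlX, hlη⟩ := hX0 X hX
  clear hX0 hev hX
  obtain ⟨f1, f2, f3, f4, f5, f6, f7⟩ := S_facts X hl
  rw [Real.rpow_one, pow_one] at hml
  rw [← Real.sqrt_eq_rpow] at hlX
  have hXr : (1 : ℝ) ≤ X := by exact_mod_cast f1
  have hX0 : (0 : ℝ) < X := by linarith
  have hsl : Real.log √(X : ℝ) = Real.log X / 2 := Real.log_sqrt hX0.le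
  have hs0 : 0 < √(X : ℝ) := Real.sqrt_pos.2 hX0
  have hss : √(X : ℝ) * √(X : ℝ) = X := Real.mul_self_sqrt hX0.le
  have hfl := Nat.lt_succ_sqrt' X
  generalize Real.log X = l at *
  obtain ⟨m, hm⟩ : ∃ m, m = Real.log l := ⟨_, rfl⟩
  rw [← hm] at hm1 hml
  generalize √(X : ℝ) = s at *
  have hl0 : 0 < l := by linarith
  have hl1 : 1 ≤ l := by linarith
  have hB0 : (0 : ℝ) ≤ B := Nat.cast_nonneg _
  have hpe : 0 < 1 / ε := by positivity
  have hml1 : 4 * (B + 2) * m ≤ ε * l := by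
    have h1 : 4 * ((B : ℝ) + 2) * m * (1 / ε) ≤ l := by
      refine le_trans ?_ hml
      have : 0 ≤ 4 * ((B : ℝ) + 2) * m * (1 / ε) := by positivity
      have e1 : 4 * ((B : ℝ) + 3) * (1 + 1 / ε) * m = 4 * ((B : ℝ) + 2) * m * (1 / ε) + 4 * m * (1 / ε) + 4 * (B + 3) * m := by ring
      have e2 : 0 ≤ 4 * m * (1 / ε) := by positivity
      have e3 : 0 ≤ 4 * ((B : ℝ) + 3) * m := by positivity
      linarith
    rw [mul_one_div, div_le_iff₀ hε] at h1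
    linarith
  have hml2 : 4 * m ≤ l := by
    refine le_trans ?_ hml
    have e1 : 4 * ((B : ℝ) + 3) * (1 + 1 / ε) * m = 4 * m + (4 * (B + 2) * m + 4 * (B + 3) * (1 / ε) * m) := by ring
    have e2 : 0 ≤ 4 * ((B : ℝ) + 2) * m + 4 * (B + 3) * (1 / ε) * m := by positivity
    linarith
  obtain ⟨D, hD⟩ : ∃ D, D = ⌊s / l⌋₊ := ⟨_, rfl⟩
  have hDle : (D : ℝ) ≤ s / l := by rw [hD]; exact Nat.floor_le (by positivity)
  have hDS : D ≤ Nat.sqrt X := by
    have h1 : (D : ℝ) ≤ Nat.sqrt X := by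
      refine hDle.trans ?_
      rw [div_le_iff₀ hl0]
      have : (0 : ℝ) < Nat.sqrt X := by exact_mod_cast (by omega : 0 < Nat.sqrt X)
      nlinarith
    exact_mod_cast h1
  refine ⟨(Icc 1 X).filter (fun K : ℕ => ∃ n : ℕ, vn K n ≤ D), ?_, ?_⟩
  · refine (near_sqD X D hDS).trans ?_
    have hS100 : (100 : ℝ) ≤ Nat.sqrt X := by exact_mod_cast f6
    have h1 : (1 : ℝ) ≤ s / l := by
      rw [one_le_div hl0]
      exact (le_self_pow₀ hl1 (by omega)).trans hlX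
    calc (2 * (D : ℝ) + 1) * ((Nat.sqrt X : ℝ) + 3) ≤ (3 * (s / l)) * (2 * s) := by
          apply mul_le_mul (by linarith) (by linarith) (by positivity) (by positivity)
      _ = 6 / l * X := by rw [← hss]; ring
      _ ≤ η * X := by
          apply mul_le_mul_of_nonneg_right _ hX0.le
          rw [div_le_iff₀ hl0]
          rw [div_le_iff₀ hη] at hlη
          linarith
  · intro K hK hKB n hn
    have hv : D < vn K n := by
      by_contra hc
      push Not at hc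
      exact hKB (mem_filter.2 ⟨hK, n, hc⟩)
    apply wt_ar l m ε B (vn K n) hl hm hm1 hml1 hml2 s hs0 hsl
    · have h1 := Nat.lt_floor_add_one (s / l)
      rw [← hD] at h1
      have h2 : ((D + 1 : ℕ) : ℝ) ≤ vn K n := by exact_mod_cast hv
      push_cast at h2
      linarith
    · have hK' := mem_Icc.1 hK
      have h1 : (Nat.sqrt K : ℝ) ≤ s := by
        refine le_trans ?_ f4
        exact_mod_cast Nat.sqrt_le_sqrt hK'.2
      have h2 := Nat.sqrt_le' K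
      have h3 := Nat.lt_succ_sqrt' K
      have hlB : 1 ≤ l ^ B := one_le_pow₀ hl1
      have h2r : ((Nat.sqrt K : ℕ) : ℝ) ^ 2 ≤ K := by exact_mod_cast h2
      have h3r : (K : ℝ) ≤ ((Nat.sqrt K : ℕ) : ℝ) ^ 2 + 2 * (Nat.sqrt K : ℕ) + 1 := by
        have : (K : ℝ) ≤ ((Nat.sqrt K : ℝ) + 1) ^ 2 := by exact_mod_cast h3.le
        linarith
      have hvr : (vn K n : ℝ) = |(n : ℝ) ^ 2 - K| := by
        unfold vn
        rw [Nat.cast_natAbs]
        push_cast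
        rfl
      rw [hvr]
      have hlls : l * l ^ B ≤ s := by rw [← pow_succ']; exact hlX
      have hlB2 : l ^ B ≤ s := by nlinarith
      have hk0 : (0 : ℝ) ≤ ((Nat.sqrt K : ℕ) : ℝ) := Nat.cast_nonneg _
      generalize ((Nat.sqrt K : ℕ) : ℝ) = k at *
      have h4 : |(n : ℝ) ^ 2 - K| ≤ |(n : ℝ) ^ 2 - k ^ 2| + |k ^ 2 - K| := abs_sub_le _ _ _
      have h5 : |k ^ 2 - (K : ℝ)| ≤ 2 * k + 1 := by rw [abs_le]; constructor <;> linarith
      have h6 : |(n : ℝ) ^ 2 - k ^ 2| ≤ (2 * l ^ B) * (2 * k + 2 * l ^ B) := by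
        have e1 : (n : ℝ) ^ 2 - k ^ 2 = ((n : ℝ) - k) * (n + k) := by ring
        rw [e1, abs_mul]
        apply mul_le_mul hn _ (abs_nonneg _) (by positivity)
        have h7 : 0 ≤ (n : ℝ) + k := by positivity
        rw [abs_of_nonneg h7]
        have := (abs_le.1 hn).2
        linarith
      have h7 : (2 * l ^ B) * (2 * k + 2 * l ^ B) ≤ (2 * l ^ B) * (4 * s) :=
        mul_le_mul_of_nonneg_left (by linarith) (by positivity)
      have h8 : 2 * k + 1 ≤ 3 * s * l ^ B := by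
        have : s * 1 ≤ s * l ^ B := mul_le_mul_of_nonneg_left hlB hs0.le
        linarith
      have h9 : s * l ^ (B + 1) = s * l ^ B * l := by ring
      have h10 : 0 < s * l ^ B := by positivity
      rw [h9]
      nlinarith

end Pool.Agent.TH892.OW
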