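import Pool.Agent.TH892.OW.B7
import Pool.Agent.TH892.SW.S11

/-!
One scale, interpolation between the scales, and windows.
-/

set_option autoImplicit false

namespace Pool.Agent.TH892.OW

open Finset Filter Topology
open Pool.Agent.H373R2.T7 (pz Vz lamz mem_pz Vz_ge Vz_inv_le Vz_le_one Vz_inv_small)
open Pool.Agent.TH892.SW (HP HP_nonneg vn wt wt_nonneg ff gK gK_eq)

lemma abs_vn (K n : ℕ) : |(n : ℤ) ^ 2 - K| = (vn K n : ℤ) := by
  unfold vn
  rw [Int.abs_eq_natAbs]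

lemma fz_vn (w z K n : ℕ) (h : 2 ≤ vn K n) : fz w z (|(n : ℤ) ^ 2 - K|) = lamz z (vn K n) - lamz w (vn K n) := by
  rw [abs_vn]
  unfold fz lz
  have h1 : (1 : ℤ) ≤ (vn K n : ℤ) := by exact_mod_cast (by omega : 1 ≤ vn K n)
  rw [if_pos h1, if_pos h1, Int.toNat_natCast]

/-- the number of primes in one window -/
noncomputable def cnt (K a n : ℕ) : ℝ := (((Ioc a n).filter (fun i => (vn K i).Prime)).card : ℝ)

/-- one scale -/
lemma one_scale (K w z a n : ℕ) (han : a ≤ n) (l h δ0 ε : ℝ) (hl : 0 < l) (hε : 0 < ε) (hε1 : ε ≤ 1 / 100)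
    (hδ0 : 0 ≤ δ0) (hh : 0 < h) (hδh : δ0 ≤ h) (hHP : |HP K w - h| ≤ ε * h) (hvn : ∀ i, 2 ≤ vn K i)
    (hG : |∑ i ∈ Ioc a n, ff z (|(i : ℤ) ^ 2 - K|)| ≤ (ε * δ0) * (((n : ℝ) - a) / l))
    (hF : |∑ i ∈ Ioc a n, fz w z (|(i : ℤ) ^ 2 - K|)| ≤ (ε * δ0) * ((n : ℝ) - a))
    (hwt : ∀ i ∈ Ioc a n, |wt (vn K i) - 2 / l| ≤ ε * (2 / l))
    (hmod : |∑ i ∈ Ioc a n, (lamz w (vn K i) - HP K w)| ≤ 2 * ε * HP K w * ((n : ℝ) - a)) :
    |cnt K a n - (2 / l * h) * ((n : ℝ) - a)| ≤ 6 * ε * ((2 / l * h) * ((n : ℝ) - a)) := by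
  obtain ⟨H, hH⟩ : ∃ H, H = (n : ℝ) - a := ⟨_, rfl⟩
  have hH0 : 0 ≤ H := by rw [hH, sub_nonneg]; exact_mod_cast han
  have hcard : ((#(Ioc a n) : ℕ) : ℝ) = H := by rw [Nat.card_Ioc, Nat.cast_sub han, hH]
  rw [← hH] at hG hF hmod ⊢
  obtain ⟨P, hP⟩ : ∃ P, P = ∑ i ∈ Ioc a n, lamz z (vn K i) := ⟨_, rfl⟩
  have e1 : ∑ i ∈ Ioc a n, fz w z (|(i : ℤ) ^ 2 - K|) = P - ∑ i ∈ Ioc a n, lamz w (vn K i) := by
    rw [hP, ← sum_sub_distrib]
    exact sum_congr rfl fun i _ => fz_vn w z K i (hvn i)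
  have e2 : ∑ i ∈ Ioc a n, (lamz w (vn K i) - HP K w) = ∑ i ∈ Ioc a n, lamz w (vn K i) - H * HP K w := by
    rw [sum_sub_distrib, sum_const, nsmul_eq_mul, hcard]
  rw [e1] at hF
  rw [e2] at hmod
  generalize ∑ i ∈ Ioc a n, lamz w (vn K i) = Q at *
  have e3 : cnt K a n = ∑ i ∈ Ioc a n, ff z (|(i : ℤ) ^ 2 - K|) + ∑ i ∈ Ioc a n, lamz z (vn K i) * wt (vn K i) := by
    unfold cnt
    rw [← sum_add_distrib, ← sum_boole]
    refine sum_congr rfl fun i _ => ?_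
    have := gK_eq z K i (hvn i)
    unfold gK at this
    rw [this]
    ring
  rw [e3]
  generalize ∑ i ∈ Ioc a n, ff z (|(i : ℤ) ^ 2 - K|) = G at *
  have e4 : |∑ i ∈ Ioc a n, lamz z (vn K i) * wt (vn K i) - 2 / l * P| ≤ ε * (2 / l) * P := by
    rw [hP, mul_sum, ← sum_sub_distrib, mul_sum]
    refine (abs_sum_le_sum_abs _ _).trans (sum_le_sum fun i hi => ?_)
    have h1 : lamz z (vn K i) * wt (vn K i) - 2 / l * lamz z (vn K i) = lamz z (vn K i) * (wt (vn K i) - 2 / l) := by ring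
    have h2 := Pool.Agent.H373R2.T7.lamz_nonneg z (vn K i)
    rw [h1, abs_mul, abs_of_nonneg h2, mul_comm (ε * (2 / l))]
    exact mul_le_mul_of_nonneg_left (hwt i hi) h2
  generalize ∑ i ∈ Ioc a n, lamz z (vn K i) * wt (vn K i) = W at *
  clear e1 e2 e3 hP hwt hvn hcard
  generalize HP K w = V at *
  have hV := abs_le.1 hHP
  have hV2 : V ≤ 101 / 100 * h := by
    have : ε * h ≤ 1 / 100 * h := mul_le_mul_of_nonneg_right hε1 hh.le
    linarith [hV.2]
  have hhH : 0 ≤ h * H := by positivity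
  have t1 : |P - h * H| ≤ 41 / 10 * ε * (h * H) := by
    have a1 : P - h * H = (P - Q) + (Q - H * V) + (V - h) * H := by ring
    rw [a1]
    refine (abs_add_le _ _).trans ?_
    have a2 := abs_add_le (P - Q) (Q - H * V)
    have a3 : |(V - h) * H| ≤ ε * h * H := by
      rw [abs_mul, abs_of_nonneg hH0]
      exact mul_le_mul_of_nonneg_right hHP hH0
    have a4 : (ε * δ0) * H ≤ ε * (h * H) := by
      have : ε * δ0 * H ≤ ε * h * H := by gcongr
      linarith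
    have a5 : 2 * ε * V * H ≤ 2 * ε * (101 / 100 * h) * H := by gcongr
    have a6 : 0 ≤ ε * (h * H) := by positivity
    have a7 : 2 * ε * (101 / 100 * h) * H = 202 / 100 * (ε * (h * H)) := by ring
    have a8 : 41 / 10 * ε * (h * H) = 41 / 10 * (ε * (h * H)) := by ring
    have a9 : ε * h * H = ε * (h * H) := by ring
    rw [a8]
    rw [a7] at a5
    rw [a9] at a3
    linarith
  have hP2 : P ≤ 11 / 10 * (h * H) := by
    have a1 := (abs_le.1 t1).2
    have a2 : 41 / 10 * ε * (h * H) ≤ 41 / 10 * (1 / 100) * (h * H) := by gcongr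
    linarith
  have a1 : G + W - 2 / l * h * H = G + (W - 2 / l * P) + 2 / l * (P - h * H) := by ring
  rw [a1]
  refine (abs_add_le _ _).trans ?_
  have a2 := abs_add_le G (W - 2 / l * P)
  have hl2 : 0 < 2 / l := by positivity
  have a3 : |2 / l * (P - h * H)| ≤ 2 / l * (41 / 10 * ε * (h * H)) := by
    rw [abs_mul, abs_of_pos hl2]
    exact mul_le_mul_of_nonneg_left t1 hl2.le
  have a4 : ε * (2 / l) * P ≤ ε * (2 / l) * (11 / 10 * (h * H)) := mul_le_mul_of_nonneg_left hP2 (by positivity)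
  have a5 : (ε * δ0) * (H / l) ≤ (ε * h) * (H / l) := by
    apply mul_le_mul_of_nonneg_right _ (by positivity)
    exact mul_le_mul_of_nonneg_left hδh hε.le
  have a6 : (ε * h) * (H / l) = 1 / 2 * (ε * (2 / l * (h * H))) := by ring
  have a7 : 2 / l * (41 / 10 * ε * (h * H)) = 41 / 10 * (ε * (2 / l * (h * H))) := by ring
  have a8 : ε * (2 / l) * (11 / 10 * (h * H)) = 11 / 10 * (ε * (2 / l * (h * H))) := by ring
  have a9 : 6 * ε * (2 / l * h * H) = 6 * (ε * (2 / l * (h * H))) := by ring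
  have a10 : 0 ≤ ε * (2 / l * (h * H)) := by positivity
  rw [a9]
  rw [a6] at a5
  rw [a7] at a3
  rw [a8] at a4
  linarith

/-- interpolation -/
lemma interp (R : ℕ → ℝ) (hR : Monotone R) (hR0 : ∀ j, 0 ≤ R j) (T0 l δ q ε M : ℝ) (hT0 : 1 ≤ T0) (hl : 1 ≤ l) (hδ : 0 < δ)
    (hδ1 : δ ≤ 1 / 4) (hδl : 1 ≤ δ * l) (hq : 0 < q) (hε : 0 ≤ ε) (hε1 : ε ≤ 1)
    (hs : ∀ k : ℕ, (sc T0 l δ k : ℝ) ≤ M → |R (sc T0 l δ k) - q * sc T0 l δ k| ≤ ε * (q * sc T0 l δ k))
    (hM : T0 * l ≤ M) (j : ℕ) (hj : 2 * (j : ℝ) ≤ M) :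
    |R j - q * j| ≤ q * ((2 * ε + 2 * δ) * j + 2 * (T0 * l)) := by
  have hTl : 0 < T0 * l := by positivity
  have hj0 : (0 : ℝ) ≤ j := Nat.cast_nonneg _
  rcases lt_or_ge (j : ℝ) (T0 * l) with h1 | h1
  · have h2 : sc T0 l δ 0 = ⌊T0 * l⌋₊ := by unfold sc; simp
    have h3 : (sc T0 l δ 0 : ℝ) ≤ T0 * l := by rw [h2]; exact Nat.floor_le hTl.le
    have h4 : j ≤ sc T0 l δ 0 := by rw [h2]; exact Nat.le_floor h1.le
    have h5 := hs 0 (h3.trans hM)
    have h6 := hR h4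
    have h7 := (abs_le.1 h5).2
    have h8 : q * (sc T0 l δ 0 : ℝ) ≤ q * (T0 * l) := mul_le_mul_of_nonneg_left h3 hq.le
    have h9 : ε * (q * sc T0 l δ 0) ≤ 1 * (q * (T0 * l)) := by
      apply mul_le_mul hε1 h8 (by positivity) (by norm_num)
    have h10 : q * (j : ℝ) ≤ q * (T0 * l) := mul_le_mul_of_nonneg_left h1.le hq.le
    have h11 : 0 ≤ q * ((2 * ε + 2 * δ) * j) := by positivity
    have h12 : 0 ≤ q * (j : ℝ) := by positivity
    have h13 := hR0 j
    rw [abs_le, mul_add]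
    constructor <;> linarith
  · obtain ⟨k, hk1, hk2⟩ := exists_nat_pow_near (x := (j : ℝ) / (T0 * l)) (y := 1 + δ)
      (by rw [one_le_div hTl]; exact h1) (by linarith)
    rw [le_div_iff₀ hTl] at hk1
    rw [div_lt_iff₀ hTl] at hk2
    have hjl : l ≤ j := by
      have : 1 * l ≤ T0 * l := mul_le_mul_of_nonneg_right hT0 (by linarith)
      linarith
    -- the two scales
    have a1 : (sc T0 l δ k : ℝ) ≤ j := by
      have := Nat.floor_le (show 0 ≤ T0 * l * (1 + δ) ^ k by positivity)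
      unfold sc
      linarith
    have a2 : j ≤ sc T0 l δ (k + 1) := by
      unfold sc
      apply Nat.le_floor
      linarith
    have a3 : (sc T0 l δ (k + 1) : ℝ) ≤ (1 + δ) * j := by
      have := Nat.floor_le (show 0 ≤ T0 * l * (1 + δ) ^ (k + 1) by positivity)
      have e1 : T0 * l * (1 + δ) ^ (k + 1) = (1 + δ) * ((1 + δ) ^ k * (T0 * l)) := by ring
      unfold sc
      refine this.trans ?_
      rw [e1]
      exact mul_le_mul_of_nonneg_left hk1 (by linarith)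
    have a4 : (1 - 2 * δ) * j ≤ (sc T0 l δ k : ℝ) := by
      have h3 := Nat.lt_floor_add_one (T0 * l * (1 + δ) ^ k)
      have h4 : (j : ℝ) < (1 + δ) * (T0 * l * (1 + δ) ^ k) := by
        have : (1 + δ) ^ (k + 1) * (T0 * l) = (1 + δ) * (T0 * l * (1 + δ) ^ k) := by ring
        linarith
      have h5 : (1 - δ) * (j : ℝ) ≤ T0 * l * (1 + δ) ^ k := by
        have h6 : (1 - δ) * (j : ℝ) ≤ (1 - δ) * ((1 + δ) * (T0 * l * (1 + δ) ^ k)) :=
          mul_le_mul_of_nonneg_left h4.le (by linarith)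
        have h7 : (1 - δ) * ((1 + δ) * (T0 * l * (1 + δ) ^ k)) = T0 * l * (1 + δ) ^ k - δ ^ 2 * (T0 * l * (1 + δ) ^ k) := by ring
        have h8 : 0 ≤ δ ^ 2 * (T0 * l * (1 + δ) ^ k) := by positivity
        linarith
      have h6 : 1 ≤ δ * j := hδl.trans (mul_le_mul_of_nonneg_left hjl hδ.le)
      have e1 : (1 - 2 * δ) * (j : ℝ) = (1 - δ) * j - δ * j := by ring
      unfold sc
      rw [e1]
      linarith
    have a5 : (sc T0 l δ (k + 1) : ℝ) ≤ M := by
      refine a3.trans ?_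
      have : (1 + δ) * (j : ℝ) ≤ 2 * j := mul_le_mul_of_nonneg_right (by linarith) hj0
      linarith
    have b1 := (abs_le.1 (hs (k + 1) a5)).2
    have b2 := (abs_le.1 (hs k (by
      have : (j : ℝ) ≤ 2 * j := by linarith
      linarith))).1
    have b3 := hR a2
    have b4 : R (sc T0 l δ k) ≤ R j := hR (by exact_mod_cast a1)
    have c1 : q * (sc T0 l δ (k + 1) : ℝ) ≤ q * ((1 + δ) * j) := mul_le_mul_of_nonneg_left a3 hq.le
    have c2 : q * ((1 - 2 * δ) * j) ≤ q * (sc T0 l δ k : ℝ) := mul_le_mul_of_nonneg_left a4 hq.le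
    have c3 : ε * (q * sc T0 l δ (k + 1)) ≤ ε * (q * ((1 + δ) * j)) := mul_le_mul_of_nonneg_left c1 hε
    have c4 : ε * (q * sc T0 l δ k) ≤ ε * (q * j) :=
      mul_le_mul_of_nonneg_left (mul_le_mul_of_nonneg_left a1 hq.le) hε
    have c5 : ε * (q * ((1 + δ) * j)) ≤ 2 * ε * (q * j) := by
      have h3 : ε * (q * ((1 + δ) * j)) = (1 + δ) * (ε * (q * j)) := by ring
      have h4 : 0 ≤ ε * (q * j) := by positivity
      rw [h3]
      have h5 := mul_le_mul_of_nonneg_right (show 1 + δ ≤ 2 by linarith) h4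
      linarith
    have h0 : 0 ≤ ε * (q * (j : ℝ)) := by positivity
    have h00 : 0 ≤ q * (2 * (T0 * l)) := by positivity
    have h01 : 0 ≤ q * (δ * (j : ℝ)) := by positivity
    have e1 : q * ((2 * ε + 2 * δ) * j + 2 * (T0 * l)) = 2 * ε * (q * j) + 2 * (q * (δ * j)) + q * (2 * (T0 * l)) := by ring
    have e2 : q * ((1 + δ) * j) = q * j + q * (δ * j) := by ring
    have e3 : q * ((1 - 2 * δ) * (j : ℝ)) = q * j - 2 * (q * (δ * j)) := by ring
    rw [e1, abs_le]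
    rw [e2] at c1
    rw [e3] at c2
    constructor <;> linarith

lemma cnt_split (K a b c : ℕ) (hab : a ≤ b) (hbc : b ≤ c) : cnt K a c = cnt K a b + cnt K b c := by
  unfold cnt
  have h1 : Ioc a c = Ioc a b ∪ Ioc b c := by
    ext x; rw [mem_union, mem_Ioc, mem_Ioc, mem_Ioc]; omega
  have h2 : Disjoint ((Ioc a b).filter (fun i => (vn K i).Prime)) ((Ioc b c).filter (fun i => (vn K i).Prime)) := by
    rw [disjoint_left]
    intro x hx hx2
    rw [mem_filter, mem_Ioc] at hx hx2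
    omega
  rw [h1, filter_union, card_union_of_disjoint h2]
  push_cast
  rfl

lemma cnt_nonneg (K a n : ℕ) : 0 ≤ cnt K a n := by unfold cnt; positivity

lemma cnt_mono_r (K s : ℕ) : Monotone (fun j => cnt K s (s + j)) := by
  intro i j hij
  simp only
  rw [cnt_split K s (s + i) (s + j) (by omega) (by omega)]
  have := cnt_nonneg K (s + i) (s + j)
  linarith

lemma cnt_mono_l (K s : ℕ) : Monotone (fun j => cnt K (s - j) s) := by
  intro i j hij
  simp only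
  rw [cnt_split K (s - j) (s - i) s (by omega) (by omega)]
  have := cnt_nonneg K (s - j) (s - i)
  linarith

/-- windows from the two one-sided bounds -/
lemma window_from (K s m N : ℕ) (q a b D : ℝ) (hmN : m ≤ N) (hq : 0 ≤ q) (ha : 0 ≤ a) (hb : 0 ≤ b)
    (hr : ∀ j : ℕ, (j : ℝ) ≤ D → |cnt K s (s + j) - q * j| ≤ q * (a * j + b))
    (hl : ∀ j : ℕ, (j : ℝ) ≤ D → j ≤ s → |cnt K (s - j) s - q * j| ≤ q * (a * j + b))
    (hm : |(m : ℝ) - s| ≤ D) (hN : |(N : ℝ) - s| ≤ D) :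
    |cnt K m N - q * ((N : ℝ) - m)| ≤ q * (a * (|(N : ℝ) - s| + |(m : ℝ) - s|) + 2 * b) := by
  have key : ∀ n : ℕ, |(n : ℝ) - s| ≤ D → |cnt K 0 n - cnt K 0 s - q * ((n : ℝ) - s)| ≤ q * (a * |(n : ℝ) - s| + b) := by
    intro n hn
    rcases Nat.le_total s n with h | h
    · have h1 : cnt K 0 n = cnt K 0 s + cnt K s n := cnt_split K 0 s n (by omega) h
      have h2 : (0 : ℝ) ≤ (n : ℝ) - s := by rw [sub_nonneg]; exact_mod_cast h
      rw [abs_of_nonneg h2] at hn ⊢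
      have h3 := hr (n - s) (by rw [Nat.cast_sub h]; exact hn)
      rw [Nat.cast_sub h, show s + (n - s) = n by omega] at h3
      have h4 : cnt K 0 n - cnt K 0 s - q * ((n : ℝ) - s) = cnt K s n - q * ((n : ℝ) - s) := by rw [h1]; ring
      rw [h4]
      exact h3
    · have h1 : cnt K 0 s = cnt K 0 n + cnt K n s := cnt_split K 0 n s (by omega) h
      have h2 : (n : ℝ) - s ≤ 0 := by rw [sub_nonpos]; exact_mod_cast h
      rw [abs_of_nonpos h2] at hn ⊢
      have h3 := hl (s - n) (by rw [Nat.cast_sub h]; linarith) (by omega)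
      rw [Nat.cast_sub h, show s - (s - n) = n by omega] at h3
      have h4 : cnt K 0 n - cnt K 0 s - q * ((n : ℝ) - s) = -(cnt K n s - q * ((s : ℝ) - n)) := by rw [h1]; ring
      rw [h4, abs_neg]
      have h5 : -((n : ℝ) - s) = (s : ℝ) - n := by ring
      rw [h5]
      exact h3
  have h1 := key m hm
  have h2 := key N hN
  have h3 : cnt K 0 N = cnt K 0 m + cnt K m N := cnt_split K 0 m N (by omega) hmN
  have h4 : cnt K m N - q * ((N : ℝ) - m) = (cnt K 0 N - cnt K 0 s - q * ((N : ℝ) - s)) -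
      (cnt K 0 m - cnt K 0 s - q * ((m : ℝ) - s)) := by rw [h3]; ring
  rw [h4]
  refine (abs_sub _ _).trans ?_
  have h5 : q * (a * (|(N : ℝ) - s| + |(m : ℝ) - s|) + 2 * b) =
      q * (a * |(N : ℝ) - s| + b) + q * (a * |(m : ℝ) - s| + b) := by ring
  rw [h5]
  linarith

end Pool.Agent.TH892.OW
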