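import Pool.Agent.TH892.OW.B8

/-!
All windows of length at least a large constant times `log X`, for almost all `K`.
-/

set_option autoImplicit false

namespace Pool.Agent.TH892.OW

open Finset Filter Topology
open Pool.Agent.H373R2.T7 (pz Vz lamz mem_pz Vz_ge Vz_inv_le Vz_le_one Vz_inv_small)
open Pool.Agent.TH892.SW (HP HP_nonneg vn wt wt_nonneg ff gK gK_eq model)
open Pool.Agent.H442R2.EHI (evt_log_pow evt_log_ge)

/-- one `K` -/
lemma one_K (K w z B1 b C1 : ℕ) (l h δ0 ε1 T0 κ : ℝ) (hl : 10000 ≤ l) (hκ : 0 < κ) (hε : 0 < ε1) (hε1 : ε1 ≤ 1 / 100)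
    (hδ0 : 0 < δ0) (hh : 0 < h) (hδh : δ0 ≤ h) (hT0 : 1 ≤ T0) (hHP : |HP K w - h| ≤ ε1 * h) (hvn : ∀ i, 2 ≤ vn K i)
    (hlε : 6 / ε1 ≤ √l) (hlT : T0 ≤ l) (hlκ : 2 * (κ + 2) ≤ l) (hB1 : 1 ≤ B1)
    (hb : (1 / 2 : ℝ) ^ b ≤ ε1 / 2) (hwb : (w : ℝ) ^ (C1 * b) ≤ √l)
    (hmod : ∀ a n : ℕ, a ≤ n → |∑ i ∈ Ioc a n, (lamz w (vn K i) - HP K w)| ≤
      2 * (1 / 2 : ℝ) ^ b * HP K w * ((n : ℝ) - a) + 3 * (w : ℝ) ^ (C1 * b) * HP K w)
    (hsq : l ^ (B1 + 1) ≤ Nat.sqrt K)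
    (hgrid : ∀ k : ℕ, (sc T0 l ε1 k : ℝ) ≤ l ^ (B1 + 1) →
        |RS (ff z) K (sc T0 l ε1 k)| ≤ ε1 * δ0 * ((sc T0 l ε1 k : ℝ) / l) ∧
        |LS (ff z) K (sc T0 l ε1 k)| ≤ ε1 * δ0 * ((sc T0 l ε1 k : ℝ) / l) ∧
        |RS (fz w z) K (sc T0 l ε1 k)| ≤ ε1 * δ0 * (sc T0 l ε1 k : ℝ) ∧
        |LS (fz w z) K (sc T0 l ε1 k)| ≤ ε1 * δ0 * (sc T0 l ε1 k : ℝ))
    (hwt : ∀ n : ℕ, |(n : ℝ) - Nat.sqrt K| ≤ 2 * l ^ (B1 + 1) → |wt (vn K n) - 2 / l| ≤ ε1 * (2 / l))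
    (m N : ℕ) (hmN : m < N) (hH1 : (N : ℝ) - m ≤ l ^ B1) (hmK : |(m : ℝ) - √(K : ℝ)| ≤ κ * ((N : ℝ) - m))
    (hTH : T0 / ε1 * l ≤ (N : ℝ) - m) :
    |cnt K m N - h * ∑ i ∈ Ioc m N, wt (vn K i)| ≤ (100 * (κ + 1) * ε1) * (h * ∑ i ∈ Ioc m N, wt (vn K i)) := by
  have hl0 : 0 < l := by linarith
  have hl1 : 1 ≤ l := by linarith
  have hlB0 : 0 < l ^ (B1 + 1) := by positivity
  obtain ⟨s, hs⟩ : ∃ s, s = Nat.sqrt K := ⟨_, rfl⟩
  have hsK : (s : ℝ) ≤ √(K : ℝ) := by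
    apply Real.le_sqrt_of_sq_le
    rw [hs]; exact_mod_cast Nat.sqrt_le' K
  have hsK2 : √(K : ℝ) ≤ s + 1 := by
    rw [Real.sqrt_le_left (by positivity), hs]
    exact_mod_cast (Nat.lt_succ_sqrt' K).le
  unfold RS LS at hgrid
  rw [← hs] at hsq hgrid hwt
  obtain ⟨q, hq⟩ : ∃ q, q = 2 / l * h := ⟨_, rfl⟩
  have hq0 : 0 < q := by rw [hq]; positivity
  have hHP0 := HP_nonneg K w
  -- scales
  have hbig : ∀ k : ℕ, 3 * √l ≤ ε1 * (sc T0 l ε1 k : ℝ) := by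
    intro k
    have hp1 : 1 ≤ (1 + ε1) ^ k := one_le_pow₀ (by linarith)
    have h3 := Nat.lt_floor_add_one (T0 * l * (1 + ε1) ^ k)
    have h4 : 1 * l * 1 ≤ T0 * l * (1 + ε1) ^ k := by gcongr
    have h5 : l / 2 ≤ (sc T0 l ε1 k : ℝ) := by
      unfold sc
      linarith
    have h6 : √l * √l = l := Real.mul_self_sqrt hl0.le
    rw [div_le_iff₀ hε] at hlε
    have h7 : 0 < √l := Real.sqrt_pos.2 hl0
    have h8 : 6 * √l ≤ ε1 * l := by
      calc 6 * √l ≤ (√l * ε1) * √l := mul_le_mul_of_nonneg_right hlε h7.le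
        _ = ε1 * (√l * √l) := by ring
        _ = ε1 * l := by rw [h6]
    have h9 := mul_le_mul_of_nonneg_left h5 hε.le
    linarith
  have hmod2 : ∀ a n k : ℕ, a ≤ n → (n : ℝ) - a = sc T0 l ε1 k →
      |∑ i ∈ Ioc a n, (lamz w (vn K i) - HP K w)| ≤ 2 * ε1 * HP K w * ((n : ℝ) - a) := by
    intro a n k han hk
    refine (hmod a n han).trans ?_
    rw [hk]
    have h1 := hbig k
    have h2 : 2 * (1 / 2 : ℝ) ^ b * HP K w * (sc T0 l ε1 k : ℝ) ≤ 2 * (ε1 / 2) * HP K w * (sc T0 l ε1 k : ℝ) := by gcongr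
    have h3 : 3 * (w : ℝ) ^ (C1 * b) * HP K w ≤ (ε1 * (sc T0 l ε1 k : ℝ)) * HP K w := by
      apply mul_le_mul_of_nonneg_right _ hHP0
      linarith
    linarith
  have hR : ∀ k : ℕ, (sc T0 l ε1 k : ℝ) ≤ l ^ (B1 + 1) →
      |cnt K s (s + sc T0 l ε1 k) - q * sc T0 l ε1 k| ≤ (6 * ε1) * (q * sc T0 l ε1 k) := by
    intro k hk
    obtain ⟨g1, g2, g3, g4⟩ := hgrid k hk
    have e1 : ((s + sc T0 l ε1 k : ℕ) : ℝ) - s = sc T0 l ε1 k := by push_cast; ring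
    have h1 := one_scale K w z s (s + sc T0 l ε1 k) (by omega) l h δ0 ε1 hl0 hε hε1 hδ0.le hh hδh hHP hvn
      (by rw [e1]; exact g1) (by rw [e1]; exact g3) (by
        intro i hi
        rw [mem_Ioc] at hi
        apply hwt
        have h2 : (s : ℝ) < i := by exact_mod_cast hi.1
        have h3 : (i : ℝ) ≤ s + sc T0 l ε1 k := by exact_mod_cast hi.2
        rw [abs_of_pos (by linarith)]
        linarith) (hmod2 s (s + sc T0 l ε1 k) k (by omega) e1)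
    rw [e1, ← hq] at h1
    exact h1
  have hL : ∀ k : ℕ, (sc T0 l ε1 k : ℝ) ≤ l ^ (B1 + 1) →
      |cnt K (s - sc T0 l ε1 k) s - q * sc T0 l ε1 k| ≤ (6 * ε1) * (q * sc T0 l ε1 k) := by
    intro k hk
    obtain ⟨g1, g2, g3, g4⟩ := hgrid k hk
    have hks : sc T0 l ε1 k ≤ s := by
      have : (sc T0 l ε1 k : ℝ) ≤ s := hk.trans hsq
      exact_mod_cast this
    have e0 : ((s - sc T0 l ε1 k : ℕ) : ℝ) = s - sc T0 l ε1 k := by rw [Nat.cast_sub hks]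
    have e1 : (s : ℝ) - ((s - sc T0 l ε1 k : ℕ) : ℝ) = sc T0 l ε1 k := by rw [e0]; ring
    have h1 := one_scale K w z (s - sc T0 l ε1 k) s (by omega) l h δ0 ε1 hl0 hε hε1 hδ0.le hh hδh hHP hvn
      (by rw [e1]; exact g2) (by rw [e1]; exact g4) (by
        intro i hi
        rw [mem_Ioc] at hi
        apply hwt
        have h2 : ((s - sc T0 l ε1 k : ℕ) : ℝ) < i := by exact_mod_cast hi.1
        rw [e0] at h2
        have h3 : (i : ℝ) ≤ s := by exact_mod_cast hi.2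
        rw [abs_of_nonpos (by linarith)]
        linarith) (hmod2 (s - sc T0 l ε1 k) s k (by omega) e1)
    rw [e1, ← hq] at h1
    exact h1
  -- interpolation
  have hM : T0 * l ≤ l ^ (B1 + 1) := by
    calc T0 * l ≤ l * l := mul_le_mul_of_nonneg_right hlT hl0.le
      _ = l ^ 2 := by ring
      _ ≤ l ^ (B1 + 1) := pow_le_pow_right₀ hl1 (by omega)
  have hεl : 1 ≤ ε1 * l := by
    rw [div_le_iff₀ hε] at hlε
    have h1 : √l ≤ l := by rw [Real.sqrt_le_left hl0.le]; nlinarith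
    nlinarith
  have hRj : ∀ j : ℕ, (j : ℝ) ≤ l ^ (B1 + 1) / 2 → |cnt K s (s + j) - q * j| ≤ q * ((14 * ε1) * j + 2 * (T0 * l)) := by
    intro j hj
    have h1 := interp (fun j => cnt K s (s + j)) (cnt_mono_r K s) (fun j => cnt_nonneg K _ _) T0 l ε1 q (6 * ε1)
      (l ^ (B1 + 1)) hT0 hl1 hε (by linarith) hεl hq0 (by linarith) (by linarith) hR hM j (by linarith)
    have e1 : 2 * (6 * ε1) + 2 * ε1 = 14 * ε1 := by ring
    rw [e1] at h1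
    exact h1
  have hLj : ∀ j : ℕ, (j : ℝ) ≤ l ^ (B1 + 1) / 2 → j ≤ s → |cnt K (s - j) s - q * j| ≤ q * ((14 * ε1) * j + 2 * (T0 * l)) := by
    intro j hj _
    have h1 := interp (fun j => cnt K (s - j) s) (cnt_mono_l K s) (fun j => cnt_nonneg K _ _) T0 l ε1 q (6 * ε1)
      (l ^ (B1 + 1)) hT0 hl1 hε (by linarith) hεl hq0 (by linarith) (by linarith) hL hM j (by linarith)
    have e1 : 2 * (6 * ε1) + 2 * ε1 = 14 * ε1 := by ring
    rw [e1] at h1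
    exact h1
  -- the window
  obtain ⟨H, hH⟩ : ∃ H, H = (N : ℝ) - m := ⟨_, rfl⟩
  have hH1' : 1 ≤ H := by
    have : ((m : ℝ) + 1) ≤ N := by exact_mod_cast hmN
    rw [hH]; linarith
  rw [← hH] at hH1 hmK hTH
  have hms : |(m : ℝ) - s| ≤ (κ + 1) * H := by
    have h1 : |(m : ℝ) - s| ≤ |(m : ℝ) - √K| + |√(K : ℝ) - s| := abs_sub_le _ _ _
    have h2 : |√(K : ℝ) - s| ≤ 1 := by rw [abs_le]; constructor <;> linarith
    linarith
  have hNs : |(N : ℝ) - s| ≤ (κ + 2) * H := by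
    have h1 : |(N : ℝ) - s| ≤ |(N : ℝ) - m| + |(m : ℝ) - s| := abs_sub_le _ _ _
    have h2 : |(N : ℝ) - m| = H := by rw [← hH]; exact abs_of_nonneg (by linarith)
    linarith
  have hDD : (κ + 2) * H ≤ l ^ (B1 + 1) / 2 := by
    calc (κ + 2) * H ≤ (l / 2) * l ^ B1 := mul_le_mul (by linarith) hH1 (by linarith) (by positivity)
      _ = _ := by ring
  have hms' : |(m : ℝ) - s| ≤ l ^ (B1 + 1) / 2 := by
    have : (κ + 1) * H ≤ (κ + 2) * H := mul_le_mul_of_nonneg_right (by linarith) (by linarith)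
    linarith
  have hw1 := window_from K s m N q (14 * ε1) (2 * (T0 * l)) (l ^ (B1 + 1) / 2) hmN.le hq0.le (by positivity) (by positivity)
    hRj hLj hms' (hNs.trans hDD)
  rw [← hH] at hw1
  have hTl : T0 * l ≤ ε1 * H := by
    have h1 : T0 / ε1 * l = (T0 * l) / ε1 := by ring
    rw [h1, div_le_iff₀ hε] at hTH
    linarith
  have hw2 : |cnt K m N - q * H| ≤ (ε1 * (28 * κ + 46)) * (q * H) := by
    refine hw1.trans ?_
    have h1 : 14 * ε1 * (|(N : ℝ) - s| + |(m : ℝ) - s|) ≤ 14 * ε1 * ((2 * κ + 3) * H) := by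
      apply mul_le_mul_of_nonneg_left _ (by positivity)
      linarith
    calc q * (14 * ε1 * (|(N : ℝ) - s| + |(m : ℝ) - s|) + 2 * (2 * (T0 * l))) ≤
        q * (14 * ε1 * ((2 * κ + 3) * H) + 2 * (2 * (ε1 * H))) := by
          apply mul_le_mul_of_nonneg_left _ hq0.le
          linarith
      _ = _ := by ring
  -- the weights
  have hS : |∑ i ∈ Ioc m N, wt (vn K i) - 2 / l * H| ≤ ε1 * (2 / l * H) := by
    have hc : ((#(Ioc m N) : ℕ) : ℝ) = H := by rw [Nat.card_Ioc, Nat.cast_sub hmN.le, hH]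
    have e1 : ∑ i ∈ Ioc m N, wt (vn K i) - 2 / l * H = ∑ i ∈ Ioc m N, (wt (vn K i) - 2 / l) := by
      rw [sum_sub_distrib, sum_const, nsmul_eq_mul, hc]; ring
    rw [e1]
    refine (abs_sum_le_sum_abs _ _).trans ?_
    calc ∑ i ∈ Ioc m N, |wt (vn K i) - 2 / l| ≤ ∑ _i ∈ Ioc m N, ε1 * (2 / l) := by
          refine sum_le_sum fun i hi => ?_
          rw [mem_Ioc] at hi
          apply hwt
          have h1 : (m : ℝ) ≤ i := by exact_mod_cast hi.1.le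
          have h2 : (i : ℝ) ≤ N := by exact_mod_cast hi.2
          have h3 := abs_le.1 hms'
          have h4 := abs_le.1 (hNs.trans hDD)
          rw [abs_le]
          constructor <;> linarith [h3.1, h4.2]
      _ = ε1 * (2 / l * H) := by rw [sum_const, nsmul_eq_mul, hc]; ring
  generalize ∑ i ∈ Ioc m N, wt (vn K i) = W at *
  generalize cnt K m N = Cn at *
  clear hw1 hRj hLj hR hL hmod2 hbig hgrid hwt hmod
  have hqH : 0 < q * H := by positivity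
  have hWH : |h * W - q * H| ≤ ε1 * (q * H) := by
    have e1 : h * W - q * H = h * (W - 2 / l * H) := by rw [hq]; ring
    rw [e1, abs_mul, abs_of_pos hh]
    calc h * |W - 2 / l * H| ≤ h * (ε1 * (2 / l * H)) := mul_le_mul_of_nonneg_left hS hh.le
      _ = _ := by rw [hq]; ring
  have h1 := abs_le.1 hWH
  have h2 : q * H ≤ 2 * (h * W) := by
    have : ε1 * (q * H) ≤ 1 / 2 * (q * H) := mul_le_mul_of_nonneg_right (by linarith) hqH.le
    linarith [h1.1]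
  have h3 : |Cn - h * W| ≤ |Cn - q * H| + |q * H - h * W| := abs_sub_le _ _ _
  rw [abs_sub_comm (q * H)] at h3
  calc |Cn - h * W| ≤ (ε1 * (28 * κ + 46)) * (q * H) + ε1 * (q * H) := by linarith
    _ = (ε1 * (28 * κ + 47)) * (q * H) := by ring
    _ ≤ (ε1 * (28 * κ + 47)) * (2 * (h * W)) := mul_le_mul_of_nonneg_left h2 (by positivity)
    _ = (ε1 * (56 * κ + 94)) * (h * W) := by ring
    _ ≤ (100 * (κ + 1) * ε1) * (h * W) := by
        apply mul_le_mul_of_nonneg_right _ (by linarith)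
        nlinarith

theorem core2 (κ ε : ℝ) (hκ : 0 < κ) (hε : 0 < ε) (B1 : ℕ) (hB1 : 1 ≤ B1) : ∃ T : ℝ, 0 < T ∧ ∃ X0 : ℕ, ∀ X : ℕ, X0 ≤ X →
    ∃ Bad : Finset ℕ, (#Bad : ℝ) ≤ ε * X ∧ ∀ K ∈ Icc 1 X, K ∉ Bad → (∀ i, 2 ≤ vn K i) →
    ∀ h : ℝ, 0 < h → Tendsto (fun N => HP K N) atTop (𝓝 h) → ∀ m N : ℕ, m < N → (N : ℝ) - m ≤ Real.log X ^ B1 →
      |(m : ℝ) - √(K : ℝ)| ≤ κ * ((N : ℝ) - m) → T * Real.log X ≤ (N : ℝ) - m →
      |cnt K m N - h * ∑ i ∈ Ioc m N, wt (vn K i)| ≤ ε * (h * ∑ i ∈ Ioc m N, wt (vn K i)) := by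
  classical
  obtain ⟨δ0, hδ0, hgood⟩ := h_good (ε / 8) (by positivity)
  obtain ⟨ε1, hε1d⟩ : ∃ ε1, ε1 = min (ε / (100 * (κ + 1))) (1 / 100) := ⟨_, rfl⟩
  have hε10 : 0 < ε1 := by rw [hε1d]; positivity
  have hε11 : ε1 ≤ 1 / 100 := by rw [hε1d]; exact min_le_right _ _
  have hε12 : 100 * (κ + 1) * ε1 ≤ ε := by
    have h1 : ε1 ≤ ε / (100 * (κ + 1)) := by rw [hε1d]; exact min_le_left _ _
    rw [le_div_iff₀ (by positivity)] at h1
    linarith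
  obtain ⟨Ea, hEa⟩ := hgood ε1 hε10
  obtain ⟨T0, hT0, Eb, hEb⟩ := grid_bad (B1 + 1) (by omega) (ε1 * δ0) ε1 (ε / 8) (by positivity) hε10 (by positivity)
  obtain ⟨C1, y0, hC1, hy0, hmodel⟩ := model
  obtain ⟨b0, hb0⟩ := exists_pow_lt_of_lt_one (show (0 : ℝ) < ε1 / 2 by positivity) (show (1 / 2 : ℝ) < 1 by norm_num)
  obtain ⟨b, hb⟩ : ∃ b, b = max b0 C1 := ⟨_, rfl⟩
  have hbε : (1 / 2 : ℝ) ^ b ≤ ε1 / 2 :=
    (pow_le_pow_of_le_one (by norm_num) (by norm_num) (by omega)).trans hb0.le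
  obtain ⟨u, hu⟩ : ∃ u, u = 2 * (C1 * b) := ⟨_, rfl⟩
  have hCb : 1 ≤ C1 * b := Nat.mul_pos (by omega) (by omega)
  have hu1 : 1 ≤ u := by omega
  have hur : (0 : ℝ) < u := by exact_mod_cast hu1
  obtain ⟨Xa, hXa⟩ := hEa (max Ea Eb) (le_max_left _ _) u hu1
  obtain ⟨Xb, hXb⟩ := hEb (max Ea Eb) (le_max_right _ _) u hu1
  obtain ⟨Xc, hXc⟩ := wt_good (B1 + 1) (by omega) (ε / 8) ε1 (by positivity) hε10
  have hev : ∀ᶠ X : ℕ in atTop, (10000 : ℝ) ≤ Real.log X ∧ (6 / ε1) ^ 2 ≤ Real.log X ∧ T0 ≤ Real.log X ∧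
      2 * (κ + 2) ≤ Real.log X ∧ ((y0 + 1 : ℕ) : ℝ) * Real.log (Real.log X) ^ 0 ≤ Real.log X ^ (1 / (u : ℝ)) := by
    filter_upwards [evt_log_ge 10000, evt_log_ge ((6 / ε1) ^ 2), evt_log_ge T0, evt_log_ge (2 * (κ + 2)),
      evt_ll 0 (1 / (u : ℝ)) ((y0 + 1 : ℕ) : ℝ) (by positivity)] with X a1 a2 a3 a4 a5
    exact ⟨a1, a2, a3, a4, a5⟩
  obtain ⟨Xd, hXd⟩ := eventually_atTop.1 hev
  refine ⟨T0 / ε1, by positivity, max (max Xa Xb) (max Xc Xd), fun X hX => ?_⟩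
  obtain ⟨Ba, hBa1, hBa2⟩ := hXa X (le_trans (le_trans (le_max_left _ _) (le_max_left _ _)) hX)
  obtain ⟨Bb, hBb0, hBb1, hBb2⟩ := hXb X (le_trans (le_trans (le_max_right _ _) (le_max_left _ _)) hX)
  obtain ⟨Bc, hBc1, hBc2⟩ := hXc X (le_trans (le_trans (le_max_left _ _) (le_max_right _ _)) hX)
  obtain ⟨hl, hlε, hlT, hlκ, hlu⟩ := hXd X (le_trans (le_trans (le_max_right _ _) (le_max_right _ _)) hX)
  clear hXa hXb hXc hXd hev hX hEa hEb hgood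
  rw [pow_zero, mul_one] at hlu
  refine ⟨Ba ∪ Bb ∪ Bc, ?_, ?_⟩
  · have h3 := card_union_le (Ba ∪ Bb) Bc
    have h4 := card_union_le Ba Bb
    have h5 : (#(Ba ∪ Bb ∪ Bc) : ℝ) ≤ #Ba + #Bb + #Bc := by exact_mod_cast (by omega : #(Ba ∪ Bb ∪ Bc) ≤ #Ba + #Bb + #Bc)
    have h6 : 0 ≤ ε * (X : ℝ) := by positivity
    have e1 : ε / 8 * (X : ℝ) = ε * X / 8 := by ring
    rw [e1] at hBa1 hBb1 hBc1
    linarith
  · intro K hK hKB hvn h hh hlim m N hmN hH1 hmK hTH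
    rw [mem_union, mem_union, not_or, not_or] at hKB
    obtain ⟨⟨k1, k2⟩, k3⟩ := hKB
    have hsq : ¬ IsSquare (K : ℤ) := by
      rintro ⟨r, hr⟩
      have h1 := hvn r.natAbs
      have h2 : vn K r.natAbs = 0 := by
        unfold vn
        have h3 : (r.natAbs : ℤ) ^ 2 = (K : ℤ) := by
          rw [Int.natAbs_sq, sq, ← hr]
        rw [h3, sub_self]; rfl
      omega
    obtain ⟨g1, g2⟩ := hBa2 K hK k1 hsq h hh hlim
    obtain ⟨g3, g4⟩ := hBb2 K hK k2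
    have g5 := hBc2 K hK k3
    have hl0 : 0 < Real.log X := by linarith
    have hl1 : 1 ≤ Real.log X := by linarith
    have hwle : ((⌊Real.log X ^ (1 / (u : ℝ))⌋₊ : ℕ) : ℝ) ≤ Real.log X ^ (1 / (u : ℝ)) := Nat.floor_le (by positivity)
    have hwy : y0 ≤ ⌊Real.log X ^ (1 / (u : ℝ))⌋₊ := by
      apply Nat.le_floor
      refine le_trans ?_ hlu
      exact_mod_cast Nat.le_succ y0
    have hwb : ((⌊Real.log X ^ (1 / (u : ℝ))⌋₊ : ℕ) : ℝ) ^ (C1 * b) ≤ √(Real.log X) := by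
      calc ((⌊Real.log X ^ (1 / (u : ℝ))⌋₊ : ℕ) : ℝ) ^ (C1 * b) ≤ (Real.log X ^ (1 / (u : ℝ))) ^ (C1 * b) :=
            pow_le_pow_left₀ (Nat.cast_nonneg _) hwle _
        _ = √(Real.log X) := by
            rw [← Real.rpow_natCast, ← Real.rpow_mul hl0.le, Real.sqrt_eq_rpow]
            congr 1
            rw [hu]
            push_cast
            have h1 : (C1 : ℝ) ≠ 0 := by exact_mod_cast (by omega : C1 ≠ 0)
            have h2 : (b : ℝ) ≠ 0 := by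
              have : b ≠ 0 := by omega
              exact_mod_cast this
            field_simp
    have hlε' : 6 / ε1 ≤ √(Real.log X) := Real.le_sqrt_of_sq_le hlε
    have h7 := one_K K _ _ B1 b C1 (Real.log X) h δ0 ε1 T0 κ hl hκ hε10 hε11 hδ0 hh g1 hT0 g2 hvn hlε' hlT hlκ hB1 hbε hwb
      (fun a n han => hmodel b (by omega) _ hwy K a n han) g3 g4 g5 m N hmN hH1 hmK hTH
    refine h7.trans ?_
    apply mul_le_mul_of_nonneg_right hε12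
    apply mul_nonneg hh.le
    exact sum_nonneg fun i _ => wt_nonneg _

end Pool.Agent.TH892.OW
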